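import Mathlib

/-!
Counting pairs of difference vectors of triangles in a box of a planar lattice.
-/

namespace Pool.Agent.KS6_56.Tri

open Finset

/-- coordinates `(p, q)` of `(u, v)` such that `0, p, q` lie in an interval of `N` consecutive integers -/
noncomputable def hexF (N : ℕ) : Finset (ℤ × ℤ) :=
  ((Ioo (-(N : ℤ)) N) ×ˢ (Ioo (-(N : ℤ)) N)).filter (fun x => |x.1 - x.2| < (N : ℤ))

theorem mem_hexF {N : ℕ} {x : ℤ × ℤ} :
    x ∈ hexF N ↔ |x.1| < (N : ℤ) ∧ |x.2| < (N : ℤ) ∧ |x.1 - x.2| < (N : ℤ) := by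
  simp only [hexF, mem_filter, mem_product, mem_Ioo, abs_lt]
  tauto

theorem sum_abs (N : ℕ) : ∑ p ∈ Ioo (-(N : ℤ)) N, |p| = (N : ℤ) * (N - 1) := by
  induction N with
  | zero => simp
  | succ n ih =>
    rcases Nat.eq_zero_or_pos n with h0 | h0
    · subst h0
      have : Ioo (-((0 + 1 : ℕ) : ℤ)) ((0 + 1 : ℕ) : ℤ) = {0} := by
        ext x; simp; omega
      rw [this]; simp
    have h1 : Ioo (-((n + 1 : ℕ) : ℤ)) ((n + 1 : ℕ) : ℤ) =
        insert (n : ℤ) (insert (-(n : ℤ)) (Ioo (-(n : ℤ)) n)) := by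
      ext x; simp only [mem_Ioo, mem_insert]; push_cast; omega
    rw [h1, sum_insert, sum_insert, ih]
    · rw [abs_neg, abs_of_nonneg (by positivity : (0 : ℤ) ≤ (n : ℤ))]; push_cast; ring
    · simp
    · simp only [mem_insert, mem_Ioo, not_or]; omega

theorem card_hexF (N : ℕ) (hN : 1 ≤ N) : ((hexF N).card : ℤ) = 3 * N * (N - 1) + 1 := by
  have h1 : ((hexF N).card : ℤ) = ∑ p ∈ Ioo (-(N : ℤ)) N, (2 * (N : ℤ) - 1 - |p|) := by
    rw [hexF, card_filter, sum_product]
    push_cast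
    apply sum_congr rfl
    intro p hp
    rw [mem_Ioo] at hp
    have h2 : ∑ q ∈ Ioo (-(N : ℤ)) N, (if |p - q| < (N : ℤ) then (1 : ℤ) else 0) =
        (((Ioo (-(N : ℤ)) N).filter (fun q => |p - q| < (N : ℤ))).card : ℤ) := by
      rw [card_filter]; push_cast; rfl
    rw [h2]
    rcases le_total 0 p with h | h
    · have h3 : (Ioo (-(N : ℤ)) N).filter (fun q => |p - q| < (N : ℤ)) = Ioo (p - N) N := by
        ext q; simp only [mem_filter, mem_Ioo, abs_lt]; omega
      rw [h3, Int.card_Ioo, abs_of_nonneg h, Int.toNat_of_nonneg (by omega)]; ring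
    · have h3 : (Ioo (-(N : ℤ)) N).filter (fun q => |p - q| < (N : ℤ)) = Ioo (-(N : ℤ)) (p + N) := by
        ext q; simp only [mem_filter, mem_Ioo, abs_lt]; omega
      rw [h3, Int.card_Ioo, abs_of_nonpos h, Int.toNat_of_nonneg (by omega)]; ring
  rw [h1, sum_sub_distrib, sum_const, sum_abs, Int.card_Ioo, nsmul_eq_mul,
    Int.toNat_of_nonneg (by omega)]
  ring

theorem card_hexF_le (N : ℕ) : (hexF N).card ≤ 3 * N ^ 2 := by
  rcases Nat.eq_zero_or_pos N with h | h
  · subst h; simp [hexF]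
  · have := card_hexF N h
    have h2 : ((hexF N).card : ℤ) ≤ 3 * N ^ 2 := by
      rw [this]; nlinarith [(by exact_mod_cast h : (1 : ℤ) ≤ N)]
    exact_mod_cast h2

theorem le_card_hexF (N : ℕ) : 3 * N ^ 2 ≤ (hexF N).card + 3 * N := by
  rcases Nat.eq_zero_or_pos N with h | h
  · subst h; simp
  · have := card_hexF N h
    have h2 : (3 * N ^ 2 : ℤ) ≤ ((hexF N).card : ℤ) + 3 * N := by
      rw [this]; nlinarith
    exact_mod_cast h2

/-- a pair of integer vectors `(u, v)` -/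
abbrev TT := (ℤ × ℤ) × (ℤ × ℤ)

/-- determinant of `(u, v)` -/
def det (t : TT) : ℤ := t.1.1 * t.2.2 - t.1.2 * t.2.1

/-- rearrangement `((p, q), (p', q')) ↦ ((p, p'), (q, q'))` -/
def swapEquiv : ((ℤ × ℤ) × (ℤ × ℤ)) ≃ TT where
  toFun x := ((x.1.1, x.2.1), (x.1.2, x.2.2))
  invFun x := ((x.1.1, x.2.1), (x.1.2, x.2.2))
  left_inv _ := rfl
  right_inv _ := rfl

/-- pairs of difference vectors of triangles in an `N × N` box -/
noncomputable def XF (N : ℕ) : Finset TT := (hexF N ×ˢ hexF N).map swapEquiv.toEmbedding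

theorem mem_XF {N : ℕ} {t : TT} :
    t ∈ XF N ↔ (t.1.1, t.2.1) ∈ hexF N ∧ (t.1.2, t.2.2) ∈ hexF N := by
  simp only [XF, mem_map_equiv, mem_product]
  rfl

theorem mem_XF' {N : ℕ} {t : TT} :
    t ∈ XF N ↔ (|t.1.1| < (N : ℤ) ∧ |t.2.1| < (N : ℤ) ∧ |t.1.1 - t.2.1| < (N : ℤ)) ∧
      (|t.1.2| < (N : ℤ) ∧ |t.2.2| < (N : ℤ) ∧ |t.1.2 - t.2.2| < (N : ℤ)) := by
  rw [mem_XF, mem_hexF, mem_hexF]

theorem card_XF (N : ℕ) : (XF N).card = (hexF N).card ^ 2 := by
  rw [XF, card_map, card_product, sq]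

theorem card_XF_le (N : ℕ) : (XF N).card ≤ 9 * N ^ 4 := by
  rw [card_XF]
  calc (hexF N).card ^ 2 ≤ (3 * N ^ 2) ^ 2 := Nat.pow_le_pow_left (card_hexF_le N) 2
    _ = 9 * N ^ 4 := by ring

theorem le_card_XF (N : ℕ) : 9 * N ^ 4 ≤ (XF N).card + 18 * N ^ 3 := by
  rw [card_XF]
  have h1 := le_card_hexF N
  have h2 := card_hexF_le N
  nlinarith [Nat.zero_le N, Nat.mul_le_mul_left (3 * N) h2]

/-- the nondegenerate pairs -/
noncomputable def X0 (N : ℕ) : Finset TT := (XF N).filter (fun t => det t ≠ 0)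

theorem mem_X0 {N : ℕ} {t : TT} : t ∈ X0 N ↔ t ∈ XF N ∧ det t ≠ 0 := by
  rw [X0, mem_filter]

/-- the degenerate pairs are few -/
theorem card_deg_le (N : ℕ) : ((XF N).filter (fun t => det t = 0)).card ≤ 16 * N ^ 3 := by
  -- inject `(u1,u2,v1,v2)` with `u1 ≠ 0` by `(u1, u2, v1)`, with `u1 = 0`, `u2 ≠ 0` by `(u2, v2)` ...
  have hcard : (Ioo (-(N : ℤ)) N).card ≤ 2 * N := by
    rw [Int.card_Ioo]; omega
  let I := Ioo (-(N : ℤ)) N
  let f : TT → ℤ × ℤ × ℤ × Bool := fun t =>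
    if t.1.1 ≠ 0 then (t.1.1, t.1.2, t.2.1, true)
    else if t.1.2 ≠ 0 then (t.1.2, t.2.2, 0, false) else (0, t.2.1, t.2.2, false)
  have hinj : Set.InjOn f ((XF N).filter (fun t => det t = 0) : Finset TT) := by
    rintro ⟨⟨a, b⟩, ⟨c, d⟩⟩ h1 ⟨⟨a', b'⟩, ⟨c', d'⟩⟩ h2 h
    rw [Finset.mem_coe, mem_filter] at h1 h2
    simp only [det] at h1 h2
    have e1 := h1.2
    have e2 := h2.2
    simp only [f] at h
    by_cases k1 : a = 0
    · by_cases k2 : a' = 0
      · subst k1; subst k2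
        have e1' : b * c = 0 := by linarith
        have e2' : b' * c' = 0 := by linarith
        by_cases k3 : b = 0
        · by_cases k4 : b' = 0
          · subst k3; subst k4
            simp at h
            rw [h.1, h.2]
          · simp [k3, k4] at h
            exact absurd h.1.symm k4
        · by_cases k4 : b' = 0
          · simp [k3, k4] at h
          · simp [k3, k4] at h
            rw [h.1, h.2, (mul_eq_zero.1 e1').resolve_left k3, (mul_eq_zero.1 e2').resolve_left k4]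
      · by_cases k3 : b = 0 <;> simp [k1, k2, k3] at h
    · by_cases k2 : a' = 0
      · by_cases k3 : b' = 0 <;> simp [k1, k2, k3] at h
      · simp [k1, k2] at h
        obtain ⟨rfl, rfl, rfl⟩ := h
        have : d = d' := by
          have : a * (d - d') = 0 := by linarith
          rcases mul_eq_zero.1 this with h | h
          · exact absurd h k1
          · linarith
        rw [this]
  have hmaps : ∀ t ∈ (XF N).filter (fun t => det t = 0),
      f t ∈ I ×ˢ I ×ˢ I ×ˢ (Finset.univ : Finset Bool) := by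
    rintro ⟨⟨a, b⟩, ⟨c, d⟩⟩ h
    simp only [mem_filter, mem_XF', abs_lt] at h
    simp only [f]
    split_ifs <;> simp only [mem_product, I, mem_Ioo, mem_univ, and_true] <;> omega
  calc ((XF N).filter (fun t => det t = 0)).card
      ≤ (I ×ˢ I ×ˢ I ×ˢ (Finset.univ : Finset Bool)).card := card_le_card_of_injOn f hmaps hinj
    _ = I.card * (I.card * (I.card * 2)) := by
        rw [card_product, card_product, card_product]; simp
    _ ≤ (2 * N) * ((2 * N) * ((2 * N) * 2)) := by gcongr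
    _ = 16 * N ^ 3 := by ring

theorem le_card_X0 (N : ℕ) : 9 * N ^ 4 ≤ (X0 N).card + 34 * N ^ 3 := by
  have h1 := le_card_XF N
  have h2 := card_deg_le N
  have h3 : ((XF N).filter (fun t => det t = 0)).card + (X0 N).card = (XF N).card := by
    rw [X0]; exact card_filter_add_card_filter_not _
  omega

theorem card_X0_le (N : ℕ) : (X0 N).card ≤ 9 * N ^ 4 :=
  (card_le_card (filter_subset _ _)).trans (card_XF_le N)

end Pool.Agent.KS6_56.Tri
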