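import Pool.Agent.KS6_56.Tri.Lattice

/-!
Passing to the limit in sums over rational rotations.
-/

namespace Pool.Agent.KS6_56.Tri

open Finset Filter Topology

/-- packing with integral matrices with a large entry -/
theorem card_fibre (S : Finset ((ℤ × ℤ) × (ℤ × ℤ))) (α β : ℤ) (N : ℕ) (hβ : β ≠ 0)
    (hS : ∀ x ∈ S, x.1 ∈ hexF N ∧ α • x.1 + β • x.2 ∈ hexF N) :
    S.card * β.natAbs ^ 2 ≤ 9 * (N + β.natAbs) ^ 4 := by
  classical
  set k := β.natAbs with hk
  have hk0 : 0 < k := Int.natAbs_pos.2 hβ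
  have hkz : (0 : ℤ) < k := by exact_mod_cast hk0
  let f : ((ℤ × ℤ) × (ℤ × ℤ)) × (ℕ × ℕ) → (ℤ × ℤ) × (ℤ × ℤ) := fun x =>
    (x.1.1, (α • x.1.1 + β • x.1.2) + ((x.2.1 : ℤ), (x.2.2 : ℤ)))
  have hmaps : ∀ x ∈ S ×ˢ (range k ×ˢ range k), f x ∈ hexF N ×ˢ hexF (N + k) := by
    rintro ⟨⟨x, y⟩, i, j⟩ h
    simp only [mem_product, mem_range] at h
    obtain ⟨h1, h2, h3⟩ := h
    obtain ⟨h4, h5⟩ := hS _ h1
    rw [mem_product]
    refine ⟨h4, ?_⟩
    rw [mem_hexF] at h5 ⊢
    simp only [f, Prod.fst_add, Prod.snd_add] at h5 ⊢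
    push_cast
    obtain ⟨a1, a2, a3⟩ := h5
    rw [abs_lt] at a1 a2 a3
    have h2' : (i : ℤ) < k := by exact_mod_cast h2
    have h3' : (j : ℤ) < k := by exact_mod_cast h3
    have h2'' : (0 : ℤ) ≤ i := by positivity
    have h3'' : (0 : ℤ) ≤ j := by positivity
    refine ⟨?_, ?_, ?_⟩ <;> rw [abs_lt] <;> constructor <;> linarith
  have hdvd : (k : ℤ) ∣ β := by rw [hk]; exact Int.natAbs_dvd.2 dvd_rfl
  have hinj : Set.InjOn f (S ×ˢ (range k ×ˢ range k) : Finset _) := by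
    rintro ⟨⟨x, y⟩, i, j⟩ h ⟨⟨x', y'⟩, i', j'⟩ h' he
    rw [mem_coe, mem_product, mem_product] at h h'
    simp only [mem_range] at h h'
    simp only [f, Prod.mk.injEq] at he
    obtain ⟨rfl, he⟩ := he
    have e1 := congrArg Prod.fst he
    have e2 := congrArg Prod.snd he
    simp only [Prod.fst_add, Prod.snd_add, Prod.smul_fst, Prod.smul_snd, smul_eq_mul] at e1 e2
    have aux : ∀ (a b b' : ℤ) (i i' : ℕ), i < k → i' < k → a + β * b + i = a + β * b' + i' →
        b = b' ∧ i = i' := by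
      intro a b b' i i' hi hi' h
      have h1 : β * (b - b') = i' - i := by linarith
      have h2 : (k : ℤ) ∣ (i' : ℤ) - i := by rw [← h1]; exact Dvd.dvd.mul_right hdvd _
      have h3 : (i' : ℤ) - i = 0 := by
        apply Int.eq_zero_of_abs_lt_dvd h2
        rw [abs_lt]
        have : (i : ℤ) < k := by exact_mod_cast hi
        have : (i' : ℤ) < k := by exact_mod_cast hi'
        constructor <;> linarith [(by positivity : (0 : ℤ) ≤ i), (by positivity : (0 : ℤ) ≤ i')]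
      rw [h3] at h1
      have h4 := (mul_eq_zero.1 h1).resolve_left hβ
      constructor
      · linarith
      · have : (i' : ℤ) = i := by linarith
        exact_mod_cast this.symm
    obtain ⟨f1, f2⟩ := aux _ _ _ _ _ h.2.1 h'.2.1 e1
    obtain ⟨f3, f4⟩ := aux _ _ _ _ _ h.2.2 h'.2.2 e2
    subst f2; subst f4
    have : y = y' := Prod.ext f1 f3
    rw [this]
  have h1 := card_le_card_of_injOn f hmaps hinj
  rw [card_product, card_product, card_product, card_range] at h1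
  calc S.card * k ^ 2 = S.card * (k * k) := by ring
    _ ≤ (hexF N).card * (hexF (N + k)).card := h1
    _ ≤ (3 * N ^ 2) * (3 * (N + k) ^ 2) := by
        gcongr
        · exact card_hexF_le N
        · exact card_hexF_le (N + k)
    _ ≤ (3 * (N + k) ^ 2) * (3 * (N + k) ^ 2) := by gcongr; omega
    _ = 9 * (N + k) ^ 4 := by ring

theorem cnt_integral_c (g : RM) (γ δ : ℤ) (hc : g.c = γ) (hd : g.d = δ) (hγ : 2 ≤ |γ|) (N : ℕ) :
    cnt g N * 2 ^ 2 ≤ 9 * (N + γ.natAbs) ^ 4 := by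
  classical
  have hγ0 : γ ≠ 0 := by rintro rfl; simp at hγ
  let F := (X0 N).filter (fun t => ∃ t' ∈ X0 N, g.Maps t t')
  let e : TT → (ℤ × ℤ) × (ℤ × ℤ) := fun t => ((t.1.2, t.2.2), (t.1.1, t.2.1))
  have he : Function.Injective e := by
    rintro ⟨⟨a, b⟩, c, d⟩ ⟨⟨a', b'⟩, c', d'⟩ h
    simp only [e, Prod.mk.injEq] at h
    simp only [Prod.mk.injEq]
    tauto
  have h1 : cnt g N = (F.image e).card := by
    rw [cnt, card_image_of_injective _ he]
  have h2 := card_fibre (F.image e) δ γ N hγ0 (by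
    intro x hx
    obtain ⟨t, ht, rfl⟩ := mem_image.1 hx
    simp only [F, mem_filter] at ht
    obtain ⟨ht, t', ht', hm⟩ := ht
    refine ⟨(mem_XF.1 (mem_X0.1 ht).1).2, ?_⟩
    have h3 := (mem_XF.1 (mem_X0.1 ht').1).2
    have h4 : δ • (e t).1 + γ • (e t).2 = (t'.1.2, t'.2.2) := by
      obtain ⟨_, m2, _, m4⟩ := hm
      rw [hc, hd] at m2 m4
      ext
      · simp only [e, Prod.fst_add, Prod.smul_fst, smul_eq_mul]
        have : (((δ * t.1.2 + γ * t.1.1 : ℤ)) : ℚ) = t'.1.2 := by push_cast; rw [← m2]; ring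
        exact_mod_cast this
      · simp only [e, Prod.snd_add, Prod.smul_snd, smul_eq_mul]
        have : (((δ * t.2.2 + γ * t.2.1 : ℤ)) : ℚ) = t'.2.2 := by push_cast; rw [← m4]; ring
        exact_mod_cast this
    rw [h4]
    exact h3)
  rw [h1]
  refine le_trans ?_ h2
  gcongr
  have : ((2 : ℕ) : ℤ) ≤ (γ.natAbs : ℤ) := by rw [← Int.abs_eq_natAbs]; exact_mod_cast hγ
  exact_mod_cast this

theorem cnt_integral_b (g : RM) (α β : ℤ) (ha : g.a = α) (hb : g.b = β) (hβ : 2 ≤ |β|) (N : ℕ) :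
    cnt g N * 2 ^ 2 ≤ 9 * (N + β.natAbs) ^ 4 := by
  classical
  have hβ0 : β ≠ 0 := by rintro rfl; simp at hβ
  let F := (X0 N).filter (fun t => ∃ t' ∈ X0 N, g.Maps t t')
  let e : TT → (ℤ × ℤ) × (ℤ × ℤ) := fun t => ((t.1.1, t.2.1), (t.1.2, t.2.2))
  have he : Function.Injective e := by
    rintro ⟨⟨a, b⟩, c, d⟩ ⟨⟨a', b'⟩, c', d'⟩ h
    simp only [e, Prod.mk.injEq] at h
    simp only [Prod.mk.injEq]
    tauto
  have h1 : cnt g N = (F.image e).card := by
    rw [cnt, card_image_of_injective _ he]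
  have h2 := card_fibre (F.image e) α β N hβ0 (by
    intro x hx
    obtain ⟨t, ht, rfl⟩ := mem_image.1 hx
    simp only [F, mem_filter] at ht
    obtain ⟨ht, t', ht', hm⟩ := ht
    refine ⟨(mem_XF.1 (mem_X0.1 ht).1).1, ?_⟩
    have h3 := (mem_XF.1 (mem_X0.1 ht').1).1
    have h4 : α • (e t).1 + β • (e t).2 = (t'.1.1, t'.2.1) := by
      obtain ⟨m1, _, m3, _⟩ := hm
      rw [ha, hb] at m1 m3
      ext
      · simp only [e, Prod.fst_add, Prod.smul_fst, smul_eq_mul]
        exact_mod_cast m1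
      · simp only [e, Prod.snd_add, Prod.smul_snd, smul_eq_mul]
        exact_mod_cast m3
    rw [h4]
    exact h3)
  rw [h1]
  refine le_trans ?_ h2
  gcongr
  have : ((2 : ℕ) : ℤ) ≤ (β.natAbs : ℤ) := by rw [← Int.abs_eq_natAbs]; exact_mod_cast hβ
  exact_mod_cast this

/-- a form of Tannery's theorem -/
theorem tannery {I : Type*} (c : I → ℕ → ℕ) (D H : I → ℝ) (hD : ∀ i, 1 ≤ D i)
    (hDH : ∀ i, D i ≤ H i) (h1 : ∀ i N, (c i N : ℝ) * D i ^ 2 ≤ 324 * (N : ℝ) ^ 4)
    (h2 : ∀ i, ∃ R : ℕ, ∀ N : ℕ, (c i N : ℝ) * H i ^ 2 ≤ 9 * ((N : ℝ) + R) ^ 4)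
    (hs : Summable (fun i => 1 / D i ^ 2)) (S : ℝ) (hS : ∑' i, 1 / H i ^ 2 ≤ S) :
    ∀ ε > 0, ∀ᶠ N : ℕ in atTop, ∃ F : I → ℝ, Summable F ∧ (∀ i, (c i N : ℝ) ≤ F i) ∧
      ∑' i, F i ≤ (9 * S + ε) * (N : ℝ) ^ 4 := by
  choose R hR using h2
  intro ε hε
  let G : ℕ → I → ℝ := fun N i => min (324 * (1 / D i ^ 2)) (9 * (1 + R i / (N : ℝ)) ^ 4 * (1 / H i ^ 2))
  let L : I → ℝ := fun i => min (324 * (1 / D i ^ 2)) (9 * (1 / H i ^ 2))
  have hH : ∀ i, 0 < H i := fun i => lt_of_lt_of_le one_pos ((hD i).trans (hDH i))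
  have hD0 : ∀ i, 0 < D i := fun i => lt_of_lt_of_le one_pos (hD i)
  have hs' : Summable (fun i => 324 * (1 / D i ^ 2)) := hs.mul_left _
  have hG0 : ∀ N i, 0 ≤ G N i := fun N i => le_min (by have := hD0 i; positivity)
    (by have := hH i; positivity)
  have hlim : Tendsto (fun N => ∑' i, G N i) atTop (𝓝 (∑' i, L i)) := by
    apply tendsto_tsum_of_dominated_convergence hs'
    · intro i
      apply Tendsto.min tendsto_const_nhds
      have h3 : Tendsto (fun N : ℕ => (1 + R i / (N : ℝ))) atTop (𝓝 (1 + 0)) :=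
        tendsto_const_nhds.add (tendsto_const_div_atTop_nhds_zero_nat _)
      have h4 := ((h3.pow 4).const_mul 9).mul_const (1 / H i ^ 2)
      simpa using h4
    · filter_upwards with N i
      rw [Real.norm_of_nonneg (hG0 N i)]
      exact min_le_left _ _
  have hsH : Summable (fun i => 1 / H i ^ 2) := by
    refine Summable.of_nonneg_of_le (fun i => by have := hH i; positivity) (fun i => ?_) hs
    have := hD0 i
    have := hDH i
    gcongr
  have hLs : Summable L := by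
    refine Summable.of_nonneg_of_le (fun i => le_min (by have := hD0 i; positivity)
      (by have := hH i; positivity)) (fun i => min_le_left _ _) hs'
  have hL : ∑' i, L i ≤ 9 * S := by
    calc ∑' i, L i ≤ ∑' i, 9 * (1 / H i ^ 2) :=
          hLs.tsum_le_tsum (fun i => min_le_right _ _) (hsH.mul_left 9)
      _ = 9 * ∑' i, 1 / H i ^ 2 := tsum_mul_left
      _ ≤ 9 * S := by gcongr
  have hev : ∀ᶠ N : ℕ in atTop, ∑' i, G N i < 9 * S + ε :=
    hlim.eventually_lt_const (by linarith)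
  filter_upwards [hev, eventually_ge_atTop 1] with N hN hN1
  have hN0 : (0 : ℝ) < N := by exact_mod_cast hN1
  have hGs : Summable (G N) := Summable.of_nonneg_of_le (hG0 N) (fun i => min_le_left _ _) hs'
  refine ⟨fun i => G N i * (N : ℝ) ^ 4, hGs.mul_right _, fun i => ?_, ?_⟩
  · simp only [G]
    rw [min_mul_of_nonneg _ _ (by positivity)]
    apply le_min
    · have := h1 i N
      have hp : 0 < D i ^ 2 := by have := hD0 i; positivity
      rw [mul_one_div, div_mul_eq_mul_div, le_div_iff₀ hp]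
      exact this
    · have := hR i N
      have hp : 0 < H i ^ 2 := by have := hH i; positivity
      rw [mul_one_div, div_mul_eq_mul_div, le_div_iff₀ hp]
      refine this.trans (le_of_eq ?_)
      rw [mul_assoc, ← mul_pow]
      congr 2
      field_simp
  · rw [tsum_mul_right]
    gcongr

end Pool.Agent.KS6_56.Tri
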