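import Mathlib

/-!
Sums of `1 / a²` over the integers prime to a given number, and sums of `d(m) / m²`.
-/

namespace Pool.Agent.KS6_56.Tri

open Finset

/-- weight -/
noncomputable def W (P a : ℕ) : ℝ := if Nat.Coprime a P then 1 / (a : ℝ) ^ 2 else 0

theorem W_nonneg (P a : ℕ) : 0 ≤ W P a := by
  rw [W]; split_ifs <;> positivity

theorem W_le (P a : ℕ) : W P a ≤ 1 / (a : ℝ) ^ 2 := by
  rw [W]; split_ifs <;> first | exact le_rfl | positivity

theorem summable_W (P : ℕ) : Summable (W P) :=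
  Summable.of_nonneg_of_le (W_nonneg P) (W_le P) hasSum_zeta_two.summable

/-- the sum -/
noncomputable def Z (P : ℕ) : ℝ := ∑' a, W P a

theorem Z_one : Z 1 = Real.pi ^ 2 / 6 := by
  rw [Z, ← hasSum_zeta_two.tsum_eq]
  congr 1
  ext a
  simp [W]

theorem Z_nonneg (P : ℕ) : 0 ≤ Z P := tsum_nonneg (W_nonneg P)

theorem Z_mul {P p : ℕ} (hp : p.Prime) (hP : ¬ p ∣ P) : Z (P * p) = Z P * (1 - 1 / (p : ℝ) ^ 2) := by
  have h1 : ∀ a, W P a = W (P * p) a + (if p ∣ a then W P a else 0) := by
    intro a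
    by_cases h : p ∣ a
    · have : ¬ Nat.Coprime a (P * p) := by
        intro hc
        have h2 : Nat.Coprime p p := (hc.coprime_dvd_left h).coprime_dvd_right (Dvd.intro_left _ rfl)
        rw [Nat.coprime_self] at h2
        exact hp.one_lt.ne' h2
      rw [if_pos h, W, W, if_neg this]; ring
    · have hc : Nat.Coprime a p := ((Nat.Prime.coprime_iff_not_dvd hp).2 h).symm
      rw [if_neg h, add_zero, W, W]
      congr 1
      rw [Nat.coprime_mul_iff_right, eq_iff_iff]
      exact ⟨fun h => ⟨h, hc⟩, fun h => h.1⟩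
  have hp0 : (p : ℝ) ≠ 0 := by exact_mod_cast hp.ne_zero
  have hinj : Function.Injective (fun a : ℕ => p * a) :=
    fun a b h => Nat.eq_of_mul_eq_mul_left hp.pos h
  have h2 : ∑' a, (if p ∣ a then W P a else 0) = Z P / (p : ℝ) ^ 2 := by
    rw [← hinj.tsum_eq (f := fun a => if p ∣ a then W P a else 0)]
    · rw [Z, ← tsum_div_const]
      congr 1
      ext a
      rw [if_pos (Dvd.intro a rfl), W, W]
      have : Nat.Coprime (p * a) P ↔ Nat.Coprime a P := by
        rw [Nat.coprime_mul_iff_left]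
        have : Nat.Coprime p P := (Nat.Prime.coprime_iff_not_dvd hp).2 hP
        exact ⟨fun h => h.2, fun h => ⟨this, h⟩⟩
      simp only [this]
      split_ifs
      · push_cast; rw [mul_pow, div_div, mul_comm]
      · simp
    · intro a ha
      simp only [Function.mem_support, ne_eq, ite_eq_right_iff, Classical.not_imp] at ha
      obtain ⟨k, hk⟩ := ha.1
      exact ⟨k, hk.symm⟩
  have hs2 : Summable (fun a => if p ∣ a then W P a else 0) := by
    refine Summable.of_nonneg_of_le (fun a => ?_) (fun a => ?_) (summable_W P)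
    · split_ifs
      · exact W_nonneg P a
      · exact le_rfl
    · split_ifs
      · exact le_rfl
      · exact W_nonneg P a
  have h3 : Z P = Z (P * p) + Z P / (p : ℝ) ^ 2 := by
    rw [← h2]
    conv_lhs => rw [Z]
    rw [Z, ← (summable_W _).tsum_add hs2]
    exact tsum_congr h1
  field_simp at h3 ⊢
  linarith

theorem pi_sq_lt : Real.pi ^ 2 < 9.8697 := by
  have h1 := Real.pi_lt_d4
  have h2 := Real.pi_pos
  nlinarith

theorem Z_one_lt : Z 1 < 1.64496 := by rw [Z_one]; have := pi_sq_lt; linarith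

theorem Z_two : Z 2 = Real.pi ^ 2 / 8 := by
  have := Z_mul (P := 1) Nat.prime_two (by norm_num)
  rw [one_mul, Z_one] at this
  rw [this]; push_cast; ring

theorem Z_six : Z 6 = Real.pi ^ 2 / 9 := by
  have := Z_mul (P := 2) Nat.prime_three (by norm_num)
  rw [Z_two] at this
  norm_num at this
  rw [this]; ring

theorem Z_thirty : Z 30 = 8 * Real.pi ^ 2 / 75 := by
  have := Z_mul (P := 6) Nat.prime_five (by norm_num)
  rw [Z_six] at this
  norm_num at this
  rw [this]; ring

theorem Z_fifteen : Z 15 = 32 * Real.pi ^ 2 / 225 := by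
  have h3 := Z_mul (P := 1) Nat.prime_three (by norm_num)
  rw [one_mul, Z_one] at h3
  have := Z_mul (P := 3) Nat.prime_five (by norm_num)
  rw [h3] at this
  norm_num at this
  rw [this]; ring

/-- sums of `d(m) / m²` -/
theorem sum_divisors_le (P : ℕ) (M : Finset ℕ) (hM : ∀ m ∈ M, 0 < m ∧ Nat.Coprime m P)
    (E : Finset (ℕ × ℕ)) (hE : ∀ e ∈ E, e.1 * e.2 ∉ M) :
    (∑ m ∈ M, (m.divisors.card : ℝ) / (m : ℝ) ^ 2) + ∑ e ∈ E, W P e.1 * W P e.2 ≤ Z P ^ 2 := by
  classical
  have h1 : ∑ m ∈ M, (m.divisors.card : ℝ) / (m : ℝ) ^ 2 =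
      ∑ m ∈ M, ∑ e ∈ m.divisorsAntidiagonal, W P e.1 * W P e.2 := by
    apply sum_congr rfl
    intro m hm
    have hm' := hM m hm
    have h2 : ∀ e ∈ m.divisorsAntidiagonal, W P e.1 * W P e.2 = 1 / (m : ℝ) ^ 2 := by
      intro e he
      rw [Nat.mem_divisorsAntidiagonal] at he
      have c1 : Nat.Coprime e.1 P := hm'.2.coprime_dvd_left (Dvd.intro _ he.1)
      have c2 : Nat.Coprime e.2 P := hm'.2.coprime_dvd_left (Dvd.intro_left _ he.1)
      rw [W, W, if_pos c1, if_pos c2, ← he.1]
      push_cast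
      rw [mul_pow]
      field_simp
    rw [sum_congr rfl h2, sum_const, nsmul_eq_mul]
    have h3 : m.divisorsAntidiagonal.card = m.divisors.card := by
      rw [← Nat.map_div_right_divisors, card_map]
    rw [h3]; ring
  have h2 : ∑ m ∈ M, ∑ e ∈ m.divisorsAntidiagonal, W P e.1 * W P e.2 =
      ∑ e ∈ M.biUnion (fun m => m.divisorsAntidiagonal), W P e.1 * W P e.2 := by
    rw [sum_biUnion]
    intro m _ m' _ hmm
    rw [Function.onFun, disjoint_left]
    intro e he he'
    rw [Nat.mem_divisorsAntidiagonal] at he he'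
    exact hmm (he.1.symm.trans he'.1)
  rw [h1, h2, ← sum_union]
  · have hs : Summable (fun e : ℕ × ℕ => W P e.1 * W P e.2) :=
      (summable_W P).mul_of_nonneg (summable_W P) (W_nonneg P) (W_nonneg P)
    have h3 : Z P ^ 2 = ∑' e : ℕ × ℕ, W P e.1 * W P e.2 := by
      rw [sq, Z]
      exact (summable_W P).tsum_mul_tsum (summable_W P) hs
    rw [h3]
    exact hs.sum_le_tsum _ (fun e _ => mul_nonneg (W_nonneg P _) (W_nonneg P _))
  · rw [disjoint_right]
    intro e he he'
    rw [mem_biUnion] at he'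
    obtain ⟨m, hm, hem⟩ := he'
    rw [Nat.mem_divisorsAntidiagonal] at hem
    apply hE e he
    rw [hem.1]; exact hm

theorem sum_divisors_le' (P : ℕ) (M : Finset ℕ) (hM : ∀ m ∈ M, 2 ≤ m ∧ Nat.Coprime m P) :
    (∑ m ∈ M, (m.divisors.card : ℝ) / (m : ℝ) ^ 2) ≤ Z P ^ 2 - 1 := by
  have := sum_divisors_le P M (fun m hm => ⟨by have := (hM m hm).1; omega, (hM m hm).2⟩) {(1, 1)}
    (by
      intro e he
      rw [mem_singleton] at he
      subst he
      intro h
      have := (hM _ h).1
      omega)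
  rw [sum_singleton] at this
  simp only [W, Nat.coprime_one_left_eq_true, if_true, Nat.cast_one, one_pow, div_one, mul_one] at this
  linarith

theorem sum_divisors_le'' (M : Finset ℕ) (hM : ∀ m ∈ M, 4 ≤ m) :
    (∑ m ∈ M, (m.divisors.card : ℝ) / (m : ℝ) ^ 2) ≤ Z 1 ^ 2 - 1 - 1 / 2 - 2 / 9 := by
  have := sum_divisors_le 1 M (fun m hm => ⟨by have := (hM m hm); omega, Nat.coprime_one_right m⟩)
    {(1, 1), (1, 2), (2, 1), (1, 3), (3, 1)}
    (by
      intro e he h
      have h4 := hM _ h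
      simp only [mem_insert, mem_singleton] at he
      rcases he with rfl | rfl | rfl | rfl | rfl <;> norm_num at h4)
  have h2 : ∑ e ∈ ({(1, 1), (1, 2), (2, 1), (1, 3), (3, 1)} : Finset (ℕ × ℕ)), W 1 e.1 * W 1 e.2 =
      1 + 1 / 2 + 2 / 9 := by
    rw [sum_insert (by decide), sum_insert (by decide), sum_insert (by decide),
      sum_insert (by decide), sum_singleton]
    simp [W]
    norm_num
  rw [h2] at this
  linarith

end Pool.Agent.KS6_56.Tri
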