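import Pool.Agent.KS6_56.Tri.Structure
import Pool.Agent.KS6_56.Tri.Limit
import Pool.Agent.KS6_56.Tri.Zeta

/-!
The sum of the inverse squares of the denominators of the rational rotations, and the lower bound
for the number of Gram data.
-/

namespace Pool.Agent.KS6_56.Tri

open Finset Filter Topology

theorem exists_kappa {q : Form} (hq : q.Pos) (hex : ∃ g ∈ Rot q, g.c ≠ 0) :
    ∃ t n : ℤ, (t = 0 ∨ t = 1) ∧ 0 < 4 * n - t ^ 2 ∧ Fund t n ∧
      ∃ κ : Rot q → ℕ × (ℤ × ℤ), Function.Injective κ ∧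
        ∀ g, 0 < (κ g).1 ∧ (κ g).1 ≤ den g ∧ IsSol t n (κ g).1 (κ g).2 := by
  obtain ⟨g0, hg0, hc0⟩ := hex
  obtain ⟨e1, e2⟩ := rot_eqs hg0
  have hqA := hq.1.ne'
  have hc0' : (g0.c : ℝ) ≠ 0 := by exact_mod_cast hc0
  set β : ℚ := (g0.d - g0.a) / g0.c with hβd
  set γ : ℚ := - g0.b / g0.c with hγd
  have hβ : q.B = β * q.A := by
    rw [hβd]; push_cast; field_simp; linear_combination e1
  have hγ : q.C = γ * q.A := by
    rw [hγd]; push_cast; field_simp; linear_combination e2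
  obtain ⟨A, B, C, r, s, v, hA, hB, hC, hbez⟩ := exists_primitive β γ
  have hΔ0 : 0 < 4 * A * C - B ^ 2 := by
    have h1 := hq.2
    rw [hβ, hγ] at h1
    have h2 : (β : ℝ) ^ 2 < 4 * γ := by
      have hA2 : 0 < q.A ^ 2 := by have := hq.1; positivity
      have : (β : ℝ) ^ 2 * q.A ^ 2 < 4 * γ * q.A ^ 2 := by linarith
      exact lt_of_mul_lt_mul_right this hA2.le
    have h3 : β ^ 2 < 4 * γ := by exact_mod_cast h2
    have h4 : (0 : ℚ) < 4 * A * C - B ^ 2 := by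
      rw [hB, hC]
      have hAq0 : (0 : ℚ) < A := by exact_mod_cast hA
      have hAq : (0 : ℚ) < (A : ℚ) ^ 2 := by positivity
      nlinarith
    exact_mod_cast h4
  obtain ⟨t, n, f, ht, hf, hΔ, hF⟩ := exists_fund B (4 * A * C - B ^ 2) hΔ0 ⟨A * C, by ring⟩
  have hpos : 0 < 4 * n - t ^ 2 := by
    have : 0 < f ^ 2 * (4 * n - t ^ 2) := by rw [← hΔ]; exact hΔ0
    exact (pos_iff_pos_of_mul_pos this).1 (by positivity)
  have hk : ∀ g : Rot q, ∃ k : ℕ × (ℤ × ℤ), 0 < k.1 ∧ k.1 ≤ den g ∧ IsSol t n k.1 k.2 ∧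
      Key A t f g k := fun g => exists_key hβ hγ hq hA hB hC hbez hf hΔ g.2
  choose κ hκ using hk
  refine ⟨t, n, ht, hpos, hF, κ, ?_, fun g => ⟨(hκ g).1, (hκ g).2.1, (hκ g).2.2.1⟩⟩
  intro g g' h
  apply Subtype.ext
  exact key_inj hβ hγ hq hf g.2 g'.2 (hκ g).1 (hκ g).2.2.2 (by rw [h]; exact (hκ g').2.2.2)

/-- the size of a rotation -/
noncomputable def hgt (g : RM) : ℝ := by
  classical exact if g = RM.one ∨ g = RM.neg then (den g : ℝ) else max 2 (den g : ℝ)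

theorem one_le_den (g : RM) : (1 : ℝ) ≤ den g := by exact_mod_cast den_pos g

theorem den_le_hgt (g : RM) : (den g : ℝ) ≤ hgt g := by
  rw [hgt]; split_ifs
  · exact le_rfl
  · exact le_max_right _ _

theorem two_le_hgt {g : RM} (h : ¬ (g = RM.one ∨ g = RM.neg)) : 2 ≤ hgt g := by
  rw [hgt, if_neg h]; exact le_max_left _ _

/-- sums over finite sets of rotations -/
theorem finite_sum_le {q : Form} {t n : ℤ} (hF : Fund t n) (U : Finset (ℤ × ℤ))
    (hU : ∀ x : ℤ × ℤ, x.1 ^ 2 + t * x.1 * x.2 + n * x.2 ^ 2 = 1 → x ∈ U)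
    (κ : Rot q → ℕ × (ℤ × ℤ)) (hinj : Function.Injective κ)
    (hκ : ∀ g, 0 < (κ g).1 ∧ (κ g).1 ≤ den g ∧ IsSol t n (κ g).1 (κ g).2) (σ : ℝ)
    (hσ : ∀ M : Finset ℕ, (∀ m ∈ M, 2 ≤ m ∧ ∃ x, IsSol t n m x) →
      ∑ m ∈ M, (m.divisors.card : ℝ) / (m : ℝ) ^ 2 ≤ σ) (s : Finset (Rot q)) :
    ∑ g ∈ s, 1 / hgt g ^ 2 ≤ ((U.card : ℝ) + 6) / 4 + U.card * σ := by
  classical
  have hfib : ∀ (s' : Finset (Rot q)) (m : ℕ), 0 < m →
      (s'.filter (fun g => (κ g).1 = m)).card ≤ U.card * m.divisors.card := by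
    intro s' m hm
    have h1 : (s'.filter (fun g => (κ g).1 = m)).card =
        ((s'.filter (fun g => (κ g).1 = m)).image (fun g => (κ g).2)).card := by
      rw [card_image_of_injOn]
      intro g hg g' hg' h
      rw [mem_coe, mem_filter] at hg hg'
      exact hinj (Prod.ext (hg.2.trans hg'.2.symm) h)
    rw [h1]
    apply card_sol_le hm hF U hU
    intro x hx
    obtain ⟨g, hg, rfl⟩ := mem_image.1 hx
    rw [mem_filter] at hg
    have := (hκ g).2.2
    rwa [hg.2] at this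
  have hpos : ∀ g : Rot q, 0 < hgt g := fun g =>
    lt_of_lt_of_le one_pos ((one_le_den g).trans (den_le_hgt g))
  rw [← sum_filter_add_sum_filter_not s (fun g => (κ g).1 = 1)]
  apply add_le_add
  · -- units
    let s1 := s.filter (fun g => (κ g).1 = 1)
    have h1 : s1.card ≤ U.card := by
      have := hfib s 1 one_pos
      simpa using this
    have h2 : (s1.filter (fun g : Rot q => g.1 = RM.one ∨ g.1 = RM.neg)).card ≤ 2 := by
      have : (s1.filter (fun g : Rot q => g.1 = RM.one ∨ g.1 = RM.neg)).card =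
          ((s1.filter (fun g : Rot q => g.1 = RM.one ∨ g.1 = RM.neg)).image
            (fun g : Rot q => g.1)).card := by
        rw [card_image_of_injective _ Subtype.val_injective]
      rw [this]
      refine (card_le_card (t := {RM.one, RM.neg}) ?_).trans (card_le_two)
      intro x hx
      obtain ⟨g, hg, rfl⟩ := mem_image.1 hx
      rw [mem_filter] at hg
      simpa using hg.2
    have h3 : ∑ g ∈ s1, 1 / hgt g ^ 2 ≤
        ∑ g ∈ s1, (1 / 4 + if ((g : RM) = RM.one ∨ (g : RM) = RM.neg) then (3 / 4 : ℝ) else 0) := by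
      apply sum_le_sum
      intro g _
      split_ifs with h
      · have : 1 ≤ hgt g := (one_le_den g).trans (den_le_hgt g)
        have h4 : 1 / hgt g ^ 2 ≤ 1 / 1 ^ 2 := by gcongr
        linarith
      · have := two_le_hgt h
        have h4 : 1 / hgt g ^ 2 ≤ 1 / 2 ^ 2 := by gcongr
        linarith
    have h4 : ∑ g ∈ s1, (1 / 4 + if ((g : RM) = RM.one ∨ (g : RM) = RM.neg) then (3 / 4 : ℝ) else 0) =
        s1.card / 4 + 3 / 4 *
          ((s1.filter (fun g : Rot q => g.1 = RM.one ∨ g.1 = RM.neg)).card : ℝ) := by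
      rw [sum_add_distrib, sum_const, ← sum_filter, sum_const, nsmul_eq_mul, nsmul_eq_mul]; ring
    have h5 : (s1.card : ℝ) ≤ U.card := by exact_mod_cast h1
    have h6 : ((s1.filter (fun g : Rot q => g.1 = RM.one ∨ g.1 = RM.neg)).card : ℝ) ≤ 2 := by
      exact_mod_cast h2
    calc ∑ g ∈ s1, 1 / hgt g ^ 2 ≤ _ := h3
      _ = _ := h4
      _ ≤ ((U.card : ℝ) + 6) / 4 := by linarith
  · let s2 := s.filter (fun g => ¬ (κ g).1 = 1)
    let M := s2.image (fun g => (κ g).1)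
    have hM : ∀ m ∈ M, 2 ≤ m ∧ ∃ x, IsSol t n m x := by
      intro m hm
      obtain ⟨g, hg, rfl⟩ := mem_image.1 hm
      rw [mem_filter] at hg
      have := (hκ g).1
      exact ⟨by omega, _, (hκ g).2.2⟩
    calc ∑ g ∈ s2, 1 / hgt g ^ 2 ≤ ∑ g ∈ s2, 1 / ((κ g).1 : ℝ) ^ 2 := by
          apply sum_le_sum
          intro g _
          have h1 : (0 : ℝ) < (κ g).1 := by exact_mod_cast (hκ g).1
          have h2 : ((κ g).1 : ℝ) ≤ den g := by exact_mod_cast (hκ g).2.1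
          have := h2.trans (den_le_hgt g)
          gcongr
      _ = ∑ m ∈ M, ∑ g ∈ s2 with (κ g).1 = m, 1 / ((κ g).1 : ℝ) ^ 2 :=
          (sum_fiberwise_of_maps_to (fun g hg => mem_image_of_mem _ hg) _).symm
      _ ≤ ∑ m ∈ M, U.card * ((m.divisors.card : ℝ) / (m : ℝ) ^ 2) := by
          apply sum_le_sum
          intro m hm
          have h1 : ∀ g ∈ s2.filter (fun g => (κ g).1 = m), 1 / ((κ g).1 : ℝ) ^ 2 = 1 / (m : ℝ) ^ 2 := by
            intro g hg
            rw [mem_filter] at hg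
            rw [hg.2]
          rw [sum_congr rfl h1, sum_const, nsmul_eq_mul]
          have h2 := hfib s2 m (by have := (hM m hm).1; omega)
          have h3 : ((s2.filter (fun g => (κ g).1 = m)).card : ℝ) ≤ U.card * m.divisors.card := by
            exact_mod_cast h2
          have h4 : (0 : ℝ) ≤ 1 / (m : ℝ) ^ 2 := by positivity
          calc _ ≤ (U.card * m.divisors.card : ℝ) * (1 / (m : ℝ) ^ 2) := by gcongr
            _ = _ := by ring
      _ = U.card * ∑ m ∈ M, ((m.divisors.card : ℝ) / (m : ℝ) ^ 2) := by rw [mul_sum]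
      _ ≤ U.card * σ := by
          have := hσ M hM
          gcongr

/-- primes without roots -/
theorem bad_of_zmod {p : ℕ} {t n : ℤ}
    (h : ∀ z : ZMod (p ^ 2), z ^ 2 + (t : ZMod (p ^ 2)) * z + (n : ZMod (p ^ 2)) ≠ 0) (z : ℤ) :
    ¬ ((p : ℤ) ^ 2 ∣ z ^ 2 + t * z + n) := by
  intro hz
  apply h z
  have h1 : (((p ^ 2 : ℕ) : ℤ)) ∣ z ^ 2 + t * z + n := by push_cast; exact hz
  rw [← ZMod.intCast_zmod_eq_zero_iff_dvd] at h1
  push_cast at h1
  exact h1

theorem not_dvd_of_sol {p m : ℕ} {t n : ℤ} (hm : 2 ≤ m)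
    (hp : ∀ z : ℤ, ¬ ((p : ℤ) ^ 2 ∣ z ^ 2 + t * z + n)) (hx : ∃ x, IsSol t n m x) : ¬ p ∣ m := by
  intro h
  obtain ⟨x, hx⟩ := hx
  exact not_isSol (by omega) h hp x hx

theorem coprime_of_bad {p m : ℕ} (hp : p.Prime) (h : ¬ p ∣ m) : Nat.Coprime m p :=
  ((Nat.Prime.coprime_iff_not_dvd hp).2 h).symm

theorem units_gen {t n : ℤ} (h : 4 < 4 * n - t ^ 2) (x : ℤ × ℤ)
    (hx : x.1 ^ 2 + t * x.1 * x.2 + n * x.2 ^ 2 = 1) : x ∈ ({(1, 0), (-1, 0)} : Finset (ℤ × ℤ)) := by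
  obtain ⟨x, y⟩ := x
  simp only at hx
  have h1 : (2 * x + t * y) ^ 2 + (4 * n - t ^ 2) * y ^ 2 = 4 := by linear_combination 4 * hx
  have hy : y = 0 := by
    by_contra hy
    have : 1 ≤ y ^ 2 := by have := sq_pos_of_ne_zero hy; omega
    nlinarith [sq_nonneg (2 * x + t * y)]
  subst hy
  have hx2 : x ^ 2 = 1 := by linarith
  have hx3 : (x - 1) * (x + 1) = 0 := by linear_combination hx2
  rcases mul_eq_zero.1 hx3 with h | h
  · have : x = 1 := by linarith
    simp [this]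
  · have : x = -1 := by linarith
    simp [this]

theorem units_i (x : ℤ × ℤ) (hx : x.1 ^ 2 + 0 * x.1 * x.2 + 1 * x.2 ^ 2 = 1) :
    x ∈ ({(1, 0), (-1, 0), (0, 1), (0, -1)} : Finset (ℤ × ℤ)) := by
  obtain ⟨x, y⟩ := x
  simp only at hx
  have hx1 : x ≤ 1 := by nlinarith [sq_nonneg y, sq_nonneg (x - 1)]
  have hx2 : -1 ≤ x := by nlinarith [sq_nonneg y, sq_nonneg (x + 1)]
  have hy1 : y ≤ 1 := by nlinarith [sq_nonneg x, sq_nonneg (y - 1)]
  have hy2 : -1 ≤ y := by nlinarith [sq_nonneg x, sq_nonneg (y + 1)]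
  interval_cases x <;> interval_cases y <;> simp_all

theorem units_w (x : ℤ × ℤ) (hx : x.1 ^ 2 + 1 * x.1 * x.2 + 1 * x.2 ^ 2 = 1) :
    x ∈ ({(1, 0), (-1, 0), (0, 1), (0, -1), (1, -1), (-1, 1)} : Finset (ℤ × ℤ)) := by
  obtain ⟨x, y⟩ := x
  simp only at hx
  have hx1 : x ≤ 1 := by nlinarith [sq_nonneg (2 * y + x), sq_nonneg (x - 1)]
  have hx2 : -1 ≤ x := by nlinarith [sq_nonneg (2 * y + x), sq_nonneg (x + 1)]
  have hy1 : y ≤ 1 := by nlinarith [sq_nonneg (2 * x + y), sq_nonneg (y - 1)]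
  have hy2 : -1 ≤ y := by nlinarith [sq_nonneg (2 * x + y), sq_nonneg (y + 1)]
  interval_cases x <;> interval_cases y <;> simp_all

end Pool.Agent.KS6_56.Tri
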