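import Mathlib

/-!
Primitive representations of squares by principal binary quadratic forms of fundamental discriminant.
-/

namespace Pool.Agent.KS6_56.Tri

open Finset

/-- `z² + t z + n` has no zero modulo `p²` for the primes dividing the discriminant -/
def Fund (t n : ℤ) : Prop := ∀ p : ℕ, p.Prime → (p : ℤ) ∣ 4 * n - t ^ 2 →
  ∀ z : ℤ, ¬ ((p : ℤ) ^ 2 ∣ z ^ 2 + t * z + n)

theorem root_split {t n z0 z : ℤ} {m : ℕ} (hm : 0 < m) (hF : Fund t n)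
    (h0 : (m : ℤ) ^ 2 ∣ z0 ^ 2 + t * z0 + n) (h : (m : ℤ) ^ 2 ∣ z ^ 2 + t * z + n) :
    ∃ b : ℤ, (m : ℤ) = (Int.gcd (z - z0) m : ℤ) * b ∧
      (Int.gcd (z - z0) m : ℤ) ^ 2 ∣ z - z0 ∧ b ^ 2 ∣ z + z0 + t ∧
      IsCoprime (Int.gcd (z - z0) m : ℤ) b := by
  set a : ℤ := (Int.gcd (z - z0) m : ℤ) with ha
  have hmz : (m : ℤ) ≠ 0 := by exact_mod_cast hm.ne'
  have haA : a ∣ z - z0 := Int.gcd_dvd_left _ _
  have ham : a ∣ (m : ℤ) := Int.gcd_dvd_right _ _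
  obtain ⟨b, hb⟩ := ham
  have hb0 : b ≠ 0 := by rintro rfl; simp at hb; omega
  have ha0 : a ≠ 0 := by intro h; rw [h] at hb; simp at hb; omega
  have hAB : (m : ℤ) ^ 2 ∣ (z - z0) * (z + z0 + t) := by
    have : (z - z0) * (z + z0 + t) = (z ^ 2 + t * z + n) - (z0 ^ 2 + t * z0 + n) := by ring
    rw [this]; exact dvd_sub h h0
  -- no common prime
  have hno : ∀ p : ℤ, Prime p → p ∣ z - z0 → p ∣ (m : ℤ) → ¬ p ∣ z + z0 + t := by
    intro p hp hpA hpm hpB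
    have hp' : p.natAbs.Prime := Int.prime_iff_natAbs_prime.1 hp
    have h1 : p ∣ 2 * z0 + t := by
      have : 2 * z0 + t = (z + z0 + t) - (z - z0) := by ring
      rw [this]; exact dvd_sub hpB hpA
    have h2 : p ^ 2 ∣ z0 ^ 2 + t * z0 + n := (pow_dvd_pow_of_dvd hpm 2).trans h0
    have h3 : p ∣ 4 * n - t ^ 2 := by
      have : 4 * n - t ^ 2 = 4 * (z0 ^ 2 + t * z0 + n) - (2 * z0 + t) * (2 * z0 + t) := by ring
      rw [this]
      exact dvd_sub (Dvd.dvd.mul_left ((dvd_pow_self p two_ne_zero).trans h2) _)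
        (Dvd.dvd.mul_left h1 _)
    apply hF p.natAbs hp' (Int.natAbs_dvd.2 h3) z0
    rw [Int.natCast_natAbs, sq_abs]
    exact h2
  have hcop_aB : IsCoprime a (z + z0 + t) := by
    apply isCoprime_of_prime_dvd
    · rintro ⟨h, _⟩; exact ha0 h
    · intro p hp hpa
      exact hno p hp (hpa.trans haA) (hpa.trans ⟨b, hb⟩)
  have hm2 : (m : ℤ) ^ 2 = a ^ 2 * b ^ 2 := by rw [hb]; ring
  have hcop_bA : IsCoprime b (z - z0) := by
    apply isCoprime_of_prime_dvd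
    · rintro ⟨h, _⟩; exact hb0 h
    · intro p hp hpb hpA
      have hpm : p ∣ (m : ℤ) := by rw [hb]; exact Dvd.dvd.mul_left hpb a
      have hpB : IsCoprime p (z + z0 + t) := by
        exact (hp.irreducible.coprime_iff_not_dvd).2 (hno p hp hpA hpm)
      have hap : IsCoprime (a * p) (z + z0 + t) := hcop_aB.mul_left hpB
      have h1 : a * p ∣ (m : ℤ) := by rw [hb]; exact mul_dvd_mul_left a hpb
      have h2 : a * p ∣ (z - z0) * (z + z0 + t) :=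
        (h1.trans (dvd_pow_self _ two_ne_zero)).trans hAB
      have h3 : a * p ∣ z - z0 := hap.dvd_of_dvd_mul_right h2
      have h4 : a * p ∣ a := Int.dvd_coe_gcd h3 h1
      have h5 : p ∣ 1 := by
        obtain ⟨k, hk⟩ := h4
        refine ⟨k, ?_⟩
        have : a * 1 = a * (p * k) := by rw [mul_one, ← mul_assoc]; exact hk
        exact mul_left_cancel₀ ha0 this
      exact hp.not_isUnit (isUnit_of_dvd_one h5)
  refine ⟨b, hb, ?_, ?_, ?_⟩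
  · have h1 : a ^ 2 ∣ (z - z0) * (z + z0 + t) := (Dvd.intro _ hm2.symm).trans hAB
    exact (hcop_aB.pow_left).dvd_of_dvd_mul_right h1
  · have h1 : b ^ 2 ∣ (z - z0) * (z + z0 + t) := (Dvd.intro_left _ hm2.symm).trans hAB
    exact (hcop_bA.pow_left).dvd_of_dvd_mul_left h1
  · exact (hcop_bA.of_isCoprime_of_dvd_right haA).symm

theorem root_unique {t n z0 z z' : ℤ} {m : ℕ} (hm : 0 < m) (hF : Fund t n)
    (h0 : (m : ℤ) ^ 2 ∣ z0 ^ 2 + t * z0 + n) (h : (m : ℤ) ^ 2 ∣ z ^ 2 + t * z + n)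
    (h' : (m : ℤ) ^ 2 ∣ z' ^ 2 + t * z' + n)
    (hg : Int.gcd (z - z0) m = Int.gcd (z' - z0) m) : (m : ℤ) ^ 2 ∣ z - z' := by
  obtain ⟨b, hb, h1, h2, h3⟩ := root_split hm hF h0 h
  obtain ⟨b', hb', h1', h2', _⟩ := root_split hm hF h0 h'
  rw [← hg] at hb' h1'
  have ha0 : (Int.gcd (z - z0) m : ℤ) ≠ 0 := by
    intro h
    rw [h] at hb
    simp at hb
    omega
  have hbb : b = b' := by
    have : (Int.gcd (z - z0) m : ℤ) * b = (Int.gcd (z - z0) m : ℤ) * b' := by rw [← hb, ← hb']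
    exact mul_left_cancel₀ ha0 this
  subst hbb
  have e1 : (Int.gcd (z - z0) m : ℤ) ^ 2 ∣ z - z' := by
    have : z - z' = (z - z0) - (z' - z0) := by ring
    rw [this]; exact dvd_sub h1 h1'
  have e2 : b ^ 2 ∣ z - z' := by
    have : z - z' = (z + z0 + t) - (z' + z0 + t) := by ring
    rw [this]; exact dvd_sub h2 h2'
  have : (m : ℤ) ^ 2 = (Int.gcd (z - z0) m : ℤ) ^ 2 * b ^ 2 := by
    conv_lhs => rw [hb]
    ring
  rw [this]
  exact (h3.pow).mul_dvd e1 e2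

/-- primitive representations of `m²` -/
def IsSol (t n : ℤ) (m : ℕ) (x : ℤ × ℤ) : Prop :=
  x.1 ^ 2 + t * x.1 * x.2 + n * x.2 ^ 2 = (m : ℤ) ^ 2 ∧ IsCoprime x.1 x.2

theorem IsSol.exists_root {t n : ℤ} {m : ℕ} {x : ℤ × ℤ} (hm : 0 < m) (h : IsSol t n m x) :
    ∃ z : ℤ, (m : ℤ) ^ 2 ∣ x.1 - z * x.2 ∧ (m : ℤ) ^ 2 ∣ z ^ 2 + t * z + n := by
  obtain ⟨h1, h2⟩ := h
  have hmz : (m : ℤ) ≠ 0 := by exact_mod_cast hm.ne'
  have hcop : IsCoprime x.2 ((m : ℤ) ^ 2) := by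
    have h3 : IsCoprime x.2 (x.1 ^ 2) := h2.symm.pow_right
    have h4 : (m : ℤ) ^ 2 = x.1 ^ 2 + x.2 * (t * x.1 + n * x.2) := by rw [← h1]; ring
    rw [h4]
    exact h3.add_mul_left_right _
  obtain ⟨a, b, hab⟩ := hcop
  -- `a * x.2 = 1 - b m²`
  have hz : (m : ℤ) ^ 2 ∣ x.1 - (x.1 * a) * x.2 := ⟨x.1 * b, by linear_combination -x.1 * hab⟩
  refine ⟨x.1 * a, hz, ?_⟩
  have hc2 : IsCoprime ((m : ℤ) ^ 2) (x.2 ^ 2) := by
    have : IsCoprime x.2 ((m : ℤ) ^ 2) := ⟨a, b, hab⟩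
    exact this.symm.pow_right
  apply hc2.dvd_of_dvd_mul_left
  obtain ⟨k, hk⟩ := hz
  have e : x.1 * a * x.2 = x.1 - (m : ℤ) ^ 2 * k := by linarith
  refine ⟨1 - k * (2 * x.1 + t * x.2) + (m : ℤ) ^ 2 * k ^ 2, ?_⟩
  have e2 : x.2 ^ 2 * ((x.1 * a) ^ 2 + t * (x.1 * a) + n) =
      (x.1 * a * x.2) ^ 2 + t * (x.1 * a * x.2) * x.2 + n * x.2 ^ 2 := by ring
  rw [e2, e]
  linear_combination h1

theorem card_sol_le {t n : ℤ} {m : ℕ} (hm : 0 < m) (hF : Fund t n) (U : Finset (ℤ × ℤ))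
    (hU : ∀ x : ℤ × ℤ, x.1 ^ 2 + t * x.1 * x.2 + n * x.2 ^ 2 = 1 → x ∈ U) (S : Finset (ℤ × ℤ))
    (hS : ∀ x ∈ S, IsSol t n m x) : S.card ≤ U.card * m.divisors.card := by
  classical
  rcases S.eq_empty_or_nonempty with h | ⟨s0, hs0⟩
  · rw [h]; simp
  have hmz : (m : ℤ) ≠ 0 := by exact_mod_cast hm.ne'
  have hr : ∀ x : ℤ × ℤ, ∃ z : ℤ, x ∈ S → (m : ℤ) ^ 2 ∣ x.1 - z * x.2 ∧
      (m : ℤ) ^ 2 ∣ z ^ 2 + t * z + n := by
    intro x
    by_cases hx : x ∈ S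
    · obtain ⟨z, hz⟩ := (hS x hx).exists_root hm
      exact ⟨z, fun _ => hz⟩
    · exact ⟨0, fun h => absurd h hx⟩
  choose ζ hζ using hr
  have h0 := (hζ s0 hs0).2
  apply card_le_mul_card_image_of_maps_to (f := fun x => Int.gcd (ζ x - ζ s0) m)
  · intro x hx
    rw [Nat.mem_divisors]
    refine ⟨?_, hm.ne'⟩
    have := Int.gcd_dvd_right (ζ x - ζ s0) (m : ℤ)
    exact_mod_cast this
  · intro b _
    rcases (S.filter (fun x => Int.gcd (ζ x - ζ s0) m = b)).eq_empty_or_nonempty with h | ⟨s1, hs1⟩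
    · rw [h]; simp
    rw [mem_filter] at hs1
    have hroot : ∀ x ∈ S.filter (fun x => Int.gcd (ζ x - ζ s0) m = b),
        (m : ℤ) ^ 2 ∣ x.1 - ζ s1 * x.2 := by
      intro x hx
      rw [mem_filter] at hx
      have h1 := root_unique hm hF h0 (hζ x hx.1).2 (hζ s1 hs1.1).2 (by rw [hx.2, hs1.2])
      have h2 := (hζ x hx.1).1
      have : x.1 - ζ s1 * x.2 = (x.1 - ζ x * x.2) + (ζ x - ζ s1) * x.2 := by ring
      rw [this]
      exact dvd_add h2 (Dvd.dvd.mul_right h1 _)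
    obtain ⟨c1, hc1⟩ := (hζ s1 hs1.1).1
    obtain ⟨c2, hc2⟩ := (hζ s1 hs1.1).2
    have hN1 := (hS s1 hs1.1).1
    have hm2 : (m : ℤ) ^ 2 ≠ 0 := pow_ne_zero 2 hmz
    let X : ℤ × ℤ → ℤ := fun x => x.1 * s1.1 + t * x.1 * s1.2 + n * x.2 * s1.2
    let Y : ℤ × ℤ → ℤ := fun x => x.2 * s1.1 - x.1 * s1.2
    have hXY : ∀ x ∈ S.filter (fun x => Int.gcd (ζ x - ζ s0) m = b),
        (m : ℤ) ^ 2 ∣ X x ∧ (m : ℤ) ^ 2 ∣ Y x := by
      intro x hx
      obtain ⟨k, hk⟩ := hroot x hx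
      have e1 : x.1 = ζ s1 * x.2 + (m : ℤ) ^ 2 * k := by linarith
      have e2 : s1.1 = ζ s1 * s1.2 + (m : ℤ) ^ 2 * c1 := by linarith
      constructor
      · refine ⟨c2 * x.2 * s1.2 + k * (s1.1 + t * s1.2) + ζ s1 * x.2 * c1, ?_⟩
        simp only [X]
        rw [e1]
        linear_combination (ζ s1 * x.2) * e2 + (x.2 * s1.2) * hc2
      · refine ⟨x.2 * c1 - k * s1.2, ?_⟩
        simp only [Y]
        rw [e1]
        linear_combination x.2 * e2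
    apply card_le_card_of_injOn (fun x => (X x / (m : ℤ) ^ 2, Y x / (m : ℤ) ^ 2))
    · intro x hx
      rw [mem_coe] at hx
      obtain ⟨⟨k1, hk1⟩, ⟨k2, hk2⟩⟩ := hXY x hx
      rw [mem_coe]
      apply hU
      simp only
      rw [hk1, hk2, Int.mul_ediv_cancel_left _ hm2, Int.mul_ediv_cancel_left _ hm2]
      have hNx := (hS x (mem_filter.1 hx).1).1
      have e : X x ^ 2 + t * X x * Y x + n * Y x ^ 2 =
          (x.1 ^ 2 + t * x.1 * x.2 + n * x.2 ^ 2) * (s1.1 ^ 2 + t * s1.1 * s1.2 + n * s1.2 ^ 2) := by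
        simp only [X, Y]; ring
      rw [hNx, hN1, hk1, hk2] at e
      have : ((m : ℤ) ^ 2) ^ 2 * (k1 ^ 2 + t * k1 * k2 + n * k2 ^ 2) = ((m : ℤ) ^ 2) ^ 2 * 1 := by
        linear_combination e
      exact mul_left_cancel₀ (pow_ne_zero 2 hm2) this
    · intro x hx x' hx' he
      rw [mem_coe] at hx hx'
      obtain ⟨⟨k1, hk1⟩, ⟨k2, hk2⟩⟩ := hXY x hx
      obtain ⟨⟨k1', hk1'⟩, ⟨k2', hk2'⟩⟩ := hXY x' hx'
      simp only [Prod.mk.injEq] at he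
      rw [hk1, hk2, hk1', hk2', Int.mul_ediv_cancel_left _ hm2, Int.mul_ediv_cancel_left _ hm2,
        Int.mul_ediv_cancel_left _ hm2, Int.mul_ediv_cancel_left _ hm2] at he
      have eX : X x = X x' := by rw [hk1, hk1', he.1]
      have eY : Y x = Y x' := by rw [hk2, hk2', he.2]
      simp only [X, Y] at eX eY
      have d1 : (m : ℤ) ^ 2 * (x.1 - x'.1) = 0 := by
        rw [← hN1]; linear_combination s1.1 * eX - n * s1.2 * eY
      have d2 : (m : ℤ) ^ 2 * (x.2 - x'.2) = 0 := by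
        rw [← hN1]; linear_combination s1.2 * eX + (s1.1 + t * s1.2) * eY
      have f1 := (mul_eq_zero.1 d1).resolve_left hm2
      have f2 := (mul_eq_zero.1 d2).resolve_left hm2
      exact Prod.ext (by linarith) (by linarith)

/-- no representations if a prime without roots divides `m` -/
theorem not_isSol {t n : ℤ} {m p : ℕ} (hm : 0 < m) (hpm : p ∣ m)
    (hp : ∀ z : ℤ, ¬ ((p : ℤ) ^ 2 ∣ z ^ 2 + t * z + n)) (x : ℤ × ℤ) : ¬ IsSol t n m x := by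
  intro h
  obtain ⟨z, _, hz⟩ := h.exists_root hm
  apply hp z
  have : (p : ℤ) ^ 2 ∣ (m : ℤ) ^ 2 := pow_dvd_pow_of_dvd (by exact_mod_cast hpm) 2
  exact this.trans hz

end Pool.Agent.KS6_56.Tri
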