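import Pool.Agent.KS6_56.Tri.Hex

/-!
The number of multisets of squared side lengths of the triangles in a box of a lattice.
-/

namespace Pool.Agent.KS6_56.Tri

open Finset Filter Topology

/-- squared side lengths -/
def sides (q : Form) (t : TT) : Multiset ℝ := {q.val t.1, q.val t.2, q.val (t.1 - t.2)}

/-- number of multisets of squared side lengths -/
noncomputable def numS (q : Form) (N : ℕ) : ℕ := by
  classical exact ((X0 N).image (sides q)).card

theorem triple_eq {a b c a' b' c' : ℝ} (h : ({a, b, c} : Multiset ℝ) = {a', b', c'}) :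
    (a = a' ∧ b = b' ∧ c = c') ∨ (a = b' ∧ b = a' ∧ c = c') ∨ (a = a' ∧ b = c' ∧ c = b') ∨
    (a = c' ∧ b = a' ∧ c = b') ∨ (a = b' ∧ b = c' ∧ c = a') ∨ (a = c' ∧ b = b' ∧ c = a') := by
  have h1 : ∀ x y z : ℝ, ({x, y, z} : Multiset ℝ) = x ::ₘ y ::ₘ z ::ₘ 0 := fun _ _ _ => rfl
  rw [h1, h1] at h
  have ha : a ∈ a' ::ₘ b' ::ₘ c' ::ₘ (0 : Multiset ℝ) := by rw [← h]; simp
  simp only [Multiset.mem_cons, Multiset.notMem_zero, or_false] at ha
  have pair : ∀ x y x' y' : ℝ, x ::ₘ y ::ₘ (0 : Multiset ℝ) = x' ::ₘ y' ::ₘ 0 →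
      (x = x' ∧ y = y') ∨ (x = y' ∧ y = x') := by
    intro x y x' y' h
    have hx : x ∈ x' ::ₘ y' ::ₘ (0 : Multiset ℝ) := by rw [← h]; simp
    simp only [Multiset.mem_cons, Multiset.notMem_zero, or_false] at hx
    rcases hx with rfl | rfl
    · rw [Multiset.cons_inj_right] at h
      left
      exact ⟨rfl, by simpa using h⟩
    · rw [Multiset.cons_swap x' x, Multiset.cons_inj_right] at h
      right
      exact ⟨rfl, by simpa using h⟩
  rcases ha with rfl | rfl | rfl
  · rw [Multiset.cons_inj_right] at h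
    rcases pair _ _ _ _ h with ⟨h1, h2⟩ | ⟨h1, h2⟩
    · left; exact ⟨rfl, h1, h2⟩
    · right; right; left; exact ⟨rfl, h1, h2⟩
  · rw [Multiset.cons_swap a' a, Multiset.cons_inj_right] at h
    rcases pair _ _ _ _ h with ⟨h1, h2⟩ | ⟨h1, h2⟩
    · right; left; exact ⟨rfl, h1, h2⟩
    · right; right; right; right; left; exact ⟨rfl, h1, h2⟩
  · rw [Multiset.cons_swap b' a, Multiset.cons_swap a' a, Multiset.cons_inj_right] at h
    rcases pair _ _ _ _ h with ⟨h1, h2⟩ | ⟨h1, h2⟩
    · right; right; right; left; exact ⟨rfl, h1, h2⟩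
    · right; right; right; right; right; exact ⟨rfl, h1, h2⟩

theorem val_neg (q : Form) (w : ℤ × ℤ) : q.val (-w) = q.val w := by
  simp only [Form.val, Prod.fst_neg, Prod.snd_neg]; push_cast; ring

theorem val_sub (q : Form) (u v : ℤ × ℤ) : q.val (u - v) = q.val u + q.val v - q.bil u v := by
  simp only [Form.val, Form.bil, Prod.fst_sub, Prod.snd_sub]; push_cast; ring

theorem val_sub_comm (q : Form) (u v : ℤ × ℤ) : q.val (u - v) = q.val (v - u) := by
  rw [← val_neg, neg_sub]

theorem det_sq (q : Form) (t : TT) : (4 * q.A * q.C - q.B ^ 2) * (det t : ℝ) ^ 2 =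
    4 * q.val t.1 * q.val t.2 - q.bil t.1 t.2 ^ 2 := by
  simp only [Form.val, Form.bil, det]; push_cast; ring

/-- twelve Gram data for one multiset of side lengths -/
theorem nGram_le {q : Form} (hq : q.Pos) (N : ℕ) : nGram q N ≤ 12 * numS q N := by
  classical
  -- `sides` as a function of the Gram data
  let s : ℝ × ℝ × ℝ × ℤ → Multiset ℝ := fun y => {y.1, y.2.1, y.1 + y.2.1 - y.2.2.1}
  have hs : ∀ t, s (gram q t) = sides q t := by
    intro t
    simp only [s, gram, sides, val_sub]
  have h1 : numS q N = (((X0 N).image (gram q)).image s).card := by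
    rw [numS, image_image]
    congr 1
    apply image_congr
    intro t _
    exact (hs t).symm
  rw [nGram, h1]
  apply card_le_mul_card_image
  intro b hb
  obtain ⟨y, hy, rfl⟩ := mem_image.1 hb
  obtain ⟨t, ht, rfl⟩ := mem_image.1 hy
  set α := q.val t.1 with hα
  set β := q.val t.2 with hβ
  set δ := q.val (t.1 - t.2) with hδ
  let f : ℝ × ℝ × ℝ × ℤ → ℝ × ℝ × ℝ × ℤ := fun x => x
  let L : Finset (ℝ × ℝ × ℝ) := {(α, β, δ), (β, α, δ), (α, δ, β), (δ, α, β), (β, δ, α), (δ, β, α)}
  let D : Finset ℤ := {det t, -det t}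
  have hL : L.card ≤ 6 := card_le_six
  have hD : D.card ≤ 2 := card_le_two
  let T : Finset (ℝ × ℝ × ℝ × ℤ) :=
    (L ×ˢ D).image (fun x => (x.1.1, x.1.2.1, x.1.1 + x.1.2.1 - x.1.2.2, x.2))
  have hT : T.card ≤ 12 := by
    refine card_image_le.trans ?_
    rw [card_product]
    calc L.card * D.card ≤ 6 * 2 := by gcongr
      _ = 12 := by norm_num
  refine le_trans (card_le_card ?_) hT
  intro y' hy'
  rw [mem_filter] at hy'
  obtain ⟨hy1, hy2⟩ := hy'
  obtain ⟨t', ht', rfl⟩ := mem_image.1 hy1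
  rw [hs, hs] at hy2
  simp only [sides] at hy2
  have h6 := triple_eq hy2
  -- the determinant
  have hdet : det t' = det t ∨ det t' = -det t := by
    have e1 := det_sq q t
    have e2 := det_sq q t'
    have e3 := val_sub q t.1 t.2
    have e4 := val_sub q t'.1 t'.2
    have hpos : 4 * q.A * q.C - q.B ^ 2 ≠ 0 := by have := hq.2; linarith
    have e5 : (4 * q.A * q.C - q.B ^ 2) * (det t' : ℝ) ^ 2 =
        (4 * q.A * q.C - q.B ^ 2) * (det t : ℝ) ^ 2 := by
      rw [e1, e2]
      have b1 : q.bil t.1 t.2 = q.val t.1 + q.val t.2 - q.val (t.1 - t.2) := by linarith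
      have b2 : q.bil t'.1 t'.2 = q.val t'.1 + q.val t'.2 - q.val (t'.1 - t'.2) := by linarith
      rw [b1, b2]
      rcases h6 with h | h | h | h | h | h <;> obtain ⟨h1, h2, h3⟩ := h <;> rw [h1, h2, h3] <;> ring
    have e6 := mul_left_cancel₀ hpos e5
    have e7 : (det t') ^ 2 = (det t) ^ 2 := by exact_mod_cast e6
    exact sq_eq_sq_iff_eq_or_eq_neg.1 e7
  rw [mem_image]
  refine ⟨((q.val t'.1, q.val t'.2, q.val (t'.1 - t'.2)), det t'), ?_, ?_⟩
  · rw [mem_product]
    constructor
    · simp only [L, mem_insert, mem_singleton, Prod.mk.injEq]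
      rcases h6 with h | h | h | h | h | h
      · left; exact h
      · right; left; exact h
      · right; right; left; exact h
      · right; right; right; left; exact h
      · right; right; right; right; left; exact h
      · right; right; right; right; right; exact h
    · simp only [D, mem_insert, mem_singleton]; exact hdet
  · simp only [gram, Prod.mk.injEq, true_and, and_true]
    rw [val_sub]; ring

/-- changing the sign of `B` -/
theorem nGram_flip (q : Form) (N : ℕ) : nGram ⟨q.A, -q.B, q.C⟩ N = nGram q N := by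
  classical
  let fl : TT → TT := fun t => ((t.1.1, -t.1.2), (t.2.1, -t.2.2))
  have hfl : ∀ t, fl (fl t) = t := by intro t; simp [fl]
  have hmem : ∀ t ∈ X0 N, fl t ∈ X0 N := by
    intro t ht
    rw [mem_X0, mem_XF'] at ht ⊢
    simp only [fl, det, abs_lt] at ht ⊢
    refine ⟨?_, ?_⟩
    · have := ht.1; omega
    · intro h
      apply ht.2
      linarith
  have hX : (X0 N).image fl = X0 N := by
    ext t
    rw [mem_image]
    constructor
    · rintro ⟨t', ht', rfl⟩; exact hmem t' ht'
    · intro ht; exact ⟨fl t, hmem t ht, hfl t⟩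
  let ψ : ℝ × ℝ × ℝ × ℤ → ℝ × ℝ × ℝ × ℤ := fun y => (y.1, y.2.1, y.2.2.1, -y.2.2.2)
  have hψ : Function.Injective ψ := by
    rintro ⟨a, b, c, d⟩ ⟨a', b', c', d'⟩ h
    simpa [ψ] using h
  have h1 : ∀ t, gram ⟨q.A, -q.B, q.C⟩ t = ψ (gram q (fl t)) := by
    intro t
    simp only [gram, ψ, fl, Form.val, Form.bil, det, Prod.mk.injEq]
    push_cast
    refine ⟨by ring, by ring, by ring, by ring⟩
  rw [nGram, nGram]
  have h2 : (X0 N).image (gram ⟨q.A, -q.B, q.C⟩) = (((X0 N).image fl).image (gram q)).image ψ := by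
    rw [image_image, image_image]
    apply image_congr
    intro t _
    exact h1 t
  rw [h2, card_image_of_injective _ hψ, hX]

theorem nGram_all {q : Form} (hq : q.Pos) (hns : ¬ (q.A = q.C ∧ q.B = 0)) : ∀ ε > 0,
    ∀ᶠ N : ℕ in atTop, (9 / 4 - ε) * (N : ℝ) ^ 4 ≤ nGram q N := by
  intro ε hε
  by_cases hg : q.Gen
  · exact nGram_lower hq hg ε hε
  · rw [Form.Gen, not_not] at hg
    obtain ⟨hAC, h⟩ := hg
    rcases h with h | h | h
    · exact absurd ⟨hAC, h⟩ hns
    · have : q.Hex := ⟨hq.1, h, hAC.symm⟩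
      filter_upwards [nGram_hex this] with N hN
      have : (0 : ℝ) ≤ ε * (N : ℝ) ^ 4 := by positivity
      linarith
    · have : Form.Hex ⟨q.A, -q.B, q.C⟩ := ⟨hq.1, by simp only; linarith, hAC.symm⟩
      filter_upwards [nGram_hex this] with N hN
      rw [nGram_flip] at hN
      have : (0 : ℝ) ≤ ε * (N : ℝ) ^ 4 := by positivity
      linarith

/-- the lower bound for all forms which are not multiples of `x² + y²` -/
theorem numS_lower {q : Form} (hq : q.Pos) (hns : ¬ (q.A = q.C ∧ q.B = 0)) : ∀ ε > 0,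
    ∀ᶠ N : ℕ in atTop, (3 / 16 - ε) * (N : ℝ) ^ 4 ≤ numS q N := by
  intro ε hε
  filter_upwards [nGram_all hq hns (12 * ε) (by linarith)] with N hN
  have h1 : (nGram q N : ℝ) ≤ 12 * numS q N := by exact_mod_cast nGram_le hq N
  linarith

/-- multiples of a form -/
theorem numS_smul (q : Form) {c : ℝ} (hc : c ≠ 0) (N : ℕ) :
    numS ⟨c * q.A, c * q.B, c * q.C⟩ N = numS q N := by
  classical
  have h1 : ∀ w, Form.val ⟨c * q.A, c * q.B, c * q.C⟩ w = c * q.val w := by
    intro w; simp only [Form.val]; ring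
  have h2 : ∀ t, sides ⟨c * q.A, c * q.B, c * q.C⟩ t = (sides q t).map (fun x => c * x) := by
    intro t
    simp [sides, h1]
  rw [numS, numS]
  have h3 : (X0 N).image (sides ⟨c * q.A, c * q.B, c * q.C⟩) =
      ((X0 N).image (sides q)).image (Multiset.map (fun x => c * x)) := by
    rw [image_image]
    apply image_congr
    intro t _
    exact h2 t
  rw [h3, card_image_of_injective]
  exact Multiset.map_injective (mul_right_injective₀ hc)

end Pool.Agent.KS6_56.Tri
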