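import Mathlib

/-!
Distinct triangles spanned by a set of points of the Euclidean plane, and planar lattice sections.
-/

namespace Pool.Agent.KS6_56.Tri

/-- the Euclidean plane -/
abbrev Plane := EuclideanSpace ℝ (Fin 2)

/-- the vertex sets of the triangles spanned by `P`: the three-element subsets of `P` which are not
collinear -/
def triangles (P : Set Plane) : Set (Set Plane) :=
  {S | S ⊆ P ∧ S.ncard = 3 ∧ ¬ Collinear ℝ S}

/-- two sets are congruent if an isometry of the plane maps the first onto the second -/
def CongrSets (S S' : Set Plane) : Prop := ∃ φ : Plane ≃ᵢ Plane, φ '' S = S'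

/-- the congruence class of a set -/
def congrClass (S : Set Plane) : Set (Set Plane) := {S' | CongrSets S S'}

/-- the number of distinct triangles spanned by `P`: the number of congruence classes of the
triangles spanned by `P` -/
noncomputable def numTriangles (P : Set Plane) : ℕ := (congrClass '' triangles P).ncard

/-- the lattice section `{u a + v b | u, v ∈ ℤ, 0 ≤ u, v < √n}` -/
def latticeSection (a b : Plane) (n : ℕ) : Set Plane :=
  {x | ∃ u v : ℤ, 0 ≤ u ∧ (u : ℝ) < √(n : ℝ) ∧ 0 ≤ v ∧ (v : ℝ) < √(n : ℝ) ∧
    x = (u : ℝ) • a + (v : ℝ) • b}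

/-- the standard basis vector `(1, 0)` -/
noncomputable def e₁ : Plane := !₂[(1 : ℝ), 0]

/-- the standard basis vector `(0, 1)` -/
noncomputable def e₂ : Plane := !₂[(0 : ℝ), 1]

end Pool.Agent.KS6_56.Tri
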