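import Pool.Agent.KS6_56.Tri.Basic

/-!
Gram data of pairs of integer vectors and the rational rotations of a binary quadratic form.
-/

namespace Pool.Agent.KS6_56.Tri

open Finset

/-- a real binary quadratic form `A x² + B x y + C y²` -/
structure Form where
  A : ℝ
  B : ℝ
  C : ℝ

/-- value of the form -/
def Form.val (q : Form) (w : ℤ × ℤ) : ℝ := q.A * w.1 ^ 2 + q.B * w.1 * w.2 + q.C * w.2 ^ 2

/-- twice the bilinear form -/
def Form.bil (q : Form) (u v : ℤ × ℤ) : ℝ :=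
  2 * q.A * u.1 * v.1 + q.B * (u.1 * v.2 + u.2 * v.1) + 2 * q.C * u.2 * v.2

/-- positive definite -/
def Form.Pos (q : Form) : Prop := 0 < q.A ∧ q.B ^ 2 < 4 * q.A * q.C

/-- Gram data of a pair of vectors -/
def gram (q : Form) (t : TT) : ℝ × ℝ × ℝ × ℤ := (q.val t.1, q.val t.2, q.bil t.1 t.2, det t)

/-- number of the different Gram data -/
noncomputable def nGram (q : Form) (N : ℕ) : ℕ := by
  classical exact ((X0 N).image (gram q)).card

/-- number of pairs with the same Gram data -/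
noncomputable def rep (q : Form) (N : ℕ) (t : TT) : ℕ := by
  classical exact ((X0 N).filter (fun t' => gram q t' = gram q t)).card

theorem rep_pos {q : Form} {N : ℕ} {t : TT} (ht : t ∈ X0 N) : 1 ≤ rep q N t := by
  classical
  rw [rep]
  exact card_pos.2 ⟨t, mem_filter.2 ⟨ht, rfl⟩⟩

theorem nGram_eq (q : Form) (N : ℕ) : (nGram q N : ℝ) = ∑ t ∈ X0 N, 1 / (rep q N t : ℝ) := by
  classical
  rw [nGram, card_eq_sum_ones]
  push_cast
  rw [← sum_fiberwise_of_maps_to (s := X0 N) (t := (X0 N).image (gram q)) (g := gram q)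
    (fun x hx => mem_image_of_mem _ hx)]
  apply sum_congr rfl
  intro y hy
  obtain ⟨t0, ht0, rfl⟩ := mem_image.1 hy
  have h1 : ∀ t ∈ (X0 N).filter (fun t => gram q t = gram q t0), 1 / (rep q N t : ℝ) =
      1 / (rep q N t0 : ℝ) := by
    intro t ht
    rw [mem_filter] at ht
    rw [rep, rep, ht.2]
  rw [sum_congr rfl h1, sum_const, nsmul_eq_mul]
  have h2 : (0 : ℝ) < rep q N t0 := by exact_mod_cast rep_pos ht0
  have h3 : (((X0 N).filter (fun t => gram q t = gram q t0)).card : ℝ) = rep q N t0 := by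
    rw [rep]
  rw [h3]
  field_simp

theorem nGram_ge (q : Form) (N : ℕ) :
    ((X0 N).card : ℝ) / 2 - (∑ t ∈ X0 N, (rep q N t : ℝ)) / 16 ≤ nGram q N := by
  rw [nGram_eq, card_eq_sum_ones]
  push_cast
  rw [sum_div, sum_div, ← sum_sub_distrib]
  apply sum_le_sum
  intro t ht
  have h : (1 : ℝ) ≤ rep q N t := by exact_mod_cast rep_pos ht
  rw [le_div_iff₀ (by linarith)]
  nlinarith [sq_nonneg ((rep q N t : ℝ) - 4)]

/-- a rational `2 × 2` matrix -/
@[ext] structure RM where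
  a : ℚ
  b : ℚ
  c : ℚ
  d : ℚ

/-- `g t = t'` -/
def RM.Maps (g : RM) (t t' : TT) : Prop :=
  g.a * t.1.1 + g.b * t.1.2 = t'.1.1 ∧ g.c * t.1.1 + g.d * t.1.2 = t'.1.2 ∧
  g.a * t.2.1 + g.b * t.2.2 = t'.2.1 ∧ g.c * t.2.1 + g.d * t.2.2 = t'.2.2

/-- rational rotations of the form -/
def Rot (q : Form) : Set RM := {g | g.a * g.d - g.b * g.c = 1 ∧
  q.A * g.a ^ 2 + q.B * g.a * g.c + q.C * g.c ^ 2 = q.A ∧
  2 * q.A * g.a * g.b + q.B * (g.a * g.d + g.b * g.c) + 2 * q.C * g.c * g.d = q.B ∧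
  q.A * g.b ^ 2 + q.B * g.b * g.d + q.C * g.d ^ 2 = q.C}

/-- the matrix which maps `t` to `t'` -/
def quot (t t' : TT) : RM :=
  { a := (t'.1.1 * t.2.2 - t'.2.1 * t.1.2) / det t
    b := (t'.2.1 * t.1.1 - t'.1.1 * t.2.1) / det t
    c := (t'.1.2 * t.2.2 - t'.2.2 * t.1.2) / det t
    d := (t'.2.2 * t.1.1 - t'.1.2 * t.2.1) / det t }

theorem quot_maps {t t' : TT} (h : det t ≠ 0) : (quot t t').Maps t t' := by
  have h' : (det t : ℚ) ≠ 0 := by exact_mod_cast h
  have hd : (det t : ℚ) = t.1.1 * t.2.2 - t.1.2 * t.2.1 := by simp [det]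
  refine ⟨?_, ?_, ?_, ?_⟩ <;> simp only [quot] <;> field_simp <;> rw [hd] <;> ring

theorem maps_unique {g : RM} {t t' t'' : TT} (h1 : g.Maps t t') (h2 : g.Maps t t'') : t' = t'' := by
  obtain ⟨a1, a2, a3, a4⟩ := h1
  obtain ⟨b1, b2, b3, b4⟩ := h2
  rw [a1] at b1; rw [a2] at b2; rw [a3] at b3; rw [a4] at b4
  ext
  · exact_mod_cast b1
  · exact_mod_cast b2
  · exact_mod_cast b3
  · exact_mod_cast b4

theorem maps_unique_left {g : RM} {t t' : TT} (h0 : det t ≠ 0) (h : g.Maps t t') : g = quot t t' := by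
  have h' : (det t : ℚ) ≠ 0 := by exact_mod_cast h0
  have hd : (det t : ℚ) = t.1.1 * t.2.2 - t.1.2 * t.2.1 := by simp [det]
  obtain ⟨a1, a2, a3, a4⟩ := h
  ext <;> simp only [quot] <;> rw [eq_div_iff h', hd] <;> simp only [← a1, ← a2, ← a3, ← a4] <;> ring

theorem quot_mem_rot {q : Form} {t t' : TT} (h0 : det t ≠ 0) (h : gram q t' = gram q t) :
    quot t t' ∈ Rot q := by
  have hD : (det t : ℝ) ≠ 0 := by exact_mod_cast h0
  have hDq : (det t : ℚ) ≠ 0 := by exact_mod_cast h0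
  have hd : (det t : ℝ) = t.1.1 * t.2.2 - t.1.2 * t.2.1 := by simp [det]
  have hdq : (det t : ℚ) = t.1.1 * t.2.2 - t.1.2 * t.2.1 := by simp [det]
  simp only [gram, Prod.mk.injEq, Form.val, Form.bil] at h
  obtain ⟨h1, h2, h3, h4⟩ := h
  have hdq' : (det t : ℚ) = t'.1.1 * t'.2.2 - t'.1.2 * t'.2.1 := by rw [← h4]; simp [det]
  refine ⟨?_, ?_, ?_, ?_⟩
  · simp only [quot]
    field_simp
    rw [hdq] at hdq' ⊢
    linear_combination (-(t.1.1 * t.2.2 - t.1.2 * t.2.1 : ℚ)) * hdq'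
  · simp only [quot]; push_cast
    field_simp
    rw [hd]
    linear_combination (t.2.2 : ℝ) ^ 2 * h1 - (t.1.2 : ℝ) * t.2.2 * h3 + (t.1.2 : ℝ) ^ 2 * h2
  · simp only [quot]; push_cast
    field_simp
    rw [hd]
    linear_combination (-2 * (t.2.1 : ℝ) * t.2.2) * h1 + ((t.1.1 : ℝ) * t.2.2 + t.1.2 * t.2.1) * h3
      - 2 * (t.1.1 : ℝ) * t.1.2 * h2
  · simp only [quot]; push_cast
    field_simp
    rw [hd]
    linear_combination (t.2.1 : ℝ) ^ 2 * h1 - (t.1.1 : ℝ) * t.2.1 * h3 + (t.1.1 : ℝ) ^ 2 * h2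

/-- the number of pairs in `X0 N` mapped by `g` into `X0 N` -/
noncomputable def cnt (g : RM) (N : ℕ) : ℕ := by
  classical exact ((X0 N).filter (fun t => ∃ t' ∈ X0 N, g.Maps t t')).card

theorem sum_rep_le {q : Form} {N : ℕ} (F : Rot q → ℝ) (hF : Summable F)
    (h : ∀ g : Rot q, (cnt g N : ℝ) ≤ F g) :
    (∑ t ∈ X0 N, (rep q N t : ℝ)) ≤ ∑' g, F g := by
  classical
  -- the pairs
  let P : Finset (TT × TT) := (X0 N ×ˢ X0 N).filter (fun x => gram q x.2 = gram q x.1)
  have hP : ((P.card : ℕ) : ℝ) = ∑ t ∈ X0 N, (rep q N t : ℝ) := by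
    simp only [P]
    rw [card_filter, sum_product]
    push_cast
    apply sum_congr rfl
    intro t _
    rw [rep, card_filter]
    push_cast
    rfl
  rw [← hP]
  let φ : TT × TT → Option (Rot q) := fun x =>
    if hx : quot x.1 x.2 ∈ Rot q then some ⟨quot x.1 x.2, hx⟩ else none
  have hmem : ∀ x ∈ P, ∃ g : Rot q, φ x = some g ∧ (g : RM) = quot x.1 x.2 := by
    intro x hx
    simp only [P, mem_filter, mem_product] at hx
    have h1 := quot_mem_rot (mem_X0.1 hx.1.1).2 hx.2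
    exact ⟨⟨_, h1⟩, by simp only [φ, dif_pos h1], rfl⟩
  have h1 : P.card = ∑ y ∈ P.image φ, (P.filter (fun x => φ x = y)).card :=
    card_eq_sum_card_image φ P
  rw [h1]
  push_cast
  -- pass to elements of `Rot q`
  let S : Finset (Rot q) := (P.image φ).eraseNone
  have h2 : ∑ y ∈ P.image φ, ((P.filter (fun x => φ x = y)).card : ℝ) =
      ∑ g ∈ S, ((P.filter (fun x => φ x = some g)).card : ℝ) := by
    have : P.image φ = S.image some := by
      ext y
      simp only [S, mem_image, mem_eraseNone]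
      constructor
      · rintro ⟨x, hx, rfl⟩
        obtain ⟨g, hg, _⟩ := hmem x hx
        exact ⟨g, ⟨x, hx, hg⟩, hg.symm⟩
      · rintro ⟨g, ⟨x, hx, hg⟩, rfl⟩
        exact ⟨x, hx, hg⟩
    rw [this, sum_image (fun a _ b _ hab => Option.some.inj hab)]
  rw [h2]
  have hnn : ∀ g, 0 ≤ F g := fun g => le_trans (Nat.cast_nonneg _) (h g)
  calc ∑ g ∈ S, ((P.filter (fun x => φ x = some g)).card : ℝ)
      ≤ ∑ g ∈ S, F g := by
        apply sum_le_sum
        intro g _
        refine le_trans ?_ (h g)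
        rw [cnt]
        norm_cast
        apply card_le_card_of_injOn (fun x => x.1)
        · intro x hx
          rw [mem_coe, mem_filter] at hx
          obtain ⟨g', hg', hgq⟩ := hmem x hx.1
          rw [hx.2] at hg'
          cases hg'
          have hx1 := hx.1
          simp only [P, mem_filter, mem_product] at hx1
          rw [mem_coe, mem_filter]
          exact ⟨hx1.1.1, x.2, hx1.1.2, by rw [hgq]; exact quot_maps (mem_X0.1 hx1.1.1).2⟩
        · intro x hx y hy hxy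
          rw [mem_coe, mem_filter] at hx hy
          obtain ⟨g1, hg1, hq1⟩ := hmem x hx.1
          obtain ⟨g2, hg2, hq2⟩ := hmem y hy.1
          rw [hx.2] at hg1; cases hg1
          rw [hy.2] at hg2; cases hg2
          have hx1 := hx.1
          have hy1 := hy.1
          simp only [P, mem_filter, mem_product] at hx1 hy1
          have e1 : (g : RM).Maps x.1 x.2 := by rw [hq1]; exact quot_maps (mem_X0.1 hx1.1.1).2
          have e2 : (g : RM).Maps y.1 y.2 := by rw [hq2]; exact quot_maps (mem_X0.1 hy1.1.1).2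
          simp only at hxy
          rw [← hxy] at e2
          exact Prod.ext hxy (maps_unique e1 e2)
    _ ≤ ∑' g, F g := hF.sum_le_tsum S (fun g _ => hnn g)

end Pool.Agent.KS6_56.Tri
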