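import Pool.Agent.KS6_56.Tri.Basic

/-!
The number of pairs of elements of a hexagon with sum in the hexagon.
-/

namespace Pool.Agent.KS6_56.Tri

open Finset

/-- rotation of the hexagon -/
def rho (h : ℤ × ℤ) : ℤ × ℤ := (h.1 - h.2, h.1)

/-- inverse rotation -/
def rhoInv (h : ℤ × ℤ) : ℤ × ℤ := (h.2, h.2 - h.1)

theorem rho_rhoInv (h : ℤ × ℤ) : rho (rhoInv h) = h := by
  simp [rho, rhoInv]

theorem rhoInv_rho (h : ℤ × ℤ) : rhoInv (rho h) = h := by
  simp [rho, rhoInv]

theorem rho_mem {N : ℕ} {h : ℤ × ℤ} : rho h ∈ hexF N ↔ h ∈ hexF N := by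
  rw [mem_hexF, mem_hexF]
  simp only [rho]
  have e : h.1 - h.2 - h.1 = -h.2 := by ring
  rw [e, abs_neg]
  tauto

theorem rho_add (x y : ℤ × ℤ) : rho (x + y) = rho x + rho y := by
  ext <;> simp [rho]; ring

/-- overlap -/
noncomputable def ov (N : ℕ) (h : ℤ × ℤ) : ℕ := by
  classical exact ((hexF N).filter (fun x => x + h ∈ hexF N)).card

theorem ov_rho (N : ℕ) (h : ℤ × ℤ) : ov N (rho h) = ov N h := by
  classical
  rw [ov, ov]
  symm
  apply card_bij (fun x _ => rho x)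
  · intro x hx
    rw [mem_filter] at hx ⊢
    rw [← rho_add, rho_mem, rho_mem]
    exact hx
  · intro x _ y _ hxy
    rw [← rhoInv_rho x, hxy, rhoInv_rho]
  · intro y hy
    rw [mem_filter] at hy
    refine ⟨rhoInv y, ?_, rho_rhoInv y⟩
    rw [mem_filter, ← rho_mem, rho_rhoInv, ← rho_mem (h := rhoInv y + h), rho_add, rho_rhoInv]
    exact hy

/-- the triangle -/
def tri (R : ℕ) : Finset (ℕ × ℕ) := (range R ×ˢ range R).filter (fun x => x.2 ≤ x.1)

theorem card_tri (R : ℕ) : 2 * (tri R).card = R * (R + 1) := by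
  have h : (tri R).card = ∑ i ∈ range R, (i + 1) := by
    rw [tri, card_filter, sum_product]
    apply sum_congr rfl
    intro i hi
    rw [mem_range] at hi
    rw [← card_filter]
    have : (range R).filter (fun j => j ≤ i) = range (i + 1) := by
      ext j; simp only [mem_filter, mem_range]; omega
    rw [this, card_range]
  rw [h]
  clear h
  induction R with
  | zero => simp
  | succ n ih => rw [sum_range_succ, mul_add, ih]; ring

theorem ov_sector {N x y : ℕ} (hxy : x + y < N) :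
    ov N ((x : ℤ), -(y : ℤ)) + (N - 1) * N ≤ (2 * N - 1 - x) * (2 * N - 1 - y) := by
  classical
  obtain ⟨R, rfl⟩ : ∃ R, N = R + 1 := ⟨N - 1, by omega⟩
  let A := (hexF (R + 1)).filter (fun z => z + ((x : ℤ), -(y : ℤ)) ∈ hexF (R + 1))
  let B1 : Finset (ℤ × ℤ) := (tri R).image (fun i => (-((i.1 : ℤ) + 1), (R : ℤ) - i.2))
  let B2 : Finset (ℤ × ℤ) := (tri R).image (fun i => (-(x : ℤ) + (i.1 + 1), (y : ℤ) - R + i.2))
  let Rect : Finset (ℤ × ℤ) := (Icc (-(R : ℤ)) (R - x)) ×ˢ (Icc ((y : ℤ) - R) R)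
  have hB1 : B1.card = (tri R).card := by
    apply card_image_of_injective
    rintro ⟨i, j⟩ ⟨i', j'⟩ h
    simp only [Prod.mk.injEq] at h ⊢
    omega
  have hB2 : B2.card = (tri R).card := by
    apply card_image_of_injective
    rintro ⟨i, j⟩ ⟨i', j'⟩ h
    simp only [Prod.mk.injEq] at h ⊢
    omega
  have mA : ∀ z ∈ A, (-(R : ℤ) ≤ z.1 ∧ z.1 ≤ R - x) ∧ ((y : ℤ) - R ≤ z.2 ∧ z.2 ≤ R) ∧
      z.2 ≤ z.1 + R ∧ z.1 - R + x + y ≤ z.2 := by
    intro z hz
    simp only [A, mem_filter, mem_hexF, abs_lt, Prod.fst_add, Prod.snd_add] at hz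
    push_cast at hz
    omega
  have mB1 : ∀ z ∈ B1, (-(R : ℤ) ≤ z.1 ∧ z.1 ≤ R - x) ∧ ((y : ℤ) - R ≤ z.2 ∧ z.2 ≤ R) ∧
      z.1 + R < z.2 := by
    intro z hz
    obtain ⟨⟨i, j⟩, hi, rfl⟩ := mem_image.1 hz
    simp only [tri, mem_filter, mem_product, mem_range] at hi
    simp only
    omega
  have mB2 : ∀ z ∈ B2, (-(R : ℤ) ≤ z.1 ∧ z.1 ≤ R - x) ∧ ((y : ℤ) - R ≤ z.2 ∧ z.2 ≤ R) ∧
      z.2 < z.1 - R + x + y := by
    intro z hz
    obtain ⟨⟨i, j⟩, hi, rfl⟩ := mem_image.1 hz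
    simp only [tri, mem_filter, mem_product, mem_range] at hi
    simp only
    omega
  have d1 : Disjoint A B1 := by
    rw [disjoint_left]
    intro z h1 h2
    have := mA z h1
    have := mB1 z h2
    omega
  have d2 : Disjoint (A ∪ B1) B2 := by
    rw [disjoint_left]
    intro z h1 h2
    have h3 := mB2 z h2
    rw [mem_union] at h1
    rcases h1 with h1 | h1
    · have := mA z h1
      omega
    · have := mB1 z h1
      omega
  have hsub : (A ∪ B1) ∪ B2 ⊆ Rect := by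
    intro z hz
    simp only [Rect, mem_product, mem_Icc]
    rw [mem_union, mem_union] at hz
    rcases hz with (h | h) | h
    · have := mA z h; omega
    · have := mB1 z h; omega
    · have := mB2 z h; omega
  have h1 := card_le_card hsub
  rw [card_union_of_disjoint d2, card_union_of_disjoint d1, hB1, hB2] at h1
  have h2 : Rect.card = (2 * R + 1 - x) * (2 * R + 1 - y) := by
    simp only [Rect]
    rw [card_product, Int.card_Icc, Int.card_Icc]
    congr 1 <;> omega
  have h3 := card_tri R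
  have h4 : ov (R + 1) ((x : ℤ), -(y : ℤ)) = A.card := rfl
  rw [h4]
  have h5 : 2 * (R + 1) - 1 - x = 2 * R + 1 - x := by omega
  have h6 : 2 * (R + 1) - 1 - y = 2 * R + 1 - y := by omega
  rw [h5, h6, ← h2, Nat.add_sub_cancel]
  linarith

theorem sum_closed (a b : ℝ) (n : ℕ) :
    ∑ j ∈ range n, ((j : ℝ) + 1) * (a + b * (j + 1) - (j + 1) ^ 2) =
      a * (n * (n + 1) / 2) + b * (n * (n + 1) * (2 * n + 1) / 6) - (n * (n + 1) / 2) ^ 2 := by
  induction n with
  | zero => simp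
  | succ n ih => rw [sum_range_succ, ih]; push_cast; ring

theorem sum_inner (α β γ : ℝ) (k : ℕ) :
    ∑ y ∈ range k, (α * (β - y) - γ) = k * (α * β - γ) - α * (k * (k - 1) / 2) := by
  induction k with
  | zero => simp
  | succ n ih => rw [sum_range_succ, ih]; push_cast; ring

/-- the sum over a sector -/
theorem sum_sector (N : ℕ) : ∑ x ∈ range N, ∑ y ∈ range (N - x), (ov N ((x : ℤ), -(y : ℤ)) : ℝ) ≤
    (N : ℝ) * (N + 1) * (7 * N ^ 2 - 5 * N + 2) / 8 := by
  have h1 : ∀ x ∈ range N, ∑ y ∈ range (N - x), (ov N ((x : ℤ), -(y : ℤ)) : ℝ) ≤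
      ((N - x : ℕ) : ℝ) * (((2 * N - 1 - x : ℝ)) * (2 * N - 1) - (N - 1) * N) -
        (2 * N - 1 - x) * (((N - x : ℕ) : ℝ) * (((N - x : ℕ) : ℝ) - 1) / 2) := by
    intro x hx
    rw [mem_range] at hx
    rw [← sum_inner]
    apply sum_le_sum
    intro y hy
    rw [mem_range] at hy
    have h2 := ov_sector (N := N) (x := x) (y := y) (by omega)
    have h3 : ((2 * N - 1 - x : ℕ) : ℝ) = 2 * N - 1 - x := by
      rw [Nat.cast_sub (by omega), Nat.cast_sub (by omega)]; push_cast; ring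
    have h4 : ((2 * N - 1 - y : ℕ) : ℝ) = 2 * N - 1 - y := by
      rw [Nat.cast_sub (by omega), Nat.cast_sub (by omega)]; push_cast; ring
    have h5 : ((N - 1 : ℕ) : ℝ) = N - 1 := by
      rw [Nat.cast_sub (by omega)]; push_cast; ring
    have h6 : (ov N ((x : ℤ), -(y : ℤ)) : ℝ) + (N - 1) * N ≤ (2 * N - 1 - x) * (2 * N - 1 - y) := by
      rw [← h3, ← h4, ← h5]
      exact_mod_cast h2
    linarith
  refine (sum_le_sum h1).trans (le_of_eq ?_)
  -- reflect
  rw [← sum_range_reflect]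
  have h2 : ∀ j ∈ range N, (((N - (N - 1 - j) : ℕ) : ℝ) *
      (((2 * N - 1 - ((N - 1 - j : ℕ) : ℝ) : ℝ)) * (2 * N - 1) - (N - 1) * N) -
        (2 * N - 1 - ((N - 1 - j : ℕ) : ℝ)) *
          (((N - (N - 1 - j) : ℕ) : ℝ) * (((N - (N - 1 - j) : ℕ) : ℝ) - 1) / 2)) =
      1 / 2 * (((j : ℝ) + 1) * ((2 * N ^ 2 - 3 * N + 1) + (3 * N) * (j + 1) - (j + 1) ^ 2)) := by
    intro j hj
    rw [mem_range] at hj
    have e1 : N - (N - 1 - j) = j + 1 := by omega
    have e2 : ((N - 1 - j : ℕ) : ℝ) = N - 1 - j := by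
      rw [Nat.cast_sub (by omega), Nat.cast_sub (by omega)]; push_cast; ring
    rw [e1, e2]
    push_cast
    ring
  rw [sum_congr rfl h2, ← mul_sum, sum_closed]
  ring

/-- pairs in the hexagon with sum in the hexagon -/
theorem sum_ov (N : ℕ) : ∑ h ∈ hexF N, (ov N h : ℝ) ≤
    3 / 4 * ((N : ℝ) * (N + 1) * (7 * N ^ 2 - 5 * N + 2)) := by
  classical
  let Sec : Finset (ℤ × ℤ) := (hexF N).filter (fun h => 0 ≤ h.1 ∧ h.2 ≤ 0)
  let r : ℕ → ℤ × ℤ → ℤ × ℤ := fun k => rho^[k]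
  have hr : ∀ k h, ov N (r k h) = ov N h := by
    intro k h
    induction k with
    | zero => rfl
    | succ k ih => simp only [r, Function.iterate_succ', Function.comp] at ih ⊢; rw [ov_rho, ih]
  have hcov : ∀ h ∈ hexF N, ∃ k ∈ range 6, ∃ h0 ∈ Sec, h = r k h0 := by
    intro h hh
    obtain ⟨P, Q⟩ := h
    rw [mem_hexF] at hh
    simp only [abs_lt] at hh
    have key : ∀ (k : ℕ) (h0 : ℤ × ℤ), k < 6 → (0 ≤ h0.1 ∧ h0.2 ≤ 0 ∧ h0.1 - h0.2 < N) →
        (P, Q) = r k h0 → ∃ k ∈ range 6, ∃ h0 ∈ Sec, (P, Q) = r k h0 := by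
      intro k h0 hk hh0 he
      refine ⟨k, mem_range.2 hk, h0, ?_, he⟩
      simp only [Sec, mem_filter, mem_hexF, abs_lt]
      omega
    by_cases c0 : 0 ≤ P ∧ Q ≤ 0
    · exact key 0 (P, Q) (by norm_num) (by simp only; omega) rfl
    by_cases c1 : Q ≤ P ∧ 0 ≤ Q
    · exact key 1 (Q, Q - P) (by norm_num) (by simp only; omega)
        (by simp only [r, Function.iterate_one, rho]; ext <;> simp)
    by_cases c2 : P ≤ Q ∧ 0 ≤ P
    · exact key 2 (Q - P, -P) (by norm_num) (by simp only; omega)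
        (by simp only [r, Function.iterate_succ, Function.iterate_zero, Function.comp, rho, id]
            ext <;> simp)
    by_cases c3 : P ≤ 0 ∧ 0 ≤ Q
    · exact key 3 (-P, -Q) (by norm_num) (by simp only; omega)
        (by simp only [r, Function.iterate_succ, Function.iterate_zero, Function.comp, rho, id]
            ext <;> simp)
    by_cases c4 : P ≤ Q ∧ Q ≤ 0
    · exact key 4 (-Q, P - Q) (by norm_num) (by simp only; omega)
        (by simp only [r, Function.iterate_succ, Function.iterate_zero, Function.comp, rho, id]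
            ext <;> simp)
    · exact key 5 (P - Q, P) (by norm_num) (by simp only; omega)
        (by simp only [r, Function.iterate_succ, Function.iterate_zero, Function.comp, rho, id]
            ext <;> simp)
  have h1 : ∑ h ∈ hexF N, (ov N h : ℝ) ≤
      ∑ h ∈ (range 6 ×ˢ Sec).image (fun x => r x.1 x.2), (ov N h : ℝ) := by
    apply sum_le_sum_of_subset_of_nonneg
    · intro h hh
      obtain ⟨k, hk, h0, hh0, rfl⟩ := hcov h hh
      exact mem_image.2 ⟨(k, h0), mem_product.2 ⟨hk, hh0⟩, rfl⟩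
    · intro h _ _; positivity
  have h2 : ∑ h ∈ (range 6 ×ˢ Sec).image (fun x => r x.1 x.2), (ov N h : ℝ) ≤
      ∑ x ∈ range 6 ×ˢ Sec, (ov N (r x.1 x.2) : ℝ) := by
    apply sum_image_le_of_nonneg
    intro x _; positivity
  have h3 : ∑ x ∈ range 6 ×ˢ Sec, (ov N (r x.1 x.2) : ℝ) = 6 * ∑ h ∈ Sec, (ov N h : ℝ) := by
    rw [sum_product]
    simp only [hr, sum_const, card_range, nsmul_eq_mul]
    norm_num
  have h4 : ∑ h ∈ Sec, (ov N h : ℝ) ≤
      ∑ x ∈ range N, ∑ y ∈ range (N - x), (ov N ((x : ℤ), -(y : ℤ)) : ℝ) := by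
    rw [sum_sigma']
    have : ∑ h ∈ Sec, (ov N h : ℝ) ≤
        ∑ h ∈ ((range N).sigma (fun x => range (N - x))).image
          (fun i => ((i.1 : ℤ), -(i.2 : ℤ))), (ov N h : ℝ) := by
      apply sum_le_sum_of_subset_of_nonneg
      · intro h hh
        simp only [Sec, mem_filter, mem_hexF, abs_lt] at hh
        rw [mem_image]
        refine ⟨⟨h.1.toNat, (-h.2).toNat⟩, ?_, ?_⟩
        · simp only [mem_sigma, mem_range]; omega
        · ext <;> simp only <;> omega
      · intro h _ _; positivity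
    refine this.trans ?_
    apply sum_image_le_of_nonneg
    intro x _; positivity
  have h5 := sum_sector N
  linarith

end Pool.Agent.KS6_56.Tri
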