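import Pool.Agent.KS6_56.Tri.Lower
import Pool.Agent.KS6_56.Tri.HexCount

/-!
The lower bound for the number of Gram data of the forms `x² ± x y + y²`.
-/

namespace Pool.Agent.KS6_56.Tri

open Finset Filter Topology

/-- multiplication by a unit -/
def mulU (x : ℤ × ℤ) (g : RM) : RM :=
  ⟨x.1 * g.a - x.2 * g.c, x.1 * g.b - x.2 * g.d, x.2 * g.a + (x.1 + x.2) * g.c,
    x.2 * g.b + (x.1 + x.2) * g.d⟩

/-- the norm form -/
def unitEq (x : ℤ × ℤ) : Prop := x.1 ^ 2 + 1 * x.1 * x.2 + 1 * x.2 ^ 2 = 1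

theorem lam_mulU (x : ℤ × ℤ) (g : RM) : Lam g ≤ Lam (mulU x g) := by
  intro w hw
  rw [mem_Lam] at hw ⊢
  obtain ⟨w', h1, h2⟩ := hw
  refine ⟨(x.1 * w'.1 - x.2 * w'.2, x.2 * w'.1 + (x.1 + x.2) * w'.2), ?_, ?_⟩
  · simp only [mulU]; push_cast; rw [← h1, ← h2]; ring
  · simp only [mulU]; push_cast; rw [← h1, ← h2]; ring

theorem mulU_inv {x : ℤ × ℤ} (hx : unitEq x) (g : RM) : mulU (x.1 + x.2, -x.2) (mulU x g) = g := by
  have hx' : (x.1 : ℚ) ^ 2 + 1 * x.1 * x.2 + 1 * x.2 ^ 2 = 1 := by exact_mod_cast hx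
  ext <;> simp only [mulU] <;> push_cast
  · linear_combination g.a * hx'
  · linear_combination g.b * hx'
  · linear_combination g.c * hx'
  · linear_combination g.d * hx'

theorem lam_mulU_eq {x : ℤ × ℤ} (hx : unitEq x) (g : RM) : Lam (mulU x g) = Lam g := by
  apply le_antisymm _ (lam_mulU x g)
  have := lam_mulU (x.1 + x.2, -x.2) (mulU x g)
  rwa [mulU_inv hx] at this

theorem den_mulU {x : ℤ × ℤ} (hx : unitEq x) (g : RM) : den (mulU x g) = den g := by
  have e := lam_mulU_eq hx g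
  apply Nat.dvd_antisymm
  · apply den_dvd
    intro w
    rw [e]
    exact den_smul_mem g w
  · apply den_dvd
    intro w
    rw [← e]
    exact den_smul_mem _ w

/-- the form `A (x² + x y + y²)` -/
def Form.Hex (q : Form) : Prop := 0 < q.A ∧ q.B = q.A ∧ q.C = q.A

theorem Form.Hex.pos {q : Form} (h : q.Hex) : q.Pos := by
  obtain ⟨h1, h2, h3⟩ := h
  refine ⟨h1, ?_⟩
  rw [h2, h3]; nlinarith

theorem mem_rot_hex {q : Form} (h : q.Hex) {g : RM} : g ∈ Rot q ↔
    g.b = -g.c ∧ g.d = g.a + g.c ∧ g.a ^ 2 + g.a * g.c + g.c ^ 2 = 1 := by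
  obtain ⟨h1, h2, h3⟩ := h
  constructor
  · intro hg
    obtain ⟨e1, e2⟩ := rot_eqs hg
    rw [h2] at e1
    rw [h3] at e2
    have e1' : g.d = g.a + g.c := by
      have : q.A * ((g.a : ℝ) - g.d + g.c) = 0 := by linear_combination e1
      have := (mul_eq_zero.1 this).resolve_left h1.ne'
      have : (g.d : ℝ) = g.a + g.c := by linarith
      exact_mod_cast this
    have e2' : g.b = -g.c := by
      have : q.A * ((g.b : ℝ) + g.c) = 0 := by linear_combination e2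
      have := (mul_eq_zero.1 this).resolve_left h1.ne'
      have : (g.b : ℝ) = -g.c := by linarith
      exact_mod_cast this
    refine ⟨e2', e1', ?_⟩
    have h0 := hg.1
    rw [e1', e2'] at h0
    linear_combination h0
  · rintro ⟨e1, e2, e3⟩
    have e3' : (g.a : ℝ) ^ 2 + g.a * g.c + g.c ^ 2 = 1 := by exact_mod_cast e3
    refine ⟨?_, ?_, ?_, ?_⟩
    · rw [e1, e2]; linear_combination e3
    · rw [h2, h3]; linear_combination q.A * e3'
    · rw [h2, h3, e1, e2]; push_cast; linear_combination q.A * e3'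
    · rw [h2, h3, e1, e2]; push_cast; linear_combination q.A * e3'

theorem mulU_mem {q : Form} (h : q.Hex) {x : ℤ × ℤ} (hx : unitEq x) {g : RM} (hg : g ∈ Rot q) :
    mulU x g ∈ Rot q := by
  rw [mem_rot_hex h] at hg ⊢
  obtain ⟨e1, e2, e3⟩ := hg
  have hx' : (x.1 : ℚ) ^ 2 + 1 * x.1 * x.2 + 1 * x.2 ^ 2 = 1 := by exact_mod_cast hx
  refine ⟨?_, ?_, ?_⟩
  · simp only [mulU]; rw [e1, e2]; ring
  · simp only [mulU]; rw [e1, e2]; ring
  · simp only [mulU]
    linear_combination ((x.1 : ℚ) ^ 2 + 1 * x.1 * x.2 + 1 * x.2 ^ 2) * e3 + hx'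

theorem mulU_inj {q : Form} (h : q.Hex) {g : RM} (hg : g ∈ Rot q) {x y : ℤ × ℤ}
    (he : mulU x g = mulU y g) : x = y := by
  rw [mem_rot_hex h] at hg
  obtain ⟨e1, e2, e3⟩ := hg
  have f1 := congrArg RM.a he
  have f2 := congrArg RM.c he
  simp only [mulU] at f1 f2
  have k1 : (x.1 : ℚ) = y.1 := by
    linear_combination (g.a + g.c) * f1 + g.c * f2 - ((x.1 : ℚ) - y.1) * e3
  have k2 : (x.2 : ℚ) = y.2 := by
    linear_combination (-g.c) * f1 + g.a * f2 - ((x.2 : ℚ) - y.2) * e3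
  exact Prod.ext (by exact_mod_cast k1) (by exact_mod_cast k2)

/-- the data of a rotation of the hexagonal form -/
theorem hex_key {q : Form} (h : q.Hex) {g : RM} (hg : g ∈ Rot q) :
    ∃ k : ℕ × (ℤ × ℤ), 0 < k.1 ∧ k.1 ≤ den g ∧ IsSol 1 1 k.1 k.2 ∧ Key 1 1 1 g k ∧
      (k.1 = 1 → den g = 1) := by
  obtain ⟨h1, h2, h3⟩ := id h
  obtain ⟨k, k1, k2, k3, k4⟩ := exists_key (q := q) (β := 1) (γ := 1) (by rw [h2]; simp)
    (by rw [h3]; simp) h.pos (A := 1) (B := 1) (C := 1) (r := 1) (s := 0) (v := 0) (t := 1) (n := 1)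
    (f := 1) one_pos (by simp) (by simp) (by norm_num) one_pos (by norm_num) hg
  refine ⟨k, k1, k2, k3, k4, ?_⟩
  intro hk
  obtain ⟨e1, e2⟩ := k4
  rw [hk] at e1 e2
  rw [mem_rot_hex h] at hg
  obtain ⟨f1, f2, _⟩ := hg
  push_cast at e1 e2
  have c1 : g.c = k.2.2 := by linarith
  have c2 : g.a = k.2.1 := by rw [f2, c1] at e2; linarith
  have : den g ∣ 1 := by
    apply den_dvd
    intro w
    rw [one_smul, mem_Lam]
    refine ⟨(k.2.1 * w.1 - k.2.2 * w.2, k.2.2 * w.1 + (k.2.1 + k.2.2) * w.2), ?_, ?_⟩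
    · rw [f1, c1, c2]; push_cast; ring
    · rw [f2, c1, c2]; push_cast; ring
  exact Nat.dvd_one.1 this

theorem fund_hex : Fund 1 1 := by
  intro p hp hpd
  have : p = 3 := by
    have h1 : p ∣ 3 := by
      have : (p : ℤ) ∣ ((3 : ℕ) : ℤ) := by simpa using hpd
      exact_mod_cast this
    exact (Nat.prime_dvd_prime_iff_eq hp Nat.prime_three).1 h1
  subst this
  apply bad_of_zmod
  decide

theorem hex_sum_le {q : Form} (h : q.Hex) (s : Finset (Rot q)) (hs : ∀ g ∈ s, 2 ≤ den g) :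
    ∑ g ∈ s, 1 / (den g : ℝ) ^ 2 ≤ 6 * (Z 30 ^ 2 - 1) := by
  classical
  have hk : ∀ g : Rot q, ∃ k : ℕ × (ℤ × ℤ), 0 < k.1 ∧ k.1 ≤ den g ∧ IsSol 1 1 k.1 k.2 ∧
      Key 1 1 1 g k ∧ (k.1 = 1 → den g = 1) := fun g => hex_key h g.2
  choose κ hκ using hk
  have hinj : Function.Injective κ := by
    intro g g' he
    apply Subtype.ext
    have e1 := (hκ g).2.2.2.1
    have e2 := (hκ g').2.2.2.1
    rw [← he] at e2
    exact key_inj (q := q) (β := 1) (γ := 1) (by rw [h.2.1]; simp) (by rw [h.2.2]; simp) h.pos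
      one_pos g.2 g'.2 (hκ g).1 e1 e2
  let U : Finset (ℤ × ℤ) := {(1, 0), (-1, 0), (0, 1), (0, -1), (1, -1), (-1, 1)}
  have hUc : U.card = 6 := by decide
  have hfib : ∀ (s' : Finset (Rot q)) (m : ℕ), 0 < m →
      (s'.filter (fun g => (κ g).1 = m)).card ≤ U.card * m.divisors.card := by
    intro s' m hm
    have h1 : (s'.filter (fun g => (κ g).1 = m)).card =
        ((s'.filter (fun g => (κ g).1 = m)).image (fun g => (κ g).2)).card := by
      rw [card_image_of_injOn]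
      intro g hg g' hg' h
      rw [mem_coe, mem_filter] at hg hg'
      exact hinj (Prod.ext (hg.2.trans hg'.2.symm) h)
    rw [h1]
    apply card_sol_le hm fund_hex U units_w
    intro x hx
    obtain ⟨g, hg, rfl⟩ := mem_image.1 hx
    rw [mem_filter] at hg
    have := (hκ g).2.2.1
    rwa [hg.2] at this
  have b2 : ∀ z : ℤ, ¬ (((2 : ℕ) : ℤ) ^ 2 ∣ z ^ 2 + 1 * z + 1) := by
    apply bad_of_zmod; decide
  have b3 : ∀ z : ℤ, ¬ (((3 : ℕ) : ℤ) ^ 2 ∣ z ^ 2 + 1 * z + 1) := by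
    apply bad_of_zmod; decide
  have b5 : ∀ z : ℤ, ¬ (((5 : ℕ) : ℤ) ^ 2 ∣ z ^ 2 + 1 * z + 1) := by
    apply bad_of_zmod; decide
  let M := s.image (fun g => (κ g).1)
  have hM : ∀ m ∈ M, 2 ≤ m ∧ ∃ x, IsSol 1 1 m x := by
    intro m hm
    obtain ⟨g, hg, rfl⟩ := mem_image.1 hm
    have := (hκ g).1
    refine ⟨?_, _, (hκ g).2.2.1⟩
    by_contra hc
    have h1 := (hκ g).2.2.2.2 (by omega)
    have h2 := hs g hg
    omega
  calc ∑ g ∈ s, 1 / (den g : ℝ) ^ 2 ≤ ∑ g ∈ s, 1 / ((κ g).1 : ℝ) ^ 2 := by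
        apply sum_le_sum
        intro g _
        have h1 : (0 : ℝ) < (κ g).1 := by exact_mod_cast (hκ g).1
        have h2 : ((κ g).1 : ℝ) ≤ den g := by exact_mod_cast (hκ g).2.1
        gcongr
    _ = ∑ m ∈ M, ∑ g ∈ s with (κ g).1 = m, 1 / ((κ g).1 : ℝ) ^ 2 :=
        (sum_fiberwise_of_maps_to (fun g hg => mem_image_of_mem _ hg) _).symm
    _ ≤ ∑ m ∈ M, U.card * ((m.divisors.card : ℝ) / (m : ℝ) ^ 2) := by
        apply sum_le_sum
        intro m hm
        have h1 : ∀ g ∈ s.filter (fun g => (κ g).1 = m), 1 / ((κ g).1 : ℝ) ^ 2 = 1 / (m : ℝ) ^ 2 := by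
          intro g hg
          rw [mem_filter] at hg
          rw [hg.2]
        rw [sum_congr rfl h1, sum_const, nsmul_eq_mul]
        have h2 := hfib s m (by have := (hM m hm).1; omega)
        have h3 : ((s.filter (fun g => (κ g).1 = m)).card : ℝ) ≤ U.card * m.divisors.card := by
          exact_mod_cast h2
        have h4 : (0 : ℝ) ≤ 1 / (m : ℝ) ^ 2 := by positivity
        calc _ ≤ (U.card * m.divisors.card : ℝ) * (1 / (m : ℝ) ^ 2) := by gcongr
          _ = _ := by ring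
    _ = U.card * ∑ m ∈ M, ((m.divisors.card : ℝ) / (m : ℝ) ^ 2) := by rw [mul_sum]
    _ ≤ 6 * (Z 30 ^ 2 - 1) := by
        rw [hUc]
        have := sum_divisors_le' 30 M (by
          intro m hm
          refine ⟨(hM m hm).1, ?_⟩
          have c2 := coprime_of_bad Nat.prime_two (not_dvd_of_sol (hM m hm).1 b2 (hM m hm).2)
          have c3 := coprime_of_bad Nat.prime_three (not_dvd_of_sol (hM m hm).1 b3 (hM m hm).2)
          have c5 := coprime_of_bad Nat.prime_five (not_dvd_of_sol (hM m hm).1 b5 (hM m hm).2)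
          exact Nat.Coprime.mul_right (Nat.Coprime.mul_right c2 c3) c5)
        push_cast
        linarith

/-- nonprimitive pairs -/
noncomputable def NP (q : Form) (N : ℕ) : Finset TT := by
  classical exact (X0 N).filter (fun t => ∃ g ∈ Rot q, 2 ≤ den g ∧ t.1 ∈ Lam g ∧ t.2 ∈ Lam g)

theorem card_NP_le {q : Form} (h : q.Hex) : ∀ ε > 0, ∀ᶠ N : ℕ in atTop,
    ((NP q N).card : ℝ) ≤ (9 * (Z 30 ^ 2 - 1) + ε) * (N : ℝ) ^ 4 := by
  classical
  intro ε hε
  let J := {g : Rot q // 2 ≤ den g}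
  have hnn : ∀ g : J, 0 ≤ 1 / (den (g : Rot q) : ℝ) ^ 2 := fun g => by positivity
  have hb : ∀ s : Finset J, ∑ g ∈ s, 1 / (den (g : Rot q) : ℝ) ^ 2 ≤ 6 * (Z 30 ^ 2 - 1) := by
    intro s
    have := hex_sum_le h (s.map (Function.Embedding.subtype _)) (by
      intro g hg
      rw [Finset.mem_map] at hg
      obtain ⟨g', _, rfl⟩ := hg
      exact g'.2)
    rwa [sum_map] at this
  have hsum : Summable (fun g : J => 1 / (den (g : Rot q) : ℝ) ^ 2) := summable_of_sum_le hnn hb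
  have hS : ∑' g : J, 1 / (den (g : Rot q) : ℝ) ^ 2 ≤ 6 * (Z 30 ^ 2 - 1) :=
    Real.tsum_le_of_sum_le hnn hb
  have hev := tannery (I := J) (fun g N => cntL g N) (fun g => (den (g : Rot q) : ℝ))
    (fun g => (den (g : Rot q) : ℝ))
    (fun g => one_le_den g) (fun g => le_rfl)
    (fun g N => by exact_mod_cast cntL_le g N)
    (fun g => by
      obtain ⟨R, hR⟩ := exists_cntL_le (g : Rot q)
      exact ⟨R, fun N => by exact_mod_cast hR N⟩)
    hsum (6 * (Z 30 ^ 2 - 1)) hS (6 * ε) (by linarith)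
  filter_upwards [hev] with N hN
  obtain ⟨F, hF1, hF2, hF3⟩ := hN
  have hFnn : ∀ g, 0 ≤ F g := fun g => le_trans (Nat.cast_nonneg _) (hF2 g)
  -- choose rotations
  let U : Finset (ℤ × ℤ) := {(1, 0), (-1, 0), (0, 1), (0, -1), (1, -1), (-1, 1)}
  have hUc : U.card = 6 := by decide
  have hU : ∀ x ∈ U, unitEq x := by
    intro x hx
    simp only [U, mem_insert, mem_singleton] at hx
    rcases hx with rfl | rfl | rfl | rfl | rfl | rfl <;> norm_num [unitEq]
  have hch : ∀ t : TT, ∃ g : RM, t ∈ NP q N → g ∈ Rot q ∧ 2 ≤ den g ∧ t.1 ∈ Lam g ∧ t.2 ∈ Lam g := by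
    intro t
    by_cases ht : t ∈ NP q N
    · rw [NP, mem_filter] at ht
      obtain ⟨_, g, hg⟩ := ht
      exact ⟨g, fun _ => hg⟩
    · exact ⟨RM.one, fun h => absurd h ht⟩
  choose G hG using hch
  let P : Finset (TT × (ℤ × ℤ)) := NP q N ×ˢ U
  let φ : TT × (ℤ × ℤ) → Option J := fun x =>
    if hx : mulU x.2 (G x.1) ∈ Rot q ∧ 2 ≤ den (mulU x.2 (G x.1)) then
      some ⟨⟨mulU x.2 (G x.1), hx.1⟩, hx.2⟩ else none
  have hφ : ∀ x ∈ P, ∃ g : J, φ x = some g ∧ ((g : Rot q) : RM) = mulU x.2 (G x.1) := by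
    intro x hx
    rw [mem_product] at hx
    have h1 := hG x.1 hx.1
    have h2 := hU x.2 hx.2
    have h3 : mulU x.2 (G x.1) ∈ Rot q ∧ 2 ≤ den (mulU x.2 (G x.1)) :=
      ⟨mulU_mem h h2 h1.1, by rw [den_mulU h2]; exact h1.2.1⟩
    exact ⟨⟨⟨_, h3.1⟩, h3.2⟩, by simp only [φ, dif_pos h3], rfl⟩
  let S : Finset J := (P.image φ).eraseNone
  have himg : P.image φ = S.image some := by
    ext y
    simp only [S, mem_image, mem_eraseNone]
    constructor
    · rintro ⟨x, hx, rfl⟩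
      obtain ⟨g, hg, _⟩ := hφ x hx
      exact ⟨g, ⟨x, hx, hg⟩, hg.symm⟩
    · rintro ⟨g, ⟨x, hx, hg⟩, rfl⟩
      exact ⟨x, hx, hg⟩
  have hfib : ∀ g ∈ S, ((P.filter (fun x => φ x = some g)).card : ℝ) ≤ F g := by
    intro g _
    refine le_trans ?_ (hF2 g)
    rw [cntL]
    norm_cast
    apply card_le_card_of_injOn (fun x => x.1)
    · intro x hx
      rw [mem_coe, mem_filter] at hx
      obtain ⟨g', hg', hgq⟩ := hφ x hx.1
      rw [hx.2] at hg'
      cases hg'
      have hx1 := hx.1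
      rw [mem_product] at hx1
      have h1 := hG x.1 hx1.1
      rw [mem_coe, mem_filter]
      refine ⟨?_, ?_, ?_⟩
      · have := hx1.1
        rw [NP, mem_filter] at this
        exact this.1
      · rw [hgq]; exact lam_mulU _ _ h1.2.2.1
      · rw [hgq]; exact lam_mulU _ _ h1.2.2.2
    · intro x hx y hy hxy
      rw [mem_coe, mem_filter] at hx hy
      obtain ⟨g1, hg1, hq1⟩ := hφ x hx.1
      obtain ⟨g2, hg2, hq2⟩ := hφ y hy.1
      rw [hx.2] at hg1; cases hg1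
      rw [hy.2] at hg2; cases hg2
      simp only at hxy
      rw [← hxy, hq1] at hq2
      have hx1 := hx.1
      rw [mem_product] at hx1
      exact Prod.ext hxy (mulU_inj h (hG x.1 hx1.1).1 hq2)
  have hmain : (P.card : ℝ) ≤ ∑' g, F g := by
    have h1 : P.card = ∑ y ∈ P.image φ, (P.filter (fun x => φ x = y)).card :=
      card_eq_sum_card_image φ P
    rw [h1, himg]
    push_cast
    rw [sum_image (fun a _ b _ hab => Option.some.inj hab)]
    calc ∑ g ∈ S, ((P.filter (fun x => φ x = some g)).card : ℝ) ≤ ∑ g ∈ S, F g := sum_le_sum hfib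
      _ ≤ ∑' g, F g := hF1.sum_le_tsum S (fun g _ => hFnn g)
  have hPc : (P.card : ℝ) = 6 * (NP q N).card := by
    simp only [P]
    rw [card_product, hUc]; push_cast; ring
  rw [hPc] at hmain
  have := hmain.trans hF3
  have h6 : 6 * ((NP q N).card : ℝ) ≤ 6 * ((9 * (Z 30 ^ 2 - 1) + ε) * (N : ℝ) ^ 4) := by
    refine this.trans (le_of_eq ?_)
    ring
  linarith

/-- the unit rotations -/
theorem unit_cases {q : Form} (h : q.Hex) {g : RM} (hg : g ∈ Rot q) (hd : den g = 1) :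
    g ∈ ({⟨1, 0, 0, 1⟩, ⟨-1, 0, 0, -1⟩, ⟨0, -1, 1, 1⟩, ⟨0, 1, -1, -1⟩, ⟨1, 1, -1, 0⟩,
      ⟨-1, -1, 1, 0⟩} : Set RM) := by
  rw [mem_rot_hex h] at hg
  obtain ⟨e1, e2, e3⟩ := hg
  obtain ⟨⟨p1, p2⟩, hp1, hp2⟩ := den_smul_mem g (1, 0)
  rw [Prod.smul_fst, Prod.smul_snd, hd] at hp1 hp2
  simp only [one_smul, mul_one, mul_zero, Int.cast_zero, add_zero, Int.cast_one] at hp1 hp2
  have h1 : (p1, p2).1 ^ 2 + 1 * (p1, p2).1 * (p1, p2).2 + 1 * (p1, p2).2 ^ 2 = 1 := by
    rw [hp1, hp2] at e3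
    simp only
    have : ((p1 ^ 2 + 1 * p1 * p2 + 1 * p2 ^ 2 : ℤ) : ℚ) = 1 := by push_cast; linarith
    exact_mod_cast this
  have h2 := units_w _ h1
  simp only [mem_insert, mem_singleton, Prod.mk.injEq] at h2
  simp only [Set.mem_insert_iff, Set.mem_singleton_iff]
  rcases h2 with h | h | h | h | h | h <;> obtain ⟨rfl, rfl⟩ := h <;> push_cast at hp1 hp2
  · left
    ext <;> simp only [e1, e2, hp1, hp2] <;> norm_num
  · right; left
    ext <;> simp only [e1, e2, hp1, hp2] <;> norm_num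
  · right; right; left
    ext <;> simp only [e1, e2, hp1, hp2] <;> norm_num
  · right; right; right; left
    ext <;> simp only [e1, e2, hp1, hp2] <;> norm_num
  · right; right; right; right; left
    ext <;> simp only [e1, e2, hp1, hp2] <;> norm_num
  · right; right; right; right; right
    ext <;> simp only [e1, e2, hp1, hp2] <;> norm_num

theorem rep_hex_le {q : Form} (h : q.Hex) {N : ℕ} {t : TT} (ht : t ∈ X0 N) (hn : t ∉ NP q N) :
    rep q N t ≤ 6 ∧ ((t.1.1 + t.1.2, t.2.1 + t.2.2) ∉ hexF N → rep q N t ≤ 2) := by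
  classical
  have key : ∀ t' ∈ (X0 N).filter (fun t' => gram q t' = gram q t),
      quot t t' ∈ Rot q ∧ den (quot t t') = 1 ∧ (quot t t').Maps t t' ∧ t' ∈ X0 N := by
    intro t' ht'
    rw [mem_filter] at ht'
    have h0 := (mem_X0.1 ht).2
    have h1 := quot_mem_rot h0 ht'.2
    have h2 : (quot t t').Maps t t' := quot_maps h0
    refine ⟨h1, ?_, h2, ht'.1⟩
    by_contra hc
    apply hn
    rw [NP, mem_filter]
    refine ⟨ht, quot t t', h1, ?_, ⟨t'.1, h2.1, h2.2.1⟩, ⟨t'.2, h2.2.2.1, h2.2.2.2⟩⟩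
    have := den_pos (quot t t')
    omega
  constructor
  · rw [rep]
    let T : Finset TT := {t, (-t.1, -t.2), ((-t.1.2, t.1.1 + t.1.2), (-t.2.2, t.2.1 + t.2.2)),
      ((t.1.2, -t.1.1 - t.1.2), (t.2.2, -t.2.1 - t.2.2)),
      ((t.1.1 + t.1.2, -t.1.1), (t.2.1 + t.2.2, -t.2.1)),
      ((-t.1.1 - t.1.2, t.1.1), (-t.2.1 - t.2.2, t.2.1))}
    have hT : T.card ≤ 6 := card_le_six
    refine le_trans (card_le_card ?_) hT
    intro t' ht'
    obtain ⟨h1, h2, h3, _⟩ := key t' ht'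
    have h4 := unit_cases h h1 h2
    simp only [Set.mem_insert_iff, Set.mem_singleton_iff] at h4
    simp only [T, mem_insert, mem_singleton]
    rcases h4 with e | e | e | e | e | e <;> rw [e] at h3
    · left
      exact maps_unique h3 ⟨by simp, by simp, by simp, by simp⟩
    · right; left
      exact maps_unique h3 ⟨by simp, by simp, by simp, by simp⟩
    · right; right; left
      exact maps_unique h3 ⟨by simp, by simp, by simp, by simp⟩
    · right; right; right; left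
      exact maps_unique h3 ⟨by simp, by simp; ring, by simp, by simp; ring⟩
    · right; right; right; right; left
      exact maps_unique h3 ⟨by simp, by simp, by simp, by simp⟩
    · right; right; right; right; right
      exact maps_unique h3 ⟨by simp; ring, by simp, by simp; ring, by simp⟩
  · intro hs
    rw [rep]
    let T : Finset TT := {t, (-t.1, -t.2)}
    have hT : T.card ≤ 2 := card_le_two
    refine le_trans (card_le_card ?_) hT
    intro t' ht'
    obtain ⟨h1, h2, h3, h5⟩ := key t' ht'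
    have h4 := unit_cases h h1 h2
    simp only [Set.mem_insert_iff, Set.mem_singleton_iff] at h4
    simp only [T, mem_insert, mem_singleton]
    have hneg : ∀ a b : ℤ, (-a - b, -a - b) = (-a - b, -a - b) := fun _ _ => rfl
    have hx := (mem_X0.1 h5).1
    rw [mem_XF'] at hx
    have hs' : ¬ (|t.1.1 + t.1.2| < (N : ℤ) ∧ |t.2.1 + t.2.2| < (N : ℤ) ∧
      |t.1.1 + t.1.2 - (t.2.1 + t.2.2)| < (N : ℤ)) := by rwa [mem_hexF] at hs
    rcases h4 with e | e | e | e | e | e <;> rw [e] at h3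
    · left
      exact maps_unique h3 ⟨by simp, by simp, by simp, by simp⟩
    · right
      exact maps_unique h3 ⟨by simp, by simp, by simp, by simp⟩
    · exfalso
      have e := maps_unique h3 (t'' := ((-t.1.2, t.1.1 + t.1.2), (-t.2.2, t.2.1 + t.2.2)))
        ⟨by simp, by simp, by simp, by simp⟩
      rw [e] at hx
      exact hs' hx.2
    · exfalso
      have e := maps_unique h3 (t'' := ((t.1.2, -t.1.1 - t.1.2), (t.2.2, -t.2.1 - t.2.2)))
        ⟨by simp, by simp; ring, by simp, by simp; ring⟩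
      rw [e] at hx
      apply hs'
      have h6 := hx.2
      simp only [abs_lt] at h6 ⊢
      omega
    · exfalso
      have e := maps_unique h3 (t'' := ((t.1.1 + t.1.2, -t.1.1), (t.2.1 + t.2.2, -t.2.1)))
        ⟨by simp, by simp, by simp, by simp⟩
      rw [e] at hx
      exact hs' hx.1
    · exfalso
      have e := maps_unique h3 (t'' := ((-t.1.1 - t.1.2, t.1.1), (-t.2.1 - t.2.2, t.2.1)))
        ⟨by simp; ring, by simp, by simp; ring, by simp⟩
      rw [e] at hx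
      apply hs'
      have h6 := hx.1
      simp only [abs_lt] at h6 ⊢
      omega

/-- pairs with small third coordinate -/
noncomputable def S3 (N : ℕ) : Finset TT := by
  classical exact (XF N).filter (fun t => (t.1.1 + t.1.2, t.2.1 + t.2.2) ∈ hexF N)

theorem card_S3 (N : ℕ) : (S3 N).card = ∑ h ∈ hexF N, ov N h := by
  classical
  have h1 : (S3 N).card = ((hexF N ×ˢ hexF N).filter (fun x => x.2 + x.1 ∈ hexF N)).card := by
    apply card_bij (fun t _ => ((t.1.1, t.2.1), (t.1.2, t.2.2)))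
    · intro t ht
      rw [S3, mem_filter, mem_XF] at ht
      rw [mem_filter, mem_product]
      refine ⟨ht.1, ?_⟩
      have : ((t.1.2, t.2.2) : ℤ × ℤ) + (t.1.1, t.2.1) = (t.1.1 + t.1.2, t.2.1 + t.2.2) := by
        ext <;> simp <;> ring
      rw [this]
      exact ht.2
    · rintro ⟨⟨a, b⟩, c, d⟩ _ ⟨⟨a', b'⟩, c', d'⟩ _ he
      simp only [Prod.mk.injEq] at he ⊢
      tauto
    · rintro ⟨⟨a, b⟩, c, d⟩ hx
      rw [mem_filter, mem_product] at hx
      refine ⟨((a, c), (b, d)), ?_, rfl⟩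
      rw [S3, mem_filter, mem_XF]
      refine ⟨hx.1, ?_⟩
      have : ((c, d) : ℤ × ℤ) + (a, b) = (a + c, b + d) := by
        ext <;> simp <;> ring
      rw [← this]
      exact hx.2
  rw [h1, card_filter, sum_product]
  apply sum_congr rfl
  intro h _
  rw [ov, card_filter]

theorem nGram_hex_ge {q : Form} (h : q.Hex) (N : ℕ) :
    ((X0 N).card : ℝ) / 2 - ((NP q N).card : ℝ) / 2 - ((S3 N).card : ℝ) / 3 ≤ nGram q N := by
  classical
  rw [nGram_eq]
  have h1 : ((X0 N).card : ℝ) / 2 - ((NP q N).card : ℝ) / 2 - ((S3 N).card : ℝ) / 3 ≤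
      ∑ t ∈ X0 N, (1 / 2 - (if t ∈ NP q N then (1 / 2 : ℝ) else 0) -
        (if t ∈ S3 N then (1 / 3 : ℝ) else 0)) := by
    rw [sum_sub_distrib, sum_sub_distrib, sum_const, ← sum_filter, ← sum_filter, sum_const,
      sum_const, nsmul_eq_mul, nsmul_eq_mul, nsmul_eq_mul]
    have h2 : (((X0 N).filter (fun t => t ∈ NP q N)).card : ℝ) ≤ (NP q N).card := by
      norm_cast
      exact card_le_card (fun t ht => (mem_filter.1 ht).2)
    have h3 : (((X0 N).filter (fun t => t ∈ S3 N)).card : ℝ) ≤ (S3 N).card := by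
      norm_cast
      exact card_le_card (fun t ht => (mem_filter.1 ht).2)
    linarith
  refine h1.trans (sum_le_sum ?_)
  intro t ht
  have hr : (1 : ℝ) ≤ rep q N t := by exact_mod_cast rep_pos ht
  have hr0 : (0 : ℝ) ≤ 1 / rep q N t := by positivity
  by_cases hn : t ∈ NP q N
  · rw [if_pos hn]
    split_ifs <;> linarith
  · rw [if_neg hn]
    obtain ⟨h2, h3⟩ := rep_hex_le h ht hn
    split_ifs with hs
    · have h4 : (rep q N t : ℝ) ≤ 6 := by exact_mod_cast h2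
      have : (1 : ℝ) / 6 ≤ 1 / rep q N t := by gcongr
      linarith
    · have h5 : (t.1.1 + t.1.2, t.2.1 + t.2.2) ∉ hexF N := by
        intro hc
        apply hs
        rw [S3, mem_filter]
        exact ⟨(mem_X0.1 ht).1, hc⟩
      have h4 : (rep q N t : ℝ) ≤ 2 := by exact_mod_cast h3 h5
      have : (1 : ℝ) / 2 ≤ 1 / rep q N t := by gcongr
      linarith

theorem nGram_hex {q : Form} (h : q.Hex) : ∀ᶠ N : ℕ in atTop,
    (9 / 4 : ℝ) * (N : ℝ) ^ 4 ≤ nGram q N := by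
  have hpi := pi_sq_lt
  have hpi0 : 0 < Real.pi ^ 2 := by have := Real.pi_pos; positivity
  filter_upwards [card_NP_le h (1 / 1000) (by norm_num), eventually_ge_atTop 100000] with N hN hN1
  have h1 := nGram_hex_ge h N
  have h3 : 9 * (N : ℝ) ^ 4 ≤ (X0 N).card + 34 * (N : ℝ) ^ 3 := by exact_mod_cast le_card_X0 N
  have h4 : ((S3 N).card : ℝ) ≤ 3 / 4 * ((N : ℝ) * (N + 1) * (7 * N ^ 2 - 5 * N + 2)) := by
    rw [card_S3]; push_cast; exact sum_ov N
  have hN0 : (100000 : ℝ) ≤ N := by exact_mod_cast hN1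
  have hz : 9 * (Z 30 ^ 2 - 1) ≤ 0.9751 := by
    rw [Z_thirty]
    nlinarith
  have h5 : 34 * (N : ℝ) ^ 3 ≤ (34 / 100000) * (N : ℝ) ^ 4 := by
    have : (N : ℝ) ^ 3 * 100000 ≤ (N : ℝ) ^ 3 * N := by gcongr
    linarith [(by ring : (N : ℝ) ^ 3 * N = (N : ℝ) ^ 4)]
  have h6 : (N : ℝ) * (N + 1) * (7 * N ^ 2 - 5 * N + 2) ≤ (7 + 1 / 1000) * (N : ℝ) ^ 4 := by
    have h7 : (N : ℝ) * (N + 1) * (7 * N ^ 2 - 5 * N + 2) = 7 * (N : ℝ) ^ 4 + 2 * (N : ℝ) ^ 3 -
      3 * (N : ℝ) ^ 2 + 2 * N := by ring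
    rw [h7]
    have h8 : (N : ℝ) ^ 3 * 100000 ≤ (N : ℝ) ^ 3 * N := by gcongr
    have h9 : (N : ℝ) ≤ (N : ℝ) ^ 2 := by nlinarith
    nlinarith [(by ring : (N : ℝ) ^ 3 * N = (N : ℝ) ^ 4)]
  have h7 : (9 * (Z 30 ^ 2 - 1) + 1 / 1000) * (N : ℝ) ^ 4 ≤ 0.9761 * (N : ℝ) ^ 4 := by
    gcongr
    linarith
  have h8 : (0 : ℝ) ≤ (N : ℝ) ^ 4 := by positivity
  linarith

end Pool.Agent.KS6_56.Tri
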