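import Pool.Agent.KS6_56.Tri.Forms

/-!
Sublattices of `ℤ²` attached to rational matrices and bounds for their numbers of points.
-/

namespace Pool.Agent.KS6_56.Tri

open Finset

/-- vectors mapped to integer vectors -/
def Lam (g : RM) : AddSubgroup (ℤ × ℤ) where
  carrier := {w | ∃ w' : ℤ × ℤ, g.a * w.1 + g.b * w.2 = w'.1 ∧ g.c * w.1 + g.d * w.2 = w'.2}
  add_mem' := by
    rintro x y ⟨x', hx1, hx2⟩ ⟨y', hy1, hy2⟩
    refine ⟨x' + y', ?_, ?_⟩
    · simp only [Prod.fst_add, Prod.snd_add]; push_cast; rw [← hx1, ← hy1]; ring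
    · simp only [Prod.fst_add, Prod.snd_add]; push_cast; rw [← hx2, ← hy2]; ring
  zero_mem' := ⟨0, by simp, by simp⟩
  neg_mem' := by
    rintro x ⟨x', hx1, hx2⟩
    refine ⟨-x', ?_, ?_⟩
    · simp only [Prod.fst_neg, Prod.snd_neg]; push_cast; rw [← hx1]; ring
    · simp only [Prod.fst_neg, Prod.snd_neg]; push_cast; rw [← hx2]; ring

theorem mem_Lam {g : RM} {w : ℤ × ℤ} : w ∈ Lam g ↔
    ∃ w' : ℤ × ℤ, g.a * w.1 + g.b * w.2 = w'.1 ∧ g.c * w.1 + g.d * w.2 = w'.2 := Iff.rfl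

/-- the least common denominator, as the exponent of `ℤ² / Lam g` -/
noncomputable def den (g : RM) : ℕ := AddMonoid.exponent ((ℤ × ℤ) ⧸ Lam g)

theorem exists_mul_mem (g : RM) : ∃ k : ℕ, 0 < k ∧ ∀ w : ℤ × ℤ, k • w ∈ Lam g := by
  refine ⟨g.a.den * g.b.den * g.c.den * g.d.den, by positivity, fun w => ?_⟩
  have ha : (g.a.den : ℚ) * g.a = g.a.num := Rat.den_mul_eq_num g.a
  have hb : (g.b.den : ℚ) * g.b = g.b.num := Rat.den_mul_eq_num g.b
  have hc : (g.c.den : ℚ) * g.c = g.c.num := Rat.den_mul_eq_num g.c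
  have hd : (g.d.den : ℚ) * g.d = g.d.num := Rat.den_mul_eq_num g.d
  refine ⟨(g.a.num * g.b.den * g.c.den * g.d.den * w.1 + g.a.den * g.b.num * g.c.den * g.d.den * w.2,
    g.a.den * g.b.den * g.c.num * g.d.den * w.1 + g.a.den * g.b.den * g.c.den * g.d.num * w.2), ?_, ?_⟩
  · rw [Prod.smul_fst, Prod.smul_snd]
    simp only [nsmul_eq_mul]
    push_cast
    rw [← ha, ← hb]; ring
  · rw [Prod.smul_fst, Prod.smul_snd]
    simp only [nsmul_eq_mul]
    push_cast
    rw [← hc, ← hd]; ring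

instance (g : RM) : Finite ((ℤ × ℤ) ⧸ Lam g) := by
  obtain ⟨k, hk, h⟩ := exists_mul_mem g
  apply AddCommGroup.finite_of_fg_isAddTorsion
  intro x
  obtain ⟨w, rfl⟩ := QuotientAddGroup.mk_surjective x
  rw [isOfFinAddOrder_iff_nsmul_eq_zero]
  refine ⟨k, hk, ?_⟩
  rw [← QuotientAddGroup.mk_nsmul, QuotientAddGroup.eq_zero_iff]
  exact h w

theorem den_pos (g : RM) : 0 < den g :=
  Nat.pos_of_ne_zero AddMonoid.exponent_ne_zero_of_finite

theorem den_smul_mem (g : RM) (w : ℤ × ℤ) : den g • w ∈ Lam g := by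
  rw [← QuotientAddGroup.eq_zero_iff, QuotientAddGroup.mk_nsmul]
  exact AddMonoid.exponent_nsmul_eq_zero _

theorem den_dvd {g : RM} {k : ℕ} (h : ∀ w : ℤ × ℤ, k • w ∈ Lam g) : den g ∣ k := by
  apply AddMonoid.exponent_dvd_of_forall_nsmul_eq_zero
  intro x
  obtain ⟨w, rfl⟩ := QuotientAddGroup.mk_surjective x
  rw [← QuotientAddGroup.mk_nsmul, QuotientAddGroup.eq_zero_iff]
  exact h w

theorem den_le_card (g : RM) : den g ≤ Nat.card ((ℤ × ℤ) ⧸ Lam g) :=
  Nat.le_of_dvd Nat.card_pos AddGroup.exponent_dvd_nat_card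

theorem den_dvd_det {g : RM} {w w' : ℤ × ℤ} (h : w ∈ Lam g) (h' : w' ∈ Lam g) :
    (den g : ℤ) ∣ w.1 * w'.2 - w.2 * w'.1 := by
  rw [← Int.dvd_natAbs]
  norm_cast
  apply den_dvd
  intro x
  have hx : (w.1 * w'.2 - w.2 * w'.1) • x ∈ Lam g := by
    have : (w.1 * w'.2 - w.2 * w'.1) • x =
        (x.1 * w'.2 - x.2 * w'.1) • w + (w.1 * x.2 - w.2 * x.1) • w' := by
      ext
      · simp only [Prod.smul_fst, Prod.fst_add, smul_eq_mul]; ring
      · simp only [Prod.smul_snd, Prod.snd_add, smul_eq_mul]; ring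
    rw [this]
    exact add_mem (zsmul_mem h _) (zsmul_mem h' _)
  rcases Int.natAbs_eq (w.1 * w'.2 - w.2 * w'.1) with e | e
  · rw [e, natCast_zsmul] at hx
    exact hx
  · rw [e, neg_smul, natCast_zsmul] at hx
    exact neg_mem_iff.1 hx

/-- injecting a set of lattice points into a rectangle -/
theorem card_aux (S : Finset (ℤ × ℤ)) (w : ℤ × ℤ) (π : ℤ × ℤ → ℤ) (m l N : ℕ) (hm : 0 < m)
    (hl : 0 < l) (hlN : l ≤ N)
    (hdiv : ∀ x ∈ S, (m : ℤ) ∣ w.1 * x.2 - w.2 * x.1)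
    (hdet : ∀ x ∈ S, |w.1 * x.2 - w.2 * x.1| ≤ 2 * l * N)
    (hbig : (m : ℤ) ≤ 2 * l * N)
    (hpi : ∀ x ∈ S, |π x| ≤ N)
    (hinj : ∀ x ∈ S, ∀ x' ∈ S, w.1 * x.2 - w.2 * x.1 = w.1 * x'.2 - w.2 * x'.1 →
      |π x - π x'| < l → x = x') :
    S.card * m ≤ 18 * N ^ 2 := by
  set K : ℕ := 2 * l * N / m with hK
  set L : ℕ := 2 * N / l with hL
  have hcard : S.card ≤ (2 * K + 1) * (L + 1) := by
    have hmaps : ∀ x ∈ S, ((w.1 * x.2 - w.2 * x.1) / m, (π x + N) / l) ∈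
        (Icc (-(K : ℤ)) K) ×ˢ (Icc (0 : ℤ) L) := by
      intro x hx
      obtain ⟨k, hk⟩ := hdiv x hx
      have h1 := hdet x hx
      have h2 := abs_le.1 (hpi x hx)
      rw [mem_product, mem_Icc, mem_Icc]
      have hm' : (0 : ℤ) < m := by exact_mod_cast hm
      have hl' : (0 : ℤ) < l := by exact_mod_cast hl
      refine ⟨?_, ?_, ?_⟩
      · simp only
        rw [hk, Int.mul_ediv_cancel_left _ hm'.ne']
        rw [hk, abs_mul, abs_of_pos hm'] at h1
        have h3 : |k| ≤ K := by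
          rw [hK]
          push_cast
          rw [Int.le_ediv_iff_mul_le hm']
          linarith
        exact abs_le.1 h3
      · exact Int.ediv_nonneg (by linarith) hl'.le
      · rw [hL]
        push_cast
        exact Int.ediv_le_ediv hl' (by linarith)
    have hinj' : Set.InjOn (fun x : ℤ × ℤ => ((w.1 * x.2 - w.2 * x.1) / (m : ℤ), (π x + N) / (l : ℤ)))
        (S : Set (ℤ × ℤ)) := by
      intro x hx x' hx' h
      simp only [Prod.mk.injEq] at h
      have hx := mem_coe.1 hx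
      have hx' := mem_coe.1 hx'
      apply hinj x hx x' hx'
      · obtain ⟨k, hk⟩ := hdiv x hx
        obtain ⟨k', hk'⟩ := hdiv x' hx'
        have hm' : (m : ℤ) ≠ 0 := by exact_mod_cast hm.ne'
        rw [hk, hk', Int.mul_ediv_cancel_left _ hm', Int.mul_ediv_cancel_left _ hm'] at h
        rw [hk, hk', h.1]
      · have hl' : (0 : ℤ) < l := by exact_mod_cast hl
        have e1 := Int.ediv_mul_le (π x + N) hl'.ne'
        have e2 := Int.lt_ediv_add_one_mul_self (π x + N) hl'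
        have e3 := Int.ediv_mul_le (π x' + N) hl'.ne'
        have e4 := Int.lt_ediv_add_one_mul_self (π x' + N) hl'
        rw [h.2] at e1 e2
        rw [abs_lt]
        constructor <;> linarith
    calc S.card ≤ ((Icc (-(K : ℤ)) K) ×ˢ (Icc (0 : ℤ) L)).card :=
          card_le_card_of_injOn _ hmaps hinj'
      _ = (2 * K + 1) * (L + 1) := by
          rw [card_product, Int.card_Icc, Int.card_Icc]
          congr 1; omega
  have h1 : K * m ≤ 2 * l * N := Nat.div_mul_le_self _ _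
  have h2 : L * l ≤ 2 * N := Nat.div_mul_le_self _ _
  have h3 : 1 ≤ K := by
    rw [hK, Nat.one_le_div_iff hm]; exact_mod_cast hbig
  have h4 : 2 ≤ L := by
    rw [hL, Nat.le_div_iff_mul_le hl]; omega
  have h5 : 2 * K + 1 ≤ 3 * K := by omega
  have h6 : 2 * (L + 1) ≤ 3 * L := by omega
  have h7 : 2 * (S.card * m) ≤ 2 * (18 * N ^ 2) := by
    calc 2 * (S.card * m) ≤ 2 * (((2 * K + 1) * (L + 1)) * m) := by gcongr
      _ = (2 * K + 1) * (2 * (L + 1)) * m := by ring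
      _ ≤ (3 * K) * (3 * L) * m := by gcongr
      _ = 9 * L * (K * m) := by ring
      _ ≤ 9 * L * (2 * l * N) := by gcongr
      _ = 18 * N * (L * l) := by ring
      _ ≤ 18 * N * (2 * N) := by gcongr
      _ = 2 * (18 * N ^ 2) := by ring
  omega

theorem card_lattice (g : RM) (N : ℕ) (S : Finset (ℤ × ℤ))
    (hS : ∀ x ∈ S, x ∈ Lam g ∧ |x.1| ≤ N ∧ |x.2| ≤ N) {u v : ℤ × ℤ} (hu : u ∈ S) (hv : v ∈ S)
    (huv : u.1 * v.2 - u.2 * v.1 ≠ 0) : S.card * den g ≤ 18 * N ^ 2 := by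
  classical
  -- the shortest vector
  let B : Finset (ℤ × ℤ) := ((Icc (-(N : ℤ)) N) ×ˢ (Icc (-(N : ℤ)) N)).filter
    (fun x => x ∈ Lam g ∧ x ≠ 0)
  have hB : ∀ x, x ∈ B ↔ (|x.1| ≤ N ∧ |x.2| ≤ N) ∧ x ∈ Lam g ∧ x ≠ 0 := by
    intro x
    simp only [B, mem_filter, mem_product, mem_Icc, abs_le]
  have hu0 : u ≠ 0 := by rintro rfl; simp at huv
  have huB : u ∈ B := (hB u).2 ⟨(hS u hu).2, (hS u hu).1, hu0⟩
  obtain ⟨w, hwB, hmin⟩ := B.exists_min_image (fun x => max |x.1| |x.2|) ⟨u, huB⟩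
  obtain ⟨hwN, hwL, hw0⟩ := (hB w).1 hwB
  have hm := den_pos g
  -- some vector is independent of `w`
  have hex : ∃ x ∈ S, w.1 * x.2 - w.2 * x.1 ≠ 0 := by
    by_contra hcon
    push Not at hcon
    have h1 := hcon u hu
    have h2 := hcon v hv
    apply hw0
    have e1 : w.1 * (u.1 * v.2 - u.2 * v.1) = 0 := by linear_combination u.1 * h2 - v.1 * h1
    have e2 : w.2 * (u.1 * v.2 - u.2 * v.1) = 0 := by linear_combination u.2 * h2 - v.2 * h1
    ext
    · exact (mul_eq_zero.1 e1).resolve_right huv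
    · exact (mul_eq_zero.1 e2).resolve_right huv
  obtain ⟨x0, hx0, hx0'⟩ := hex
  obtain ⟨l, hl⟩ : ∃ l : ℕ, (l : ℤ) = max |w.1| |w.2| :=
    ⟨(max |w.1| |w.2|).toNat, Int.toNat_of_nonneg (le_max_of_le_left (abs_nonneg _))⟩
  have hlN : l ≤ N := by
    have : (l : ℤ) ≤ N := by rw [hl]; exact max_le hwN.1 hwN.2
    exact_mod_cast this
  have hw1 : |w.1| ≤ l := by rw [hl]; exact le_max_left _ _
  have hw2 : |w.2| ≤ l := by rw [hl]; exact le_max_right _ _
  have hl0 : 0 < l := by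
    rcases Nat.eq_zero_or_pos l with h | h
    · exfalso
      apply hw0
      rw [h] at hw1 hw2
      ext
      · exact abs_nonpos_iff.1 (by simpa using hw1)
      · exact abs_nonpos_iff.1 (by simpa using hw2)
    · exact h
  have hdet : ∀ x ∈ S, |w.1 * x.2 - w.2 * x.1| ≤ 2 * l * N := by
    intro x hx
    obtain ⟨_, h1, h2⟩ := hS x hx
    calc |w.1 * x.2 - w.2 * x.1| ≤ |w.1 * x.2| + |w.2 * x.1| := abs_sub _ _
      _ = |w.1| * |x.2| + |w.2| * |x.1| := by rw [abs_mul, abs_mul]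
      _ ≤ l * N + l * N := by gcongr
      _ = 2 * l * N := by ring
  have hdiv : ∀ x ∈ S, (den g : ℤ) ∣ w.1 * x.2 - w.2 * x.1 := fun x hx =>
    den_dvd_det hwL (hS x hx).1
  have hbig : (den g : ℤ) ≤ 2 * l * N :=
    le_trans (Int.le_of_dvd (abs_pos.2 hx0') ((dvd_abs _ _).2 (hdiv x0 hx0))) (hdet x0 hx0)
  have key : ∀ y : ℤ × ℤ, y ∈ Lam g → |y.1| < l → |y.2| < l → y = 0 := by
    intro y hy h1 h2
    by_contra hne
    have hyB : y ∈ B := (hB y).2 ⟨⟨by have : (l : ℤ) ≤ N := by exact_mod_cast hlN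
                                      linarith, by have : (l : ℤ) ≤ N := by exact_mod_cast hlN
                                                   linarith⟩, hy, hne⟩
    have := hmin y hyB
    rw [← hl] at this
    exact absurd (lt_of_le_of_lt this (max_lt h1 h2)) (lt_irrefl _)
  rcases le_total |w.2| |w.1| with h | h
  · -- first coordinate
    have hlw : (l : ℤ) = |w.1| := by rw [hl, max_eq_left h]
    refine card_aux S w (fun x => x.1) (den g) l N hm hl0 hlN hdiv hdet hbig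
      (fun x hx => (hS x hx).2.1) ?_
    intro x hx x' hx' he hlt
    have hy : x - x' ∈ Lam g := sub_mem (hS x hx).1 (hS x' hx').1
    have : x - x' = 0 := by
      apply key _ hy
      · simpa using hlt
      · have e : w.1 * (x.2 - x'.2) = w.2 * (x.1 - x'.1) := by linarith
        have e' : |w.1| * |x.2 - x'.2| = |w.2| * |x.1 - x'.1| := by
          rw [← abs_mul, ← abs_mul, e]
        simp only [Prod.snd_sub]
        have h3 : |w.1| * |x.2 - x'.2| < |w.1| * l := by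
          have hwp : 0 < |w.1| := by rw [← hlw]; exact_mod_cast hl0
          calc |w.1| * |x.2 - x'.2| = |w.2| * |x.1 - x'.1| := e'
            _ ≤ |w.1| * |x.1 - x'.1| := by gcongr
            _ < |w.1| * l := by gcongr
        exact lt_of_mul_lt_mul_left h3 (abs_nonneg _)
    exact sub_eq_zero.1 this
  · have hlw : (l : ℤ) = |w.2| := by rw [hl, max_eq_right h]
    refine card_aux S w (fun x => x.2) (den g) l N hm hl0 hlN hdiv hdet hbig
      (fun x hx => (hS x hx).2.2) ?_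
    intro x hx x' hx' he hlt
    have hy : x - x' ∈ Lam g := sub_mem (hS x hx).1 (hS x' hx').1
    have : x - x' = 0 := by
      apply key _ hy
      · have e : w.1 * (x.2 - x'.2) = w.2 * (x.1 - x'.1) := by linarith
        have e' : |w.1| * |x.2 - x'.2| = |w.2| * |x.1 - x'.1| := by
          rw [← abs_mul, ← abs_mul, e]
        simp only [Prod.fst_sub]
        have h3 : |w.2| * |x.1 - x'.1| < |w.2| * l := by
          have hwp : 0 < |w.2| := by rw [← hlw]; exact_mod_cast hl0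
          calc |w.2| * |x.1 - x'.1| = |w.1| * |x.2 - x'.2| := e'.symm
            _ ≤ |w.2| * |x.2 - x'.2| := by gcongr
            _ < |w.2| * l := by gcongr
        exact lt_of_mul_lt_mul_left h3 (abs_nonneg _)
      · simpa using hlt
    exact sub_eq_zero.1 this

/-- pairs with both vectors in the lattice -/
noncomputable def cntL (g : RM) (N : ℕ) : ℕ := by
  classical exact ((X0 N).filter (fun t => t.1 ∈ Lam g ∧ t.2 ∈ Lam g)).card

theorem cnt_le_cntL (g : RM) (N : ℕ) : cnt g N ≤ cntL g N := by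
  classical
  rw [cnt, cntL]
  apply card_le_card
  intro t ht
  rw [mem_filter] at ht ⊢
  obtain ⟨h1, t', _, h⟩ := ht
  exact ⟨h1, ⟨t'.1, h.1, h.2.1⟩, ⟨t'.2, h.2.2.1, h.2.2.2⟩⟩

theorem cntL_le (g : RM) (N : ℕ) : cntL g N * den g ^ 2 ≤ 324 * N ^ 4 := by
  classical
  rcases Nat.eq_zero_or_pos (cntL g N) with h0 | h0
  · rw [h0]; simp
  rw [cntL] at h0
  obtain ⟨t, ht⟩ := card_pos.1 h0
  rw [mem_filter] at ht
  let S : Finset (ℤ × ℤ) := ((Icc (-(N : ℤ)) N) ×ˢ (Icc (-(N : ℤ)) N)).filter (fun x => x ∈ Lam g)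
  have hS : ∀ x, x ∈ S ↔ (|x.1| ≤ N ∧ |x.2| ≤ N) ∧ x ∈ Lam g := by
    intro x
    simp only [S, mem_filter, mem_product, mem_Icc, abs_le]
  have hXS : ∀ t ∈ (X0 N).filter (fun t => t.1 ∈ Lam g ∧ t.2 ∈ Lam g), t.1 ∈ S ∧ t.2 ∈ S := by
    intro t ht
    rw [mem_filter, mem_X0, mem_XF'] at ht
    rw [hS, hS]
    exact ⟨⟨⟨ht.1.1.1.1.le, ht.1.1.2.1.le⟩, ht.2.1⟩, ⟨⟨ht.1.1.1.2.1.le, ht.1.1.2.2.1.le⟩, ht.2.2⟩⟩
  have h1 := card_lattice g N S (fun x hx => ⟨((hS x).1 hx).2, ((hS x).1 hx).1⟩)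
    (hXS t (mem_filter.2 ht)).1 (hXS t (mem_filter.2 ht)).2 (mem_X0.1 ht.1).2
  have h2 : cntL g N ≤ S.card ^ 2 := by
    rw [cntL, sq, ← card_product]
    apply card_le_card
    intro t ht
    rw [mem_product]
    exact hXS t ht
  calc cntL g N * den g ^ 2 ≤ S.card ^ 2 * den g ^ 2 := by gcongr
    _ = (S.card * den g) ^ 2 := by ring
    _ ≤ (18 * N ^ 2) ^ 2 := by gcongr
    _ = 324 * N ^ 4 := by ring

/-- packing translates -/
theorem exists_cntL_le (g : RM) : ∃ R : ℕ, ∀ N : ℕ, cntL g N * den g ^ 2 ≤ 9 * (N + R) ^ 4 := by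
  classical
  let Q := (ℤ × ℤ) ⧸ Lam g
  have : Fintype Q := Fintype.ofFinite _
  let s : Q → ℤ × ℤ := fun q => q.out
  have hs : ∀ q : Q, (QuotientAddGroup.mk (s q) : Q) = q := fun q => Quotient.out_eq q
  obtain ⟨R, hR⟩ : ∃ R : ℕ, ∀ q : Q, |(s q).1| ≤ R ∧ |(s q).2| ≤ R := by
    refine ⟨∑ q : Q, ((s q).1.natAbs + (s q).2.natAbs), fun q => ?_⟩
    have h := single_le_sum (f := fun q : Q => (s q).1.natAbs + (s q).2.natAbs)
      (fun q _ => Nat.zero_le _) (mem_univ q)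
    constructor
    · rw [Int.abs_eq_natAbs]; exact_mod_cast (le_trans (Nat.le_add_right _ _) h)
    · rw [Int.abs_eq_natAbs]; exact_mod_cast (le_trans (Nat.le_add_left _ _) h)
  refine ⟨2 * R, fun N => ?_⟩
  let F := (X0 N).filter (fun t => t.1 ∈ Lam g ∧ t.2 ∈ Lam g)
  let f : TT × (Q × Q) → TT := fun x => (x.1.1 + s x.2.1, x.1.2 + s x.2.2)
  have hmaps : ∀ x ∈ F ×ˢ (univ : Finset (Q × Q)), f x ∈ XF (N + 2 * R) := by
    rintro ⟨t, q1, q2⟩ hx
    rw [mem_product] at hx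
    have ht := hx.1
    simp only [F, mem_filter, mem_X0, mem_XF'] at ht
    obtain ⟨⟨⟨⟨a1, a2, a3⟩, a4, a5, a6⟩, _⟩, _⟩ := ht
    obtain ⟨b1, b2⟩ := hR q1
    obtain ⟨b3, b4⟩ := hR q2
    rw [mem_XF']
    simp only [f, Prod.fst_add, Prod.snd_add]
    push_cast
    rw [abs_lt] at a1 a2 a3 a4 a5 a6
    rw [abs_le] at b1 b2 b3 b4
    refine ⟨⟨?_, ?_, ?_⟩, ?_, ?_, ?_⟩ <;> rw [abs_lt] <;> constructor <;> linarith
  have hinj : Set.InjOn f (F ×ˢ (univ : Finset (Q × Q)) : Finset (TT × (Q × Q))) := by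
    rintro ⟨t, q1, q2⟩ hx ⟨t', q1', q2'⟩ hx' h
    rw [mem_coe, mem_product] at hx hx'
    have ht := (mem_filter.1 hx.1).2
    have ht' := (mem_filter.1 hx'.1).2
    simp only [f, Prod.mk.injEq] at h ht ht'
    have e1 : q1 = q1' := by
      rw [← hs q1, ← hs q1']
      rw [QuotientAddGroup.eq]
      have : -s q1 + s q1' = t.1 - t'.1 := by linear_combination -h.1
      rw [this]
      exact sub_mem ht.1 ht'.1
    have e2 : q2 = q2' := by
      rw [← hs q2, ← hs q2']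
      rw [QuotientAddGroup.eq]
      have : -s q2 + s q2' = t.2 - t'.2 := by linear_combination -h.2
      rw [this]
      exact sub_mem ht.2 ht'.2
    subst e1; subst e2
    have e3 : t = t' := Prod.ext (add_right_cancel h.1) (add_right_cancel h.2)
    rw [e3]
  have h1 := card_le_card_of_injOn f hmaps hinj
  rw [card_product, card_univ, Fintype.card_prod] at h1
  have h2 : den g ≤ Fintype.card Q := by
    have := den_le_card g
    rwa [Nat.card_eq_fintype_card] at this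
  calc cntL g N * den g ^ 2 ≤ F.card * (Fintype.card Q * Fintype.card Q) := by
        rw [cntL, sq]; gcongr
    _ ≤ (XF (N + 2 * R)).card := h1
    _ ≤ 9 * (N + 2 * R) ^ 4 := card_XF_le _

end Pool.Agent.KS6_56.Tri
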