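import Pool.Agent.KS6_56.Tri.Cases

/-!
The lower bound for the number of Gram data of all forms except `x² + y²` and `x² ± x y + y²`.
-/

namespace Pool.Agent.KS6_56.Tri

open Finset Filter Topology

theorem no_sol_small {n : ℤ} (hn : 6 ≤ n) (hev : n % 2 = 0) {m : ℕ} (hm : 2 ≤ m)
    (h : ∃ x, IsSol 1 n m x) : 4 ≤ m := by
  obtain ⟨⟨x, y⟩, h1, h2⟩ := h
  simp only at h1 h2
  by_contra hcon
  have hm' : m = 2 ∨ m = 3 := by omega
  have e : (2 * x + y) ^ 2 + (4 * n - 1) * y ^ 2 = 4 * (m : ℤ) ^ 2 := by linear_combination 4 * h1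
  have hy0 : y ≠ 0 := by
    rintro rfl
    have hx : x ^ 2 = (m : ℤ) ^ 2 := by linarith
    rw [isCoprime_zero_right, Int.isUnit_iff] at h2
    rcases h2 with h | h <;> subst h <;> rcases hm' with h | h <;> subst h <;> norm_num at hx
  have hy2 : y ^ 2 = 1 := by
    have h3 : 1 ≤ y ^ 2 := by have := sq_pos_of_ne_zero hy0; omega
    by_contra h4
    have h5 : 4 ≤ y ^ 2 := by
      have : y ≤ -2 ∨ 2 ≤ y := by
        by_contra hc
        push Not at hc
        have : y = -1 ∨ y = 0 ∨ y = 1 := by omega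
        rcases this with h | h | h <;> subst h <;> simp at h4 h3
      rcases this with h | h <;> nlinarith
    have h6 : 4 * (m : ℤ) ^ 2 ≤ 36 := by rcases hm' with h | h <;> subst h <;> norm_num
    nlinarith [sq_nonneg (2 * x + y)]
  rw [hy2] at e
  have h7 : n ≤ 9 := by
    have h6 : 4 * (m : ℤ) ^ 2 ≤ 36 := by rcases hm' with h | h <;> subst h <;> norm_num
    nlinarith [sq_nonneg (2 * x + y)]
  have h8 : n = 6 ∨ n = 8 := by omega
  have h9 : 2 * x + y ≤ 4 ∧ -4 ≤ 2 * x + y := by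
    have h6 : 4 * (m : ℤ) ^ 2 ≤ 36 := by rcases hm' with h | h <;> subst h <;> norm_num
    constructor
    · nlinarith [sq_nonneg (2 * x + y - 4)]
    · nlinarith [sq_nonneg (2 * x + y + 4)]
  obtain ⟨h9, h10⟩ := h9
  generalize 2 * x + y = w at *
  rcases h8 with h | h <;> subst h <;> rcases hm' with h | h <;> subst h <;>
    interval_cases w <;> norm_num at e

theorem sums_bound {q : Form} (hq : q.Pos) (s : Finset (Rot q)) :
    ∑ g ∈ s, 1 / hgt g ^ 2 ≤ 4 := by
  classical
  by_cases hex : ∃ g ∈ Rot q, g.c ≠ 0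
  swap
  · -- only plus and minus the identity
    push Not at hex
    have h1 : s.card ≤ 2 := by
      have : s.card = (s.image (fun g : Rot q => g.1)).card := by
        rw [card_image_of_injective _ Subtype.val_injective]
      rw [this]
      refine (card_le_card (t := {RM.one, RM.neg}) ?_).trans (card_le_two)
      intro x hx
      obtain ⟨g, _, rfl⟩ := mem_image.1 hx
      simpa using eq_one_or_neg hq g.2 (hex g g.2)
    have h2 : ∑ g ∈ s, 1 / hgt g ^ 2 ≤ ∑ g ∈ s, (1 : ℝ) := by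
      apply sum_le_sum
      intro g _
      have : 1 ≤ hgt g := (one_le_den g).trans (den_le_hgt g)
      have h4 : 1 / hgt g ^ 2 ≤ 1 / 1 ^ 2 := by gcongr
      linarith
    have h3 : (s.card : ℝ) ≤ 2 := by exact_mod_cast h1
    rw [sum_const, nsmul_eq_mul, mul_one] at h2
    linarith
  obtain ⟨t, n, ht, hpos, hF, κ, hinj, hκ⟩ := exists_kappa hq hex
  have hpi := pi_sq_lt
  have hpi0 : 0 < Real.pi ^ 2 := by have := Real.pi_pos; positivity
  by_cases h4 : 4 < 4 * n - t ^ 2
  · -- two units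
    have key : ∀ σ : ℝ, σ ≤ 1 → (∀ M : Finset ℕ, (∀ m ∈ M, 2 ≤ m ∧ ∃ x, IsSol t n m x) →
        ∑ m ∈ M, (m.divisors.card : ℝ) / (m : ℝ) ^ 2 ≤ σ) → ∑ g ∈ s, 1 / hgt g ^ 2 ≤ 4 := by
      intro σ hσ hM
      have := finite_sum_le hF {(1, 0), (-1, 0)} (units_gen h4) κ hinj hκ σ hM s
      have hc : (({(1, 0), (-1, 0)} : Finset (ℤ × ℤ)).card : ℝ) = 2 := by norm_num
      rw [hc] at this
      linarith
    by_cases h2 : ∀ z : ℤ, ¬ (((2 : ℕ) : ℤ) ^ 2 ∣ z ^ 2 + t * z + n)
    · apply key (Z 2 ^ 2 - 1)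
      · rw [Z_two]; nlinarith
      · intro M hM
        apply sum_divisors_le'
        intro m hm
        exact ⟨(hM m hm).1, coprime_of_bad Nat.prime_two (not_dvd_of_sol (hM m hm).1 h2 (hM m hm).2)⟩
    · -- two splits
      have ht1 : t = 1 ∧ n % 2 = 0 := by
        rcases ht with h | h
        · exfalso
          apply h2
          apply hF 2 Nat.prime_two
          subst h; push_cast; omega
        · refine ⟨h, ?_⟩
          by_contra hn
          apply h2
          intro z hz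
          subst h
          have h5 : (2 : ℤ) ∣ z ^ 2 + 1 * z + n := (by norm_num : (2 : ℤ) ∣ ((2 : ℕ) : ℤ) ^ 2).trans hz
          have h6 : (2 : ℤ) ∣ z * (z + 1) := (Int.even_mul_succ_self z).two_dvd
          have h7 : (2 : ℤ) ∣ n := by
            have : n = (z ^ 2 + 1 * z + n) - z * (z + 1) := by ring
            rw [this]; exact dvd_sub h5 h6
          omega
      obtain ⟨ht1, hn⟩ := ht1
      subst ht1
      have hn2 : 2 ≤ n := by omega
      by_cases h6 : 6 ≤ n
      · apply key (Z 1 ^ 2 - 1 - 1 / 2 - 2 / 9)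
        · rw [Z_one]; nlinarith
        · intro M hM
          apply sum_divisors_le''
          intro m hm
          exact no_sol_small h6 hn (hM m hm).1 (hM m hm).2
      · have h35 : (∀ z : ℤ, ¬ (((3 : ℕ) : ℤ) ^ 2 ∣ z ^ 2 + 1 * z + n)) ∧
            (∀ z : ℤ, ¬ (((5 : ℕ) : ℤ) ^ 2 ∣ z ^ 2 + 1 * z + n)) := by
          have : n = 2 ∨ n = 4 := by omega
          rcases this with h | h <;> subst h <;> constructor <;> apply bad_of_zmod <;> decide
        apply key (Z 15 ^ 2 - 1)
        · rw [Z_fifteen]; nlinarith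
        · intro M hM
          apply sum_divisors_le'
          intro m hm
          refine ⟨(hM m hm).1, ?_⟩
          have c3 := coprime_of_bad Nat.prime_three
            (not_dvd_of_sol (hM m hm).1 h35.1 (hM m hm).2)
          have c5 := coprime_of_bad Nat.prime_five
            (not_dvd_of_sol (hM m hm).1 h35.2 (hM m hm).2)
          exact Nat.Coprime.mul_right c3 c5
  · have hcase : (t = 0 ∧ n = 1) ∨ (t = 1 ∧ n = 1) := by
      rcases ht with h | h <;> subst h <;> omega
    rcases hcase with ⟨h, h'⟩ | ⟨h, h'⟩ <;> subst h <;> subst h'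
    · have b2 : ∀ z : ℤ, ¬ (((2 : ℕ) : ℤ) ^ 2 ∣ z ^ 2 + 0 * z + 1) := by
        apply bad_of_zmod; decide
      have b3 : ∀ z : ℤ, ¬ (((3 : ℕ) : ℤ) ^ 2 ∣ z ^ 2 + 0 * z + 1) := by
        apply bad_of_zmod; decide
      have := finite_sum_le hF {(1, 0), (-1, 0), (0, 1), (0, -1)} units_i κ hinj hκ (Z 6 ^ 2 - 1)
        (by
          intro M hM
          apply sum_divisors_le'
          intro m hm
          refine ⟨(hM m hm).1, ?_⟩
          have c2 := coprime_of_bad Nat.prime_two (not_dvd_of_sol (hM m hm).1 b2 (hM m hm).2)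
          have c3 := coprime_of_bad Nat.prime_three (not_dvd_of_sol (hM m hm).1 b3 (hM m hm).2)
          exact Nat.Coprime.mul_right c2 c3) s
      have hc : (({(1, 0), (-1, 0), (0, 1), (0, -1)} : Finset (ℤ × ℤ)).card : ℝ) = 4 := by
        have : ({(1, 0), (-1, 0), (0, 1), (0, -1)} : Finset (ℤ × ℤ)).card = 4 := by decide
        rw [this]; norm_num
      rw [hc, Z_six] at this
      nlinarith
    · have b2 : ∀ z : ℤ, ¬ (((2 : ℕ) : ℤ) ^ 2 ∣ z ^ 2 + 1 * z + 1) := by
        apply bad_of_zmod; decide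
      have b3 : ∀ z : ℤ, ¬ (((3 : ℕ) : ℤ) ^ 2 ∣ z ^ 2 + 1 * z + 1) := by
        apply bad_of_zmod; decide
      have b5 : ∀ z : ℤ, ¬ (((5 : ℕ) : ℤ) ^ 2 ∣ z ^ 2 + 1 * z + 1) := by
        apply bad_of_zmod; decide
      have := finite_sum_le hF {(1, 0), (-1, 0), (0, 1), (0, -1), (1, -1), (-1, 1)} units_w κ hinj hκ
        (Z 30 ^ 2 - 1)
        (by
          intro M hM
          apply sum_divisors_le'
          intro m hm
          refine ⟨(hM m hm).1, ?_⟩
          have c2 := coprime_of_bad Nat.prime_two (not_dvd_of_sol (hM m hm).1 b2 (hM m hm).2)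
          have c3 := coprime_of_bad Nat.prime_three (not_dvd_of_sol (hM m hm).1 b3 (hM m hm).2)
          have c5 := coprime_of_bad Nat.prime_five (not_dvd_of_sol (hM m hm).1 b5 (hM m hm).2)
          exact Nat.Coprime.mul_right (Nat.Coprime.mul_right c2 c3) c5) s
      have hc : (({(1, 0), (-1, 0), (0, 1), (0, -1), (1, -1), (-1, 1)} : Finset (ℤ × ℤ)).card : ℝ) = 6 := by
        have : ({(1, 0), (-1, 0), (0, 1), (0, -1), (1, -1), (-1, 1)} : Finset (ℤ × ℤ)).card = 6 := by decide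
        rw [this]; norm_num
      rw [hc, Z_thirty] at this
      nlinarith

/-- not a multiple of `x² + y²` or `x² ± x y + y²` -/
def Form.Gen (q : Form) : Prop := ¬ (q.A = q.C ∧ (q.B = 0 ∨ q.B = q.A ∨ q.B = -q.A))

theorem large_entry {q : Form} (hq : q.Pos) (hns : q.Gen) {g : RM} (hg : g ∈ Rot q)
    (h1 : ¬ (g = RM.one ∨ g = RM.neg)) {a b c d : ℤ} (ha : g.a = a) (hb : g.b = b) (hc : g.c = c)
    (hd : g.d = d) : 2 ≤ |b| ∨ 2 ≤ |c| := by
  by_contra hcon
  push Not at hcon
  obtain ⟨hb1, hc1⟩ := hcon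
  have hc0 : c ≠ 0 := by
    intro h
    apply h1
    apply eq_one_or_neg hq hg
    rw [hc, h]; simp
  obtain ⟨e1, e2⟩ := rot_eqs hg
  rw [ha, hc, hd] at e1
  rw [hb, hc] at e2
  push_cast at e1 e2
  have e0 : a * d - b * c = 1 := by
    have := hg.1
    rw [ha, hb, hc, hd] at this
    exact_mod_cast this
  have hA := hq.1
  have hC : 0 < q.C := by
    have := hq.2
    nlinarith [sq_nonneg q.B]
  have hc2 : c = 1 ∨ c = -1 := by rw [abs_lt] at hc1; omega
  have hb2 : b = -1 ∨ b = 0 ∨ b = 1 := by rw [abs_lt] at hb1; omega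
  have hbc : b = -c ∧ q.A = q.C := by
    rcases hc2 with h | h
    · subst h
      rcases hb2 with h | h | h
      · subst h; push_cast at e2; exact ⟨rfl, by linarith⟩
      · subst h; push_cast at e2; exfalso; linarith
      · subst h; push_cast at e2; exfalso; linarith
    · subst h
      rcases hb2 with h | h | h
      · subst h; push_cast at e2; exfalso; linarith
      · subst h; push_cast at e2; exfalso; linarith
      · subst h; push_cast at e2; exact ⟨by norm_num, by linarith⟩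
  obtain ⟨hbc, hAC⟩ := hbc
  have hcc : c * c = 1 := by rcases hc2 with h | h <;> subst h <;> norm_num
  have had : a * d = 0 := by rw [hbc] at e0; linarith
  have hcr : (c : ℝ) * c = 1 := by exact_mod_cast hcc
  have hB : q.B = - (q.A * (a - d)) * c := by
    linear_combination c * e1 - q.B * hcr
  have hB2 : q.B ^ 2 = q.A ^ 2 * (a - d) ^ 2 := by
    rw [hB]; linear_combination q.A ^ 2 * (a - d : ℝ) ^ 2 * hcr
  have h5 : ((a : ℝ) - d) ^ 2 < 4 := by
    have h6 := hq.2
    rw [hB2, ← hAC] at h6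
    have hA2 : 0 < q.A ^ 2 := by positivity
    have : q.A ^ 2 * (a - d : ℝ) ^ 2 < q.A ^ 2 * 4 := by linarith
    exact lt_of_mul_lt_mul_left this hA2.le
  have h6 : (a - d) ^ 2 < 4 := by exact_mod_cast h5
  have h7 : a - d = -1 ∨ a - d = 0 ∨ a - d = 1 := by
    have h8 : a - d < 2 := by nlinarith
    have h9 : -2 < a - d := by nlinarith
    omega
  apply hns
  refine ⟨hAC, ?_⟩
  have h7r : ((a : ℝ) - d = -1) ∨ ((a : ℝ) - d = 0) ∨ ((a : ℝ) - d = 1) := by
    rcases h7 with h | h | h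
    · left; exact_mod_cast h
    · right; left; exact_mod_cast h
    · right; right; exact_mod_cast h
  rcases hc2 with h | h <;> subst h <;> rcases h7r with h | h | h <;> rw [h] at hB <;>
    push_cast at hB <;> ring_nf at hB <;> simp [hB]

theorem exists_cnt_le {q : Form} (hq : q.Pos) (hns : q.Gen) (g : Rot q) :
    ∃ R : ℕ, ∀ N : ℕ, (cnt g N : ℝ) * hgt g ^ 2 ≤ 9 * ((N : ℝ) + R) ^ 4 := by
  obtain ⟨R, hR⟩ := exists_cntL_le g
  have hden : ∀ N : ℕ, (cnt g N : ℝ) * (den g : ℝ) ^ 2 ≤ 9 * ((N : ℝ) + R) ^ 4 := by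
    intro N
    have h1 := hR N
    have h2 : cnt g N * den g ^ 2 ≤ cntL g N * den g ^ 2 :=
      Nat.mul_le_mul_right _ (cnt_le_cntL g N)
    exact_mod_cast h2.trans h1
  by_cases h1 : (g : RM) = RM.one ∨ (g : RM) = RM.neg
  · refine ⟨R, fun N => ?_⟩
    rw [hgt, if_pos h1]
    exact hden N
  · by_cases h2 : 2 ≤ den g
    · refine ⟨R, fun N => ?_⟩
      rw [hgt, if_neg h1, max_eq_right (by exact_mod_cast h2)]
      exact hden N
    · have hd1 : den g = 1 := by have := den_pos (g : RM); omega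
      obtain ⟨⟨p1, p2⟩, hp1, hp2⟩ := den_smul_mem g (1, 0)
      obtain ⟨⟨p3, p4⟩, hp3, hp4⟩ := den_smul_mem g (0, 1)
      rw [Prod.smul_fst, Prod.smul_snd, hd1] at hp1 hp2 hp3 hp4
      simp only [one_smul, mul_one, mul_zero, Int.cast_zero, add_zero, zero_add, Int.cast_one] at hp1 hp2 hp3 hp4
      have hh : hgt g = 2 := by
        rw [hgt, if_neg h1, hd1]; norm_num
      rw [hh]
      rcases large_entry hq hns g.2 h1 hp1 hp3 hp2 hp4 with h | h
      · exact ⟨p3.natAbs, fun N => by exact_mod_cast cnt_integral_b g p1 p3 hp1 hp3 h N⟩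
      · exact ⟨p2.natAbs, fun N => by exact_mod_cast cnt_integral_c g p2 p4 hp2 hp4 h N⟩

theorem sum_den {q : Form} (hq : q.Pos) : Summable (fun g : Rot q => 1 / (den g : ℝ) ^ 2) := by
  -- compare with `hgt`
  have hpos : ∀ g : Rot q, 0 < hgt g := fun g =>
    lt_of_lt_of_le one_pos ((one_le_den g).trans (den_le_hgt g))
  have hnn : ∀ g : Rot q, 0 ≤ 1 / hgt g ^ 2 := fun g => by have := hpos g; positivity
  have hsum : Summable (fun g : Rot q => 4 * (1 / hgt g ^ 2)) :=
    (summable_of_sum_le hnn (fun s => sums_bound hq s)).mul_left 4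
  refine Summable.of_nonneg_of_le (fun g => by positivity) (fun g => ?_) hsum
  have h1 := one_le_den g
  have h2 : hgt g ≤ 2 * den g := by
    rw [hgt]
    split_ifs
    · linarith
    · exact max_le (by linarith) (by linarith)
  have h3 := hpos g
  rw [mul_one_div, div_le_div_iff₀ (by positivity) (by positivity)]
  nlinarith

theorem nGram_lower {q : Form} (hq : q.Pos) (hns : q.Gen) : ∀ ε > 0, ∀ᶠ N : ℕ in atTop,
    (9 / 4 - ε) * (N : ℝ) ^ 4 ≤ nGram q N := by
  intro ε hε
  have hpos : ∀ g : Rot q, 0 < hgt g := fun g =>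
    lt_of_lt_of_le one_pos ((one_le_den g).trans (den_le_hgt g))
  have hnn : ∀ g : Rot q, 0 ≤ 1 / hgt g ^ 2 := fun g => by have := hpos g; positivity
  have hsum : Summable (fun g : Rot q => 1 / hgt g ^ 2) :=
    summable_of_sum_le hnn (fun s => sums_bound hq s)
  have hS : ∑' g : Rot q, 1 / hgt g ^ 2 ≤ 4 := Real.tsum_le_of_sum_le hnn (fun s => sums_bound hq s)
  have hev := tannery (I := Rot q) (fun g N => cnt g N) (fun g => (den g : ℝ)) (fun g => hgt g)
    (fun g => one_le_den g) (fun g => den_le_hgt g)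
    (fun g N => by
      have h1 := cntL_le g N
      have h2 : cnt g N * den g ^ 2 ≤ cntL g N * den g ^ 2 :=
        Nat.mul_le_mul_right _ (cnt_le_cntL g N)
      exact_mod_cast h2.trans h1)
    (fun g => exists_cnt_le hq hns g) (sum_den hq) 4 hS (8 * ε) (by linarith)
  filter_upwards [hev, eventually_ge_atTop ⌈34 / ε⌉₊, eventually_ge_atTop 1] with N hN hN2 hN1
  obtain ⟨F, hF1, hF2, hF3⟩ := hN
  have h1 := sum_rep_le F hF1 hF2
  have h2 := nGram_ge q N
  have h3 : 9 * (N : ℝ) ^ 4 ≤ (X0 N).card + 34 * (N : ℝ) ^ 3 := by exact_mod_cast le_card_X0 N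
  have hN0 : (1 : ℝ) ≤ N := by exact_mod_cast hN1
  have h4 : 34 ≤ ε * N := by
    have : 34 / ε ≤ N := Nat.ceil_le.1 hN2
    rwa [div_le_iff₀ hε, mul_comm] at this
  have h5 : 34 * (N : ℝ) ^ 3 ≤ ε * (N : ℝ) ^ 4 := by
    have : 34 * (N : ℝ) ^ 3 ≤ (ε * N) * (N : ℝ) ^ 3 := by gcongr
    linarith [this, (by ring : (ε * N) * (N : ℝ) ^ 3 = ε * (N : ℝ) ^ 4)]
  have h6 := h1.trans hF3
  linarith

end Pool.Agent.KS6_56.Tri
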