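import Pool.Agent.KS6_56.Tri.Count

/-!
The upper bound for the square lattice.
-/

namespace Pool.Agent.KS6_56.Tri

open Finset Filter Topology

/-- the form `x² + y²` -/
def sqForm : Form := ⟨1, 0, 1⟩

/-- the signed permutations -/
def sgn (m : Bool × Bool × Bool) (w : ℤ × ℤ) : ℤ × ℤ :=
  let e1 : ℤ := if m.2.1 then 1 else -1
  let e2 : ℤ := if m.2.2 then 1 else -1
  if m.1 then (e1 * w.2, e2 * w.1) else (e1 * w.1, e2 * w.2)

/-- the reorderings of the vertices -/
def reord (i : Fin 6) (t : TT) : TT :=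
  match i with
  | 0 => (t.1, t.2)
  | 1 => (t.2, t.1)
  | 2 => (-t.1, t.2 - t.1)
  | 3 => (t.2 - t.1, -t.1)
  | 4 => (-t.2, t.1 - t.2)
  | 5 => (t.1 - t.2, -t.2)

theorem sgn_val (m : Bool × Bool × Bool) (w : ℤ × ℤ) : sqForm.val (sgn m w) = sqForm.val w := by
  obtain ⟨s, e1, e2⟩ := m
  cases s <;> cases e1 <;> cases e2 <;> simp [sgn, sqForm, Form.val] <;> ring

theorem sgn_sub (m : Bool × Bool × Bool) (u v : ℤ × ℤ) : sgn m u - sgn m v = sgn m (u - v) := by
  obtain ⟨s, e1, e2⟩ := m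
  cases s <;> cases e1 <;> cases e2 <;> ext <;> simp [sgn] <;> ring

theorem sides_reord (q : Form) (i : Fin 6) (t : TT) : sides q (reord i t) = sides q t := by
  have h1 : ∀ x y z : ℝ, ({x, y, z} : Multiset ℝ) = x ::ₘ y ::ₘ z ::ₘ 0 := fun _ _ _ => rfl
  have hs : ∀ x y z : ℝ, ({x, y, z} : Multiset ℝ) = {y, x, z} := fun x y z =>
    Multiset.cons_swap x y _
  have hs' : ∀ x y z : ℝ, ({x, y, z} : Multiset ℝ) = {x, z, y} := by
    intro x y z
    rw [h1, h1, Multiset.cons_swap y z]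
  have e1 : -t.1 - (t.2 - t.1) = -t.2 := by ring
  have e2 : t.2 - t.1 - -t.1 = t.2 := by ring
  have e3 : -t.2 - (t.1 - t.2) = -t.1 := by ring
  have e4 : t.1 - t.2 - -t.2 = t.1 := by ring
  fin_cases i <;> simp only [reord, sides]
  · rw [hs, val_sub_comm]
  · rw [e1, val_neg, val_neg, val_sub_comm, hs']
  · rw [e2, val_neg, val_sub_comm, hs, hs']
  · rw [e3, val_neg, val_neg, hs', hs]
  · rw [e4, val_neg, hs, hs', hs]

theorem sides_sgn (m : Bool × Bool × Bool) (t : TT) :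
    sides sqForm (sgn m t.1, sgn m t.2) = sides sqForm t := by
  simp only [sides, sgn_sub, sgn_val]

theorem reord_mem {N : ℕ} {t : TT} (ht : t ∈ X0 N) (i : Fin 6) : reord i t ∈ X0 N := by
  rw [mem_X0, mem_XF'] at ht ⊢
  obtain ⟨h1, h2⟩ := ht
  obtain ⟨⟨a, b⟩, c, d⟩ := t
  simp only [det, abs_lt] at h1 h2
  fin_cases i <;> simp only [reord, det, abs_lt, Prod.fst_neg, Prod.snd_neg, Prod.fst_sub,
    Prod.snd_sub] <;> refine ⟨by omega, fun h => h2 ?_⟩ <;> linarith

theorem sgn_mem {N : ℕ} {t : TT} (ht : t ∈ X0 N) (m : Bool × Bool × Bool) :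
    ((sgn m t.1, sgn m t.2) : TT) ∈ X0 N := by
  rw [mem_X0, mem_XF'] at ht ⊢
  obtain ⟨h1, h2⟩ := ht
  obtain ⟨⟨a, b⟩, c, d⟩ := t
  obtain ⟨s, e1, e2⟩ := m
  simp only [det, abs_lt] at h1 h2
  cases s <;> cases e1 <;> cases e2 <;> simp [sgn, det, abs_lt] <;>
    refine ⟨by omega, fun h => h2 ?_⟩ <;> linarith

theorem sgn_inj {t : TT} (h0 : det t ≠ 0) {m m' : Bool × Bool × Bool}
    (h1 : sgn m t.1 = sgn m' t.1) (h2 : sgn m t.2 = sgn m' t.2) : m = m' := by
  obtain ⟨⟨a, b⟩, c, d⟩ := t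
  obtain ⟨s, e1, e2⟩ := m
  obtain ⟨s', e1', e2'⟩ := m'
  simp only [det] at h0
  have k1 : ¬ (a = 0 ∧ c = 0) := by rintro ⟨rfl, rfl⟩; simp at h0
  have k2 : ¬ (b = 0 ∧ d = 0) := by rintro ⟨rfl, rfl⟩; simp at h0
  have k3 : ¬ (a = b ∧ c = d) := by rintro ⟨rfl, rfl⟩; apply h0; ring
  have k4 : ¬ (a = -b ∧ c = -d) := by rintro ⟨rfl, rfl⟩; apply h0; ring
  cases s <;> cases e1 <;> cases e2 <;> cases s' <;> cases e1' <;> cases e2' <;>
    first
    | rfl
    | (exfalso; simp [sgn] at h1 h2; omega)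

/-- scalene -/
def Scal (q : Form) (t : TT) : Prop :=
  q.val t.1 ≠ q.val t.2 ∧ q.val t.1 ≠ q.val (t.1 - t.2) ∧ q.val t.2 ≠ q.val (t.1 - t.2)

theorem reord_inj {q : Form} {t : TT} (hs : Scal q t) {i j : Fin 6}
    (h1 : q.val (reord i t).1 = q.val (reord j t).1)
    (h2 : q.val (reord i t).2 = q.val (reord j t).2) : i = j := by
  obtain ⟨s1, s2, s3⟩ := hs
  have s4 := val_sub_comm q t.1 t.2
  fin_cases i <;> fin_cases j <;> first
    | rfl
    | (exfalso; simp only [reord, val_neg] at h1 h2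
       first
       | exact s1 (by linarith)
       | exact s2 (by linarith)
       | exact s3 (by linarith))

theorem card_scal (N : ℕ) (F : Finset TT) (hF : ∀ t ∈ F, t ∈ X0 N ∧ Scal sqForm t) [DecidableEq (Multiset ℝ)]:
    48 * (F.image (sides sqForm)).card ≤ (X0 N).card := by
  classical
  have h1 : ∀ s ∈ F.image (sides sqForm),
      48 ≤ ((X0 N).filter (fun t => sides sqForm t = s)).card := by
    intro s hs
    obtain ⟨t, ht, rfl⟩ := mem_image.1 hs
    obtain ⟨ht0, hsc⟩ := hF t ht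
    let f : Fin 6 × (Bool × Bool × Bool) → TT := fun x =>
      (sgn x.2 (reord x.1 t).1, sgn x.2 (reord x.1 t).2)
    have hinj : Function.Injective f := by
      rintro ⟨i, m⟩ ⟨j, m'⟩ h
      simp only [f, Prod.mk.injEq] at h
      have e1 := congrArg sqForm.val h.1
      have e2 := congrArg sqForm.val h.2
      rw [sgn_val, sgn_val] at e1 e2
      have := reord_inj hsc e1 e2
      subst this
      have := sgn_inj (mem_X0.1 (reord_mem ht0 i)).2 h.1 h.2
      rw [this]
    have h2 : (univ.image f).card = 48 := by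
      rw [card_image_of_injective _ hinj]
      rfl
    rw [← h2]
    apply card_le_card
    intro x hx
    obtain ⟨⟨i, m⟩, _, rfl⟩ := mem_image.1 hx
    rw [mem_filter]
    exact ⟨sgn_mem (reord_mem ht0 i) m, by simp only [f]; rw [sides_sgn, sides_reord]⟩
  have h2 : ∑ s ∈ F.image (sides sqForm), ((X0 N).filter (fun t => sides sqForm t = s)).card ≤
      (X0 N).card := by
    rw [← card_biUnion]
    · apply card_le_card
      intro x hx
      obtain ⟨s, _, hx⟩ := mem_biUnion.1 hx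
      exact (mem_filter.1 hx).1
    · intro s _ s' _ hss
      rw [Function.onFun, disjoint_left]
      intro x h1 h2
      exact hss ((mem_filter.1 h1).2.symm.trans (mem_filter.1 h2).2)
  calc 48 * (F.image (sides sqForm)).card = ∑ s ∈ F.image (sides sqForm), 48 := by
        rw [sum_const, smul_eq_mul, mul_comm]
    _ ≤ _ := sum_le_sum h1
    _ ≤ _ := h2

/-- isosceles with apex at the origin -/
theorem card_iso (N : ℕ) : ((X0 N).filter (fun t => t.1.1 ^ 2 + t.1.2 ^ 2 = t.2.1 ^ 2 + t.2.2 ^ 2)).card ≤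
    16 * N ^ 3 := by
  classical
  have hcard : (Ioo (-(N : ℤ)) N).card ≤ 2 * N := by
    rw [Int.card_Ioo]; omega
  let I := Ioo (-(N : ℤ)) N
  let f : TT → ℤ × ℤ × ℤ × Bool := fun t => (t.1.1, t.1.2, t.2.1, decide (0 ≤ t.2.2))
  have hinj : Set.InjOn f
      ((X0 N).filter (fun t => t.1.1 ^ 2 + t.1.2 ^ 2 = t.2.1 ^ 2 + t.2.2 ^ 2) : Finset TT) := by
    rintro ⟨⟨a, b⟩, ⟨c, d⟩⟩ h1 ⟨⟨a', b'⟩, ⟨c', d'⟩⟩ h2 h
    rw [Finset.mem_coe, mem_filter] at h1 h2
    have e1 := h1.2
    have e2 := h2.2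
    simp only [f, Prod.mk.injEq, decide_eq_decide] at h e1 e2
    obtain ⟨rfl, rfl, rfl, h⟩ := h
    have e3 : d ^ 2 = d' ^ 2 := by linarith
    rcases sq_eq_sq_iff_eq_or_eq_neg.1 e3 with e | e
    · rw [e]
    · have : d = d' := by omega
      rw [this]
  have hmaps : ∀ t ∈ (X0 N).filter (fun t => t.1.1 ^ 2 + t.1.2 ^ 2 = t.2.1 ^ 2 + t.2.2 ^ 2),
      f t ∈ I ×ˢ I ×ˢ I ×ˢ (Finset.univ : Finset Bool) := by
    rintro ⟨⟨a, b⟩, ⟨c, d⟩⟩ h
    simp only [mem_filter, mem_X0, mem_XF', abs_lt] at h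
    simp only [f, mem_product, I, mem_Ioo, mem_univ, and_true]
    omega
  calc _ ≤ (I ×ˢ I ×ˢ I ×ˢ (Finset.univ : Finset Bool)).card := card_le_card_of_injOn f hmaps hinj
    _ = I.card * (I.card * (I.card * 2)) := by
        rw [card_product, card_product, card_product]; simp
    _ ≤ (2 * N) * ((2 * N) * ((2 * N) * 2)) := by gcongr
    _ = 16 * N ^ 3 := by ring

/-- the upper bound for the square lattice -/
theorem numS_sq_le (N : ℕ) : (numS sqForm N : ℝ) ≤ 3 / 16 * (N : ℝ) ^ 4 + 16 * (N : ℝ) ^ 3 := by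
  classical
  let F := (X0 N).filter (fun t => Scal sqForm t)
  let E := (X0 N).filter (fun t => t.1.1 ^ 2 + t.1.2 ^ 2 = t.2.1 ^ 2 + t.2.2 ^ 2)
  have hsub : (X0 N).image (sides sqForm) ⊆ F.image (sides sqForm) ∪ E.image (sides sqForm) := by
    intro s hs
    obtain ⟨t, ht, rfl⟩ := mem_image.1 hs
    rw [mem_union]
    by_cases hsc : Scal sqForm t
    · left
      exact mem_image_of_mem _ (mem_filter.2 ⟨ht, hsc⟩)
    · right
      have hval : ∀ u v : ℤ × ℤ, sqForm.val u = sqForm.val v →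
          u.1 ^ 2 + u.2 ^ 2 = v.1 ^ 2 + v.2 ^ 2 := by
        intro u v h
        simp only [Form.val, sqForm, one_mul, zero_mul, add_zero] at h
        exact_mod_cast h
      have key : ∀ i : Fin 6, sqForm.val (reord i t).1 = sqForm.val (reord i t).2 →
          sides sqForm t ∈ E.image (sides sqForm) := by
        intro i hi
        rw [← sides_reord sqForm i t]
        exact mem_image_of_mem _ (mem_filter.2 ⟨reord_mem ht i, hval _ _ hi⟩)
      have h3 : sqForm.val t.1 = sqForm.val t.2 ∨ sqForm.val t.1 = sqForm.val (t.1 - t.2) ∨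
          sqForm.val t.2 = sqForm.val (t.1 - t.2) := by
        by_contra hc
        push Not at hc
        exact hsc hc
      rcases h3 with h | h | h
      · exact key 0 h
      · apply key 2
        simp only [reord, val_neg]
        rw [h, val_sub_comm]
      · apply key 4
        simp only [reord, val_neg]
        exact h
  have h1 := card_scal N F (fun t ht => mem_filter.1 ht)
  have h2 := card_iso N
  have h3 := card_X0_le N
  have h4 : numS sqForm N ≤ (F.image (sides sqForm)).card + E.card := by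
    rw [numS]
    refine (card_le_card hsub).trans ((card_union_le _ _).trans ?_)
    gcongr
    exact card_image_le
  have h5 : 48 * numS sqForm N ≤ 9 * N ^ 4 + 48 * (16 * N ^ 3) := by
    calc 48 * numS sqForm N ≤ 48 * ((F.image (sides sqForm)).card + E.card) := by gcongr
      _ = 48 * (F.image (sides sqForm)).card + 48 * E.card := by ring
      _ ≤ 9 * N ^ 4 + 48 * (16 * N ^ 3) :=
          Nat.add_le_add (h1.trans h3) (Nat.mul_le_mul_left _ h2)
  have h6 : 48 * (numS sqForm N : ℝ) ≤ 9 * (N : ℝ) ^ 4 + 48 * (16 * (N : ℝ) ^ 3) := by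
    exact_mod_cast h5
  linarith

end Pool.Agent.KS6_56.Tri
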