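import Pool.Agent.KS6_56.Tri.Defs
import Pool.Agent.KS6_56.Tri.Square

/-!
The number of distinct triangles of a lattice section in terms of the Gram form.
-/

namespace Pool.Agent.KS6_56.Tri

open Finset Filter Topology

theorem CongrSets.refl (S : Set Plane) : CongrSets S S := ⟨IsometryEquiv.refl _, Set.image_id S⟩

theorem CongrSets.symm {S S' : Set Plane} (h : CongrSets S S') : CongrSets S' S := by
  obtain ⟨φ, rfl⟩ := h
  refine ⟨φ.symm, ?_⟩
  rw [← Set.image_comp]
  simp

theorem CongrSets.trans {S S' S'' : Set Plane} (h : CongrSets S S') (h' : CongrSets S' S'') :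
    CongrSets S S'' := by
  obtain ⟨φ, rfl⟩ := h
  obtain ⟨ψ, rfl⟩ := h'
  refine ⟨φ.trans ψ, ?_⟩
  rw [← Set.image_comp]
  rfl

theorem congrClass_eq_iff {S S' : Set Plane} : congrClass S = congrClass S' ↔ CongrSets S S' := by
  constructor
  · intro h
    have : S' ∈ congrClass S' := CongrSets.refl S'
    rw [← h] at this
    exact this
  · intro h
    ext T
    exact ⟨fun h' => h.symm.trans h', fun h' => h.trans h'⟩

/-- the lattice points -/
noncomputable def pt (a b : Plane) (w : ℤ × ℤ) : Plane := (w.1 : ℝ) • a + (w.2 : ℝ) • b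

theorem pt_sub (a b : Plane) (w w' : ℤ × ℤ) : pt a b (w - w') = pt a b w - pt a b w' := by
  simp only [pt, Prod.fst_sub, Prod.snd_sub]; push_cast; module

theorem pt_add (a b : Plane) (w w' : ℤ × ℤ) : pt a b (w + w') = pt a b w + pt a b w' := by
  simp only [pt, Prod.fst_add, Prod.snd_add]; push_cast; module

theorem pt_neg (a b : Plane) (w : ℤ × ℤ) : pt a b (-w) = -pt a b w := by
  simp only [pt, Prod.fst_neg, Prod.snd_neg]; push_cast; module

/-- the triangles with a vertex at the origin -/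
def tri3 (a b : Plane) (t : TT) : Set Plane := {0, pt a b t.1, pt a b t.2}

/-- the Gram form -/
noncomputable def formOf (a b : Plane) : Form := ⟨‖a‖ ^ 2, 2 * inner ℝ a b, ‖b‖ ^ 2⟩

theorem val_formOf (a b : Plane) (w : ℤ × ℤ) : (formOf a b).val w = ‖pt a b w‖ ^ 2 := by
  rw [pt, norm_add_sq_real, norm_smul, norm_smul, real_inner_smul_left, real_inner_smul_right,
    mul_pow, mul_pow, Real.norm_eq_abs, Real.norm_eq_abs, sq_abs, sq_abs]
  simp only [Form.val, formOf]
  ring

theorem formOf_pos {a b : Plane} (h : LinearIndependent ℝ ![a, b]) : (formOf a b).Pos := by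
  rw [LinearIndependent.pair_iff] at h
  have ha : a ≠ 0 := by
    rintro rfl
    have := h 1 0 (by simp)
    simp at this
  have ha' : 0 < ‖a‖ ^ 2 := by have := norm_pos_iff.2 ha; positivity
  refine ⟨ha', ?_⟩
  simp only [formOf]
  have h1 : (inner ℝ a b : ℝ) • a - (‖a‖ ^ 2) • b ≠ 0 := by
    intro h0
    have := h (inner ℝ a b) (-(‖a‖ ^ 2)) (by rw [neg_smul, ← sub_eq_add_neg]; exact h0)
    linarith [this.2]
  have h2 : 0 < ‖(inner ℝ a b : ℝ) • a - (‖a‖ ^ 2) • b‖ ^ 2 := by
    have := norm_pos_iff.2 h1; positivity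
  rw [norm_sub_sq_real, norm_smul, norm_smul, real_inner_smul_left, real_inner_smul_right,
    mul_pow, mul_pow, Real.norm_eq_abs, Real.norm_eq_abs, sq_abs, sq_abs] at h2
  have h3 : 0 < ‖a‖ ^ 2 * (‖a‖ ^ 2 * ‖b‖ ^ 2 - (inner ℝ a b : ℝ) ^ 2) := by
    refine lt_of_lt_of_eq h2 ?_
    ring
  have := (pos_iff_pos_of_mul_pos h3).1 ha'
  linarith

theorem exists_isometry {U V U' V' : Plane} (h : LinearIndependent ℝ ![U, V])
    (h1 : ‖U‖ ^ 2 = ‖U'‖ ^ 2) (h2 : ‖V‖ ^ 2 = ‖V'‖ ^ 2) (h3 : ‖U - V‖ ^ 2 = ‖U' - V'‖ ^ 2) :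
    ∃ φ : Plane ≃ᵢ Plane, φ 0 = 0 ∧ φ U = U' ∧ φ V = V' := by
  have hcard : Fintype.card (Fin 2) = Module.finrank ℝ Plane := by simp
  let B := basisOfLinearIndependentOfCardEqFinrank h hcard
  have hB : ∀ i, B i = (![U, V] : Fin 2 → Plane) i := by
    intro i
    simp [B]
  let f : Plane →ₗ[ℝ] Plane := B.constr ℝ ![U', V']
  have hf : ∀ i, f (B i) = (![U', V'] : Fin 2 → Plane) i := fun i => B.constr_basis ℝ _ i
  have hf0 : f U = U' := by
    have := hf 0
    rwa [hB] at this
  have hf1 : f V = V' := by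
    have := hf 1
    rwa [hB] at this
  have hin : inner ℝ U V = inner ℝ U' V' := by
    rw [norm_sub_sq_real, norm_sub_sq_real] at h3
    linarith
  have hnorm : ∀ x, ‖f x‖ = ‖x‖ := by
    intro x
    have hx : x = B.repr x 0 • U + B.repr x 1 • V := by
      conv_lhs => rw [← B.sum_repr x]
      rw [Fin.sum_univ_two, hB, hB]
      rfl
    have hfx : f x = B.repr x 0 • U' + B.repr x 1 • V' := by
      conv_lhs => rw [hx]
      rw [map_add, map_smul, map_smul, hf0, hf1]
    have hsq : ‖f x‖ ^ 2 = ‖x‖ ^ 2 := by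
      rw [hfx]
      conv_rhs => rw [hx]
      rw [norm_add_sq_real, norm_add_sq_real]
      simp only [norm_smul, real_inner_smul_left, real_inner_smul_right, mul_pow]
      rw [h1, h2, hin]
    have := (sq_eq_sq₀ (norm_nonneg _) (norm_nonneg _)).1 hsq
    exact this
  let g : Plane →ₗᵢ[ℝ] Plane := ⟨f, hnorm⟩
  refine ⟨(g.toLinearIsometryEquiv rfl).toIsometryEquiv, ?_, hf0, hf1⟩
  exact map_zero (g.toLinearIsometryEquiv rfl)

theorem congr_translate (x y z c : Plane) : CongrSets {x, y, z} {x + c, y + c, z + c} := by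
  refine ⟨IsometryEquiv.addRight c, ?_⟩
  simp [Set.image_insert_eq, Set.image_singleton]

theorem insert_swap3 (x y z : Plane) : ({x, y, z} : Set Plane) = {y, x, z} := Set.insert_comm x y _

theorem insert_swap3' (x y z : Plane) : ({x, y, z} : Set Plane) = {x, z, y} := by
  rw [Set.pair_comm]

theorem congr_reord (a b : Plane) (i : Fin 6) (t : TT) :
    CongrSets (tri3 a b t) (tri3 a b (reord i t)) := by
  have h1 := congr_translate 0 (pt a b t.1) (pt a b t.2) (-pt a b t.1)
  have h2 := congr_translate 0 (pt a b t.1) (pt a b t.2) (-pt a b t.2)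
  rw [zero_add, add_neg_cancel, ← sub_eq_add_neg] at h1 h2
  fin_cases i <;> simp only [reord, tri3, pt_neg, pt_sub]
  · exact CongrSets.refl _
  · rw [insert_swap3' 0 (pt a b t.2)]
    exact CongrSets.refl _
  · rw [insert_swap3 0 (-pt a b t.1)]
    exact h1
  · rw [insert_swap3' 0 (pt a b t.2 - pt a b t.1), insert_swap3 0 (-pt a b t.1)]
    exact h1
  · rw [insert_swap3 0 (-pt a b t.2), insert_swap3' (-pt a b t.2)]
    exact h2
  · rw [insert_swap3' 0 (pt a b t.1 - pt a b t.2), insert_swap3 0 (-pt a b t.2),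
      insert_swap3' (-pt a b t.2)]
    exact h2

/-- independence -/
theorem li_pt {a b : Plane} (h : LinearIndependent ℝ ![a, b]) {t : TT} (ht : det t ≠ 0) :
    LinearIndependent ℝ ![pt a b t.1, pt a b t.2] := by
  rw [LinearIndependent.pair_iff] at h ⊢
  intro r s hrs
  have h1 := h (r * t.1.1 + s * t.2.1) (r * t.1.2 + s * t.2.2) (by
    rw [← hrs]; simp only [pt]; module)
  have hd : (det t : ℝ) ≠ 0 := by exact_mod_cast ht
  have hd' : (det t : ℝ) = t.1.1 * t.2.2 - t.1.2 * t.2.1 := by simp [det]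
  obtain ⟨k1, k2⟩ := h1
  constructor
  · have : r * (det t : ℝ) = 0 := by
      rw [hd']; linear_combination (t.2.2 : ℝ) * k1 - (t.2.1 : ℝ) * k2
    exact (mul_eq_zero.1 this).resolve_right hd
  · have : s * (det t : ℝ) = 0 := by
      rw [hd']; linear_combination (t.1.1 : ℝ) * k2 - (t.1.2 : ℝ) * k1
    exact (mul_eq_zero.1 this).resolve_right hd

theorem sides_eq_dist (a b : Plane) (t : TT) : sides (formOf a b) t =
    {dist 0 (pt a b t.1) ^ 2, dist 0 (pt a b t.2) ^ 2, dist (pt a b t.1) (pt a b t.2) ^ 2} := by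
  rw [sides, val_formOf, val_formOf, val_formOf, pt_sub, dist_eq_norm, dist_eq_norm, dist_eq_norm,
    zero_sub, zero_sub, norm_neg, norm_neg]

theorem congr_iff {a b : Plane} (h : LinearIndependent ℝ ![a, b]) {t t' : TT} (ht : det t ≠ 0)
    (ht' : det t' ≠ 0) : CongrSets (tri3 a b t) (tri3 a b t') ↔
      sides (formOf a b) t = sides (formOf a b) t' := by
  constructor
  · rintro ⟨φ, hφ⟩
    have l1 := li_pt h ht
    have l2 := li_pt h ht'
    rw [LinearIndependent.pair_iff] at l1 l2
    have n1 : (0 : Plane) ≠ pt a b t'.1 := by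
      intro h0
      have := l2 1 0 (by rw [← h0]; simp)
      simp at this
    have n2 : (0 : Plane) ≠ pt a b t'.2 := by
      intro h0
      have := l2 0 1 (by rw [← h0]; simp)
      simp at this
    have n3 : pt a b t'.1 ≠ pt a b t'.2 := by
      intro h0
      have := l2 1 (-1) (by rw [← h0]; simp)
      simp at this
    rw [tri3, tri3, Set.image_insert_eq, Set.image_insert_eq, Set.image_singleton] at hφ
    have m0 : (0 : Plane) ∈ ({φ 0, φ (pt a b t.1), φ (pt a b t.2)} : Set Plane) := by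
      rw [hφ]; simp
    have m1 : pt a b t'.1 ∈ ({φ 0, φ (pt a b t.1), φ (pt a b t.2)} : Set Plane) := by
      rw [hφ]; simp
    have m2 : pt a b t'.2 ∈ ({φ 0, φ (pt a b t.1), φ (pt a b t.2)} : Set Plane) := by
      rw [hφ]; simp
    simp only [Set.mem_insert_iff, Set.mem_singleton_iff] at m0 m1 m2
    have hs : ∀ x y z : ℝ, ({x, y, z} : Multiset ℝ) = {y, x, z} := fun x y z =>
      Multiset.cons_swap x y _
    have h1 : ∀ x y z : ℝ, ({x, y, z} : Multiset ℝ) = x ::ₘ y ::ₘ z ::ₘ 0 := fun _ _ _ => rfl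
    have hs' : ∀ x y z : ℝ, ({x, y, z} : Multiset ℝ) = {x, z, y} := by
      intro x y z
      rw [h1, h1, Multiset.cons_swap y z]
    have d : ∀ x y, dist (φ x) (φ y) = dist x y := fun x y => φ.isometry.dist_eq x y
    have key : ∀ X Y Z A0 A1 A2 : Plane, X = φ A0 → Y = φ A1 → Z = φ A2 →
        ({dist X Y ^ 2, dist X Z ^ 2, dist Y Z ^ 2} : Multiset ℝ) =
          {dist A0 A1 ^ 2, dist A0 A2 ^ 2, dist A1 A2 ^ 2} := by
      rintro _ _ _ A0 A1 A2 rfl rfl rfl
      rw [d, d, d]
    rw [sides_eq_dist, sides_eq_dist]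
    set U := pt a b t.1
    set V := pt a b t.2
    rcases m0 with m0 | m0 | m0 <;> rcases m1 with m1 | m1 | m1 <;> rcases m2 with m2 | m2 | m2 <;>
      first
      | exact absurd (m0.trans m1.symm) n1
      | exact absurd (m0.trans m2.symm) n2
      | exact absurd (m1.trans m2.symm) n3
      | rw [key _ _ _ _ _ _ m0 m1 m2]
    all_goals
      simp only [dist_comm U 0, dist_comm V 0, dist_comm V U]
      first
      | exact hs _ _ _
      | exact hs' _ _ _
      | exact (hs _ _ _).trans (hs' _ _ _)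
      | exact (hs' _ _ _).trans (hs _ _ _)
      | exact ((hs _ _ _).trans (hs' _ _ _)).trans (hs _ _ _)
  · intro he
    have main : ∀ i : Fin 6, (formOf a b).val t.1 = (formOf a b).val (reord i t').1 →
        (formOf a b).val t.2 = (formOf a b).val (reord i t').2 →
        (formOf a b).val (t.1 - t.2) = (formOf a b).val ((reord i t').1 - (reord i t').2) →
        CongrSets (tri3 a b t) (tri3 a b t') := by
      intro i e1 e2 e3
      rw [val_formOf, val_formOf] at e1 e2 e3
      rw [pt_sub, pt_sub] at e3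
      obtain ⟨φ, f0, f1, f2⟩ := exists_isometry (li_pt h ht) e1 e2 e3
      refine CongrSets.trans ⟨φ, ?_⟩ (congr_reord a b i t').symm
      rw [tri3, tri3, Set.image_insert_eq, Set.image_insert_eq, Set.image_singleton, f0, f1, f2]
    have c1 := val_sub_comm (formOf a b) t'.1 t'.2
    have r2 : (reord 2 t').1 - (reord 2 t').2 = -t'.2 := by simp only [reord]; ring
    have r3 : (reord 3 t').1 - (reord 3 t').2 = t'.2 := by simp only [reord]; ring
    have r4 : (reord 4 t').1 - (reord 4 t').2 = -t'.1 := by simp only [reord]; ring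
    have r5 : (reord 5 t').1 - (reord 5 t').2 = t'.1 := by simp only [reord]; ring
    rcases triple_eq he with ⟨k1, k2, k3⟩ | ⟨k1, k2, k3⟩ | ⟨k1, k2, k3⟩ | ⟨k1, k2, k3⟩ | ⟨k1, k2, k3⟩ |
      ⟨k1, k2, k3⟩
    · exact main 0 k1 k2 k3
    · exact main 1 k1 k2 (k3.trans c1)
    · apply main 2
      · simp only [reord, val_neg]; exact k1
      · simp only [reord]; exact k2.trans c1
      · rw [r2, val_neg]; exact k3
    · apply main 3
      · simp only [reord]; exact k1.trans c1
      · simp only [reord, val_neg]; exact k2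
      · rw [r3]; exact k3
    · apply main 4
      · simp only [reord, val_neg]; exact k1
      · simp only [reord]; exact k2
      · rw [r4, val_neg]; exact k3
    · apply main 5
      · simp only [reord]; exact k1
      · simp only [reord, val_neg]; exact k2
      · rw [r5]; exact k3

theorem card_image_eq {α β γ : Type*} [DecidableEq β] [DecidableEq γ] (s : Finset α) (f : α → β)
    (g : α → γ) (h : ∀ x ∈ s, ∀ y ∈ s, f x = f y ↔ g x = g y) :
    (s.image f).card = (s.image g).card := by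
  classical
  have h1 : ((s.image (fun x => (f x, g x))).image Prod.fst) = s.image f := by
    rw [image_image]; rfl
  have h2 : ((s.image (fun x => (f x, g x))).image Prod.snd) = s.image g := by
    rw [image_image]; rfl
  have h3 : ((s.image (fun x => (f x, g x))).image Prod.fst).card =
      (s.image (fun x => (f x, g x))).card := by
    apply card_image_of_injOn
    intro x hx y hy hxy
    obtain ⟨x', hx', rfl⟩ := mem_image.1 (mem_coe.1 hx)
    obtain ⟨y', hy', rfl⟩ := mem_image.1 (mem_coe.1 hy)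
    simp only at hxy
    rw [hxy, (h x' hx' y' hy').1 hxy]
  have h4 : ((s.image (fun x => (f x, g x))).image Prod.snd).card =
      (s.image (fun x => (f x, g x))).card := by
    apply card_image_of_injOn
    intro x hx y hy hxy
    obtain ⟨x', hx', rfl⟩ := mem_image.1 (mem_coe.1 hx)
    obtain ⟨y', hy', rfl⟩ := mem_image.1 (mem_coe.1 hy)
    simp only at hxy
    rw [hxy, (h x' hx' y' hy').2 hxy]
  rw [← h1, ← h2, h3, h4]

theorem pt_mem {a b : Plane} {n : ℕ} {w : ℤ × ℤ} (h1 : 0 ≤ w.1) (h2 : w.1 < (⌈√(n : ℝ)⌉₊ : ℤ))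
    (h3 : 0 ≤ w.2) (h4 : w.2 < (⌈√(n : ℝ)⌉₊ : ℤ)) : pt a b w ∈ latticeSection a b n := by
  have key : ∀ k : ℤ, 0 ≤ k → k < (⌈√(n : ℝ)⌉₊ : ℤ) → (k : ℝ) < √(n : ℝ) := by
    intro k hk0 hk
    have : k.toNat < ⌈√(n : ℝ)⌉₊ := by omega
    rw [Nat.lt_ceil] at this
    have h5 : ((k.toNat : ℕ) : ℝ) = (k : ℝ) := by
      have : ((k.toNat : ℕ) : ℤ) = k := Int.toNat_of_nonneg hk0
      exact_mod_cast this
    rwa [h5] at this
  exact ⟨w.1, w.2, h1, key _ h1 h2, h3, key _ h3 h4, rfl⟩

theorem exists_pt {a b : Plane} {n : ℕ} {x : Plane} (h : x ∈ latticeSection a b n) :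
    ∃ w : ℤ × ℤ, 0 ≤ w.1 ∧ w.1 < (⌈√(n : ℝ)⌉₊ : ℤ) ∧ 0 ≤ w.2 ∧ w.2 < (⌈√(n : ℝ)⌉₊ : ℤ) ∧
      x = pt a b w := by
  obtain ⟨u, v, h1, h2, h3, h4, h5⟩ := h
  have key : ∀ k : ℤ, (k : ℝ) < √(n : ℝ) → k < (⌈√(n : ℝ)⌉₊ : ℤ) := by
    intro k hk
    have : (k : ℝ) < (⌈√(n : ℝ)⌉₊ : ℝ) := lt_of_lt_of_le hk (Nat.le_ceil _)
    exact_mod_cast this
  exact ⟨(u, v), h1, key _ h2, h3, key _ h4, h5⟩

theorem not_collinear {U V P : Plane} (h : LinearIndependent ℝ ![U, V]) :
    ¬ Collinear ℝ ({P, U + P, V + P} : Set Plane) := by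
  intro hc
  rw [LinearIndependent.pair_iff] at h
  rw [collinear_iff_of_mem (p₀ := P) (by simp)] at hc
  obtain ⟨w, hw⟩ := hc
  obtain ⟨r, hr⟩ := hw (U + P) (by simp)
  obtain ⟨s, hs⟩ := hw (V + P) (by simp)
  simp only [vadd_eq_add, add_left_inj] at hr hs
  have h1 := h s (-r) (by rw [hr, hs]; module)
  have h2 := h 1 0 (by rw [hr]; have := h1.2; have : r = 0 := by linarith
                       rw [this]; simp)
  simp at h2

theorem classes_eq {a b : Plane} (h : LinearIndependent ℝ ![a, b]) (n : ℕ) :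
    congrClass '' triangles (latticeSection a b n) =
      (fun t => congrClass (tri3 a b t)) '' (X0 ⌈√(n : ℝ)⌉₊ : Set TT) := by
  ext C
  constructor
  · rintro ⟨S, ⟨hS1, hS2, hS3⟩, rfl⟩
    obtain ⟨x, y, z, hxy, hxz, hyz, rfl⟩ := Set.ncard_eq_three.1 hS2
    obtain ⟨p, p1, p2, p3, p4, rfl⟩ := exists_pt (hS1 (by simp : x ∈ ({x, y, z} : Set Plane)))
    obtain ⟨r, r1, r2, r3, r4, rfl⟩ := exists_pt (hS1 (by simp : y ∈ ({pt a b p, y, z} : Set Plane)))
    obtain ⟨s, s1, s2, s3, s4, rfl⟩ := exists_pt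
      (hS1 (by simp : z ∈ ({pt a b p, pt a b r, z} : Set Plane)))
    refine ⟨(r - p, s - p), ?_, ?_⟩
    · rw [mem_coe, mem_X0, mem_XF']
      refine ⟨?_, ?_⟩
      · simp only [abs_lt, Prod.fst_sub, Prod.snd_sub]
        omega
      · intro hd
        apply hS3
        simp only [det, Prod.fst_sub, Prod.snd_sub] at hd
        have hd' : ((r.1 : ℝ) - p.1) * (s.2 - p.2) - (r.2 - p.2) * (s.1 - p.1) = 0 := by
          exact_mod_cast hd
        obtain ⟨κ, hκ1, hκ2⟩ : ∃ κ : ℝ, (s.1 : ℝ) = κ * (r.1 - p.1) + p.1 ∧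
            (s.2 : ℝ) = κ * (r.2 - p.2) + p.2 := by
          by_cases h0 : r.1 = p.1
          · have h0' : (r.2 : ℝ) - p.2 ≠ 0 := by
              intro h2
              apply hxy
              have : r.2 = p.2 := by
                have : (r.2 : ℝ) = p.2 := by linarith
                exact_mod_cast this
              rw [Prod.ext h0 this]
            have h0r : (r.1 : ℝ) = p.1 := by exact_mod_cast h0
            have hs0 : (s.1 : ℝ) - p.1 = 0 := by
              have : ((r.2 : ℝ) - p.2) * ((s.1 : ℝ) - p.1) = 0 := by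
                rw [h0r] at hd'; linear_combination -hd'
              exact (mul_eq_zero.1 this).resolve_left h0'
            refine ⟨(s.2 - p.2) / (r.2 - p.2), ?_, ?_⟩
            · rw [h0r]; linarith
            · field_simp; ring
          · have h0' : (r.1 : ℝ) - p.1 ≠ 0 := by
              intro h2
              apply h0
              have : (r.1 : ℝ) = p.1 := by linarith
              exact_mod_cast this
            refine ⟨(s.1 - p.1) / (r.1 - p.1), ?_, ?_⟩
            · field_simp; ring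
            · field_simp; linear_combination hd'
        rw [collinear_iff_of_mem (p₀ := pt a b p) (by simp)]
        refine ⟨pt a b r - pt a b p, ?_⟩
        intro x hx
        simp only [Set.mem_insert_iff, Set.mem_singleton_iff] at hx
        rcases hx with rfl | rfl | rfl
        · exact ⟨0, by simp⟩
        · exact ⟨1, by simp⟩
        · refine ⟨κ, ?_⟩
          simp only [pt, vadd_eq_add]
          rw [hκ1, hκ2]
          module
    · rw [congrClass_eq_iff]
      have := congr_translate (pt a b p) (pt a b r) (pt a b s) (-pt a b p)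
      rw [add_neg_cancel, ← sub_eq_add_neg, ← sub_eq_add_neg, ← pt_sub, ← pt_sub] at this
      exact this.symm
  · rintro ⟨t, ht, rfl⟩
    rw [mem_coe, mem_X0, mem_XF'] at ht
    obtain ⟨ht1, ht2⟩ := ht
    simp only [abs_lt] at ht1
    have key : ∀ u v N : ℤ, -N < u → u < N → -N < v → v < N → -N < u - v → u - v < N →
        ∃ x, 0 ≤ x ∧ x < N ∧ 0 ≤ u + x ∧ u + x < N ∧ 0 ≤ v + x ∧ v + x < N := by
      intro u v N _ _ _ _ _ _
      refine ⟨max 0 (max (-u) (-v)), ?_⟩
      omega
    obtain ⟨x, x1, x2, x3, x4, x5, x6⟩ := key t.1.1 t.2.1 _ ht1.1.1.1 ht1.1.1.2 ht1.1.2.1.1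
      ht1.1.2.1.2 ht1.1.2.2.1 ht1.1.2.2.2
    obtain ⟨y, y1, y2, y3, y4, y5, y6⟩ := key t.1.2 t.2.2 _ ht1.2.1.1 ht1.2.1.2 ht1.2.2.1.1
      ht1.2.2.1.2 ht1.2.2.2.1 ht1.2.2.2.2
    have hli := li_pt h ht2
    refine ⟨{pt a b (x, y), pt a b t.1 + pt a b (x, y), pt a b t.2 + pt a b (x, y)},
      ⟨?_, ?_, not_collinear hli⟩, ?_⟩
    · intro z hz
      simp only [Set.mem_insert_iff, Set.mem_singleton_iff] at hz
      rcases hz with rfl | rfl | rfl
      · exact pt_mem x1 x2 y1 y2
      · rw [← pt_add]; exact pt_mem x3 x4 y3 y4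
      · rw [← pt_add]; exact pt_mem x5 x6 y5 y6
    · rw [LinearIndependent.pair_iff] at hli
      rw [Set.ncard_eq_three]
      refine ⟨_, _, _, ?_, ?_, ?_, rfl⟩
      · intro h0
        have : pt a b t.1 = 0 := by simpa using h0.symm
        have := hli 1 0 (by rw [this]; simp)
        simp at this
      · intro h0
        have : pt a b t.2 = 0 := by simpa using h0.symm
        have := hli 0 1 (by rw [this]; simp)
        simp at this
      · intro h0
        have : pt a b t.1 = pt a b t.2 := by simpa using h0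
        have := hli 1 (-1) (by rw [this]; simp)
        simp at this
    · rw [congrClass_eq_iff]
      have := congr_translate 0 (pt a b t.1) (pt a b t.2) (pt a b (x, y))
      rw [zero_add] at this
      exact this.symm

theorem numTriangles_eq {a b : Plane} (h : LinearIndependent ℝ ![a, b]) (n : ℕ) :
    numTriangles (latticeSection a b n) = numS (formOf a b) ⌈√(n : ℝ)⌉₊ := by
  classical
  rw [numTriangles, classes_eq h, ← coe_image, Set.ncard_coe_finset, numS]
  apply card_image_eq
  intro t ht t' ht'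
  rw [congrClass_eq_iff]
  exact congr_iff h (mem_X0.1 ht).2 (mem_X0.1 ht').2

end Pool.Agent.KS6_56.Tri
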