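import Pool.Agent.KS6_56.Tri.Lattice
import Pool.Agent.KS6_56.Tri.Conic

/-!
The rational rotations of a positive definite form in terms of a conic of fundamental discriminant.
-/

namespace Pool.Agent.KS6_56.Tri

open Finset

/-- the identity -/
def RM.one : RM := ⟨1, 0, 0, 1⟩
/-- minus the identity -/
def RM.neg : RM := ⟨-1, 0, 0, -1⟩

theorem rot_eqs {q : Form} {g : RM} (hg : g ∈ Rot q) :
    q.A * (g.a - g.d) + q.B * g.c = 0 ∧ q.A * g.b + q.C * g.c = 0 := by
  obtain ⟨h0, h1, h2, h3⟩ := hg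
  have h0' : (g.a : ℝ) * g.d - g.b * g.c = 1 := by exact_mod_cast h0
  constructor
  · linear_combination (g.d : ℝ) * h1 - (g.c / 2 : ℝ) * h2 - (q.A * g.a + q.B * g.c / 2) * h0'
  · linear_combination (g.d / 2 : ℝ) * h2 - (g.c : ℝ) * h3 - (q.A * g.b + q.B * g.d / 2) * h0'

theorem eq_one_or_neg {q : Form} (hq : q.Pos) {g : RM} (hg : g ∈ Rot q) (hc : g.c = 0) :
    g = RM.one ∨ g = RM.neg := by
  obtain ⟨e1, e2⟩ := rot_eqs hg
  have hA := hq.1.ne'
  rw [hc] at e1 e2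
  simp only [Rat.cast_zero, mul_zero, add_zero, mul_eq_zero, hA, false_or] at e1 e2
  have e1' : g.a = g.d := by
    have : (g.a : ℝ) = g.d := by linarith
    exact_mod_cast this
  have e2' : g.b = 0 := by exact_mod_cast e2
  have h0 := hg.1
  rw [hc, ← e1', e2'] at h0
  have : (g.a - 1) * (g.a + 1) = 0 := by linarith
  rcases mul_eq_zero.1 this with h | h
  · left
    ext <;> simp only [RM.one] <;> linarith
  · right
    ext <;> simp only [RM.neg] <;> linarith

/-- rational forms have primitive integral multiples -/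
theorem exists_primitive (β γ : ℚ) : ∃ A B C r s v : ℤ, 0 < A ∧ (B : ℚ) = β * A ∧ (C : ℚ) = γ * A ∧
    r * A + s * B + v * C = 1 := by
  -- common denominator
  obtain ⟨A0, B0, C0, hA0, hB0, hC0⟩ : ∃ A0 B0 C0 : ℤ, 0 < A0 ∧ (B0 : ℚ) = β * A0 ∧
      (C0 : ℚ) = γ * A0 := by
    refine ⟨β.den * γ.den, β.num * γ.den, γ.num * β.den, by positivity, ?_, ?_⟩
    · push_cast
      rw [← Rat.den_mul_eq_num β]; ring
    · push_cast
      rw [← Rat.den_mul_eq_num γ]; ring
  set d : ℤ := (Int.gcd A0 (Int.gcd B0 C0 : ℤ) : ℤ) with hd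
  have hdA : d ∣ A0 := Int.gcd_dvd_left _ _
  have hd' : d ∣ (Int.gcd B0 C0 : ℤ) := Int.gcd_dvd_right _ _
  have hdB : d ∣ B0 := hd'.trans (Int.gcd_dvd_left _ _)
  have hdC : d ∣ C0 := hd'.trans (Int.gcd_dvd_right _ _)
  have hd0 : 0 < d := by
    rw [hd]
    have : 0 < Int.gcd A0 (Int.gcd B0 C0 : ℤ) := Int.gcd_pos_of_ne_zero_left _ hA0.ne'
    exact_mod_cast this
  obtain ⟨A, hA⟩ := hdA
  obtain ⟨B, hB⟩ := hdB
  obtain ⟨C, hC⟩ := hdC
  have hdq : (d : ℚ) ≠ 0 := by exact_mod_cast hd0.ne'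
  have hbez : ∃ r s v : ℤ, d = r * A0 + s * B0 + v * C0 := by
    have h1 := Int.gcd_eq_gcd_ab A0 (Int.gcd B0 C0 : ℤ)
    have h2 := Int.gcd_eq_gcd_ab B0 C0
    refine ⟨Int.gcdA A0 (Int.gcd B0 C0 : ℤ), Int.gcdB A0 (Int.gcd B0 C0 : ℤ) * Int.gcdA B0 C0,
      Int.gcdB A0 (Int.gcd B0 C0 : ℤ) * Int.gcdB B0 C0, ?_⟩
    rw [hd]
    linear_combination h1 + Int.gcdB A0 (Int.gcd B0 C0 : ℤ) * h2
  obtain ⟨r, s, v, hb⟩ := hbez
  refine ⟨A, B, C, r, s, v, ?_, ?_, ?_, ?_⟩
  · have : 0 < d * A := by rw [← hA]; exact hA0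
    exact (pos_iff_pos_of_mul_pos this).1 hd0
  · have : (d : ℚ) * B = d * (β * A) := by
      have e1 : (B0 : ℚ) = d * B := by exact_mod_cast hB
      have e2 : (A0 : ℚ) = d * A := by exact_mod_cast hA
      rw [← e1, hB0, e2]; ring
    exact mul_left_cancel₀ hdq this
  · have : (d : ℚ) * C = d * (γ * A) := by
      have e1 : (C0 : ℚ) = d * C := by exact_mod_cast hC
      have e2 : (A0 : ℚ) = d * A := by exact_mod_cast hA
      rw [← e1, hC0, e2]; ring
    exact mul_left_cancel₀ hdq this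
  · have : d * (r * A + s * B + v * C) = d * 1 := by
      rw [mul_one]
      conv_rhs => rw [hb, hA, hB, hC]
      ring
    exact mul_left_cancel₀ hd0.ne' this

/-- every discriminant is a square times a fundamental one -/
theorem exists_fund (B Δ : ℤ) (hΔ : 0 < Δ) (h4 : (4 : ℤ) ∣ Δ + B ^ 2) :
    ∃ t n f : ℤ, (t = 0 ∨ t = 1) ∧ 0 < f ∧ Δ = f ^ 2 * (4 * n - t ^ 2) ∧ Fund t n := by
  classical
  let Pr : ℕ → Prop := fun f => 0 < f ∧ ∃ t n : ℤ, (t = 0 ∨ t = 1) ∧ Δ = (f : ℤ) ^ 2 * (4 * n - t ^ 2)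
  have hP1 : Pr 1 := by
    refine ⟨one_pos, ?_⟩
    obtain ⟨k, hk⟩ := h4
    rcases Int.emod_two_eq_zero_or_one B with h | h
    · obtain ⟨j, hj⟩ : ∃ j, B = 2 * j := ⟨B / 2, by omega⟩
      refine ⟨0, k - j ^ 2, Or.inl rfl, ?_⟩
      rw [hj] at hk
      push_cast
      linear_combination hk
    · obtain ⟨j, hj⟩ : ∃ j, B = 2 * j + 1 := ⟨B / 2, by omega⟩
      refine ⟨1, k - j ^ 2 - j, Or.inr rfl, ?_⟩
      rw [hj] at hk
      push_cast
      linear_combination hk
  have hbound : ∀ f, Pr f → f ≤ Δ.toNat := by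
    rintro f ⟨hf, t, n, _, h⟩
    have hf' : (1 : ℤ) ≤ f := by exact_mod_cast hf
    have h1 : 0 < 4 * n - t ^ 2 := by
      have : 0 < (f : ℤ) ^ 2 * (4 * n - t ^ 2) := by rw [← h]; exact hΔ
      exact (pos_iff_pos_of_mul_pos this).1 (by positivity)
    have h2 : (f : ℤ) ≤ Δ := by
      rw [h]; nlinarith
    omega
  let f0 := Nat.findGreatest Pr Δ.toNat
  have hf0 : Pr f0 := Nat.findGreatest_spec (P := Pr) (hbound 1 hP1) hP1
  have hmax : ∀ f, Pr f → f ≤ f0 := fun f hf => Nat.le_findGreatest (hbound f hf) hf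
  obtain ⟨hf0', t, n, ht, hΔeq⟩ := hf0
  refine ⟨t, n, f0, ht, by exact_mod_cast hf0', hΔeq, ?_⟩
  intro p hp hpd z hz
  -- `p² ∣ 4 n - t²`
  have hpp : Prime (p : ℤ) := Nat.prime_iff_prime_int.1 hp
  have e4 : 4 * (z ^ 2 + t * z + n) = (2 * z + t) ^ 2 + (4 * n - t ^ 2) := by ring
  have h1 : (p : ℤ) ∣ 2 * z + t := by
    have : (p : ℤ) ∣ (2 * z + t) ^ 2 := by
      have h2 : (2 * z + t) ^ 2 = 4 * (z ^ 2 + t * z + n) - (4 * n - t ^ 2) := by linarith
      rw [h2]
      exact dvd_sub (Dvd.dvd.mul_left ((dvd_pow_self _ two_ne_zero).trans hz) _) hpd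
    exact hpp.dvd_of_dvd_pow this
  have h2 : (p : ℤ) ^ 2 ∣ 4 * n - t ^ 2 := by
    have : 4 * n - t ^ 2 = 4 * (z ^ 2 + t * z + n) - (2 * z + t) ^ 2 := by linarith
    rw [this]
    exact dvd_sub (Dvd.dvd.mul_left hz _) (pow_dvd_pow_of_dvd h1 2)
  obtain ⟨δ, hδ⟩ := h2
  -- a larger `f`
  have h3 : ∃ t' n' : ℤ, (t' = 0 ∨ t' = 1) ∧ δ = 4 * n' - t' ^ 2 := by
    rcases hp.eq_two_or_odd' with h | h
    · subst h
      have ht0 : t = 0 := by
        rcases ht with h | h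
        · exact h
        · subst h; push_cast at hpd; omega
      subst ht0
      push_cast at hδ hz
      have hn : n = δ := by linarith
      subst hn
      simp only [zero_mul, add_zero] at hz
      obtain ⟨k, hk⟩ := hz
      rcases Int.emod_two_eq_zero_or_one z with h | h
      · obtain ⟨j, hj⟩ : ∃ j, z = 2 * j := ⟨z / 2, by omega⟩
        refine ⟨0, k - j ^ 2, Or.inl rfl, ?_⟩
        rw [hj] at hk; linear_combination hk
      · obtain ⟨j, hj⟩ : ∃ j, z = 2 * j + 1 := ⟨z / 2, by omega⟩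
        refine ⟨1, k - j ^ 2 - j, Or.inr rfl, ?_⟩
        rw [hj] at hk; linear_combination hk
    · obtain ⟨j, hj⟩ := h
      have hp2 : (p : ℤ) ^ 2 = 4 * (j ^ 2 + j) + 1 := by rw [hj]; push_cast; ring
      refine ⟨t, n - (j ^ 2 + j) * δ, ht, ?_⟩
      rw [hp2] at hδ
      linear_combination -hδ
  obtain ⟨t', n', ht', hδ'⟩ := h3
  have h4 : Pr (f0 * p) := by
    refine ⟨Nat.mul_pos hf0' hp.pos, t', n', ht', ?_⟩
    rw [hΔeq, hδ, ← hδ']; push_cast; ring
  have h5 := hmax _ h4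
  have h6 := hp.two_le
  nlinarith

/-- the data attached to a rational rotation -/
def Key (A t f : ℤ) (g : RM) (k : ℕ × (ℤ × ℤ)) : Prop :=
  g.c * f * k.1 = A * k.2.2 ∧ (g.a + g.d) * k.1 = 2 * k.2.1 + t * k.2.2

theorem exists_key {q : Form} {β γ : ℚ} (hβ : q.B = β * q.A) (hγ : q.C = γ * q.A)
    (hq : q.Pos) {A B C r s v t n f : ℤ} (hA : 0 < A) (hB : (B : ℚ) = β * A) (hC : (C : ℚ) = γ * A)
    (hbez : r * A + s * B + v * C = 1) (hf : 0 < f)
    (hΔ : 4 * A * C - B ^ 2 = f ^ 2 * (4 * n - t ^ 2)) {g : RM} (hg : g ∈ Rot q) :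
    ∃ k : ℕ × (ℤ × ℤ), 0 < k.1 ∧ k.1 ≤ den g ∧ IsSol t n k.1 k.2 ∧ Key A t f g k := by
  obtain ⟨e1, e2⟩ := rot_eqs hg
  have hqA := hq.1.ne'
  have hAq : (A : ℚ) ≠ 0 := by exact_mod_cast hA.ne'
  -- relations in ℚ
  have r1 : g.a - g.d + β * g.c = 0 := by
    have : q.A * ((g.a - g.d + β * g.c : ℚ) : ℝ) = 0 := by
      rw [hβ] at e1; push_cast; linear_combination e1
    have := (mul_eq_zero.1 this).resolve_left hqA
    exact_mod_cast this
  have r2 : g.b + γ * g.c = 0 := by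
    have : q.A * ((g.b + γ * g.c : ℚ) : ℝ) = 0 := by
      rw [hγ] at e2; push_cast; linear_combination e2
    have := (mul_eq_zero.1 this).resolve_left hqA
    exact_mod_cast this
  have r0 := hg.1
  set m := den g with hm
  have hm0 : 0 < m := den_pos g
  have hmq : (m : ℚ) ≠ 0 := by exact_mod_cast hm0.ne'
  obtain ⟨⟨p1, p2⟩, hp1, hp2⟩ := den_smul_mem g (1, 0)
  obtain ⟨⟨p3, p4⟩, hp3, hp4⟩ := den_smul_mem g (0, 1)
  rw [Prod.smul_fst, Prod.smul_snd] at hp1 hp2 hp3 hp4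
  simp only [nsmul_eq_mul, mul_one, mul_zero, Int.cast_zero, add_zero, zero_add,
    Int.cast_natCast, ← hm] at hp1 hp2 hp3 hp4
  -- `w = m c / A` is an integer
  set w : ℤ := r * p2 + s * (p4 - p1) - v * p3 with hw
  have hwA : (w : ℚ) * A = m * g.c := by
    have hb : (r : ℚ) * A + s * B + v * C = 1 := by exact_mod_cast hbez
    have f1 : (p4 : ℚ) - p1 = B * (m * g.c / A) := by
      rw [← hp4, ← hp1, hB]; field_simp; linear_combination -r1
    have f2 : (p3 : ℚ) = - (C * (m * g.c / A)) := by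
      rw [← hp3, hC]; field_simp; linear_combination r2
    have f3 : (p2 : ℚ) = A * (m * g.c / A) := by
      rw [← hp2]; field_simp
    have : (w : ℚ) = m * g.c / A := by
      rw [hw]; push_cast
      rw [f1, f2, f3]
      linear_combination (m * g.c / A) * hb
    rw [this]; field_simp
  -- trace
  set S : ℤ := p1 + p4 with hS
  have hSq : (S : ℚ) = m * (g.a + g.d) := by rw [hS]; push_cast; rw [← hp1, ← hp4]; ring
  have hquad : S ^ 2 + (4 * A * C - B ^ 2) * w ^ 2 = 4 * (m : ℤ) ^ 2 := by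
    have : (S : ℚ) ^ 2 + (4 * A * C - B ^ 2) * w ^ 2 = 4 * (m : ℚ) ^ 2 := by
      have g1 : (w : ℚ) = m * g.c / A := by rw [← hwA]; field_simp
      rw [hSq, g1, hB, hC]
      field_simp
      have g2 : β * g.c = g.d - g.a := by linarith
      have g3 : γ * g.c = - g.b := by linarith
      linear_combination 4 * r0 + 4 * g.c * r2 - (β * g.c + (g.d - g.a)) * r1
    exact_mod_cast this
  -- `y = f w`, `x = (S - t y) / 2`
  rw [hΔ] at hquad
  have hpar : ∃ x : ℤ, S - t * (f * w) = 2 * x := by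
    have h1 : Even ((S - t * (f * w)) * (S + t * (f * w))) := by
      refine ⟨2 * (m : ℤ) ^ 2 - 2 * n * (f * w) ^ 2, ?_⟩
      linear_combination hquad
    have h2 : Even (S - t * (f * w)) := by
      rcases Int.even_mul.1 h1 with h | h
      · exact h
      · have : S - t * (f * w) = (S + t * (f * w)) - 2 * (t * (f * w)) := by ring
        rw [this]
        exact h.sub (even_two_mul _)
    obtain ⟨x, hx⟩ := h2
    exact ⟨x, by linarith⟩
  obtain ⟨x, hx⟩ := hpar
  set y : ℤ := f * w with hy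
  have hN : x ^ 2 + t * x * y + n * y ^ 2 = (m : ℤ) ^ 2 := by
    have hS' : S = 2 * x + t * y := by linarith
    rw [hS'] at hquad
    have : 4 * (x ^ 2 + t * x * y + n * y ^ 2) = 4 * (m : ℤ) ^ 2 := by
      rw [← hquad, hy]; ring
    linarith
  -- divide by the content
  have hxy : ¬ (x = 0 ∧ y = 0) := by
    rintro ⟨h1, h2⟩
    rw [h1, h2] at hN
    have : (0 : ℤ) < (m : ℤ) ^ 2 := by positivity
    simp at hN
    omega
  set e : ℕ := Int.gcd x y with he
  have he0 : 0 < e := Nat.pos_of_ne_zero (by rw [he, Ne, Int.gcd_eq_zero_iff]; exact hxy)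
  obtain ⟨x', hx'⟩ : (e : ℤ) ∣ x := Int.gcd_dvd_left _ _
  obtain ⟨y', hy'⟩ : (e : ℤ) ∣ y := Int.gcd_dvd_right _ _
  have hez : (e : ℤ) ≠ 0 := by exact_mod_cast he0.ne'
  have hcop : IsCoprime x' y' := by
    rw [Int.isCoprime_iff_gcd_eq_one]
    have h1 : e = e * Int.gcd x' y' := by
      conv_lhs => rw [he, hx', hy', Int.gcd_mul_left]
      simp
    have : e * Int.gcd x' y' = e * 1 := by rw [← h1, mul_one]
    exact Nat.eq_of_mul_eq_mul_left he0 this
  have hedvd : e ∣ m := by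
    have h1 : (e : ℤ) ^ 2 ∣ (m : ℤ) ^ 2 := by
      rw [← hN, hx', hy']
      exact ⟨x' ^ 2 + t * x' * y' + n * y' ^ 2, by ring⟩
    have h2 : (e : ℤ) ∣ (m : ℤ) := (Int.pow_dvd_pow_iff two_ne_zero).1 h1
    exact_mod_cast h2
  obtain ⟨m', hm'⟩ := hedvd
  have hm'0 : 0 < m' := by
    rcases Nat.eq_zero_or_pos m' with h | h
    · rw [h] at hm'; omega
    · exact h
  refine ⟨(m', (x', y')), hm'0, ?_, ⟨?_, hcop⟩, ?_, ?_⟩
  · simp only
    rw [hm']
    exact Nat.le_mul_of_pos_left _ he0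
  · simp only
    have : (e : ℤ) ^ 2 * (x' ^ 2 + t * x' * y' + n * y' ^ 2) = (e : ℤ) ^ 2 * (m' : ℤ) ^ 2 := by
      have h1 : (m : ℤ) = e * m' := by exact_mod_cast hm'
      rw [hx', hy', h1] at hN
      linear_combination hN
    exact mul_left_cancel₀ (pow_ne_zero 2 hez) this
  · simp only
    have h1 : (m : ℚ) = e * m' := by exact_mod_cast hm'
    have h2 : (f : ℚ) * w = e * y' := by
      have : f * w = e * y' := by rw [← hy, hy']
      exact_mod_cast this
    have heq : (e : ℚ) ≠ 0 := by exact_mod_cast he0.ne'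
    have : (e : ℚ) * (g.c * f * m') = e * (A * y') := by
      rw [h1] at hwA
      linear_combination (-f : ℚ) * hwA + A * h2
    exact mul_left_cancel₀ heq this
  · simp only
    have h1 : (m : ℚ) = e * m' := by exact_mod_cast hm'
    have heq : (e : ℚ) ≠ 0 := by exact_mod_cast he0.ne'
    have h3 : (S : ℚ) = 2 * (e * x') + t * (e * y') := by
      have : S = 2 * (e * x') + t * (e * y') := by rw [← hx', ← hy']; linarith
      exact_mod_cast this
    have : (e : ℚ) * ((g.a + g.d) * m') = e * (2 * x' + t * y') := by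
      rw [h1] at hSq
      linear_combination h3 - hSq
    exact mul_left_cancel₀ heq this

theorem key_inj {q : Form} {β γ : ℚ} (hβ : q.B = β * q.A) (hγ : q.C = γ * q.A)
    (hq : q.Pos) {A t f : ℤ} (hf : 0 < f) {g g' : RM} (hg : g ∈ Rot q)
    (hg' : g' ∈ Rot q) {k : ℕ × (ℤ × ℤ)} (hk : 0 < k.1) (h : Key A t f g k) (h' : Key A t f g' k) :
    g = g' := by
  have hqA := hq.1.ne'
  have rel : ∀ g ∈ Rot q, g.a - g.d + β * g.c = 0 ∧ g.b + γ * g.c = 0 := by
    intro g hg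
    obtain ⟨e1, e2⟩ := rot_eqs hg
    constructor
    · have : q.A * ((g.a - g.d + β * g.c : ℚ) : ℝ) = 0 := by
        rw [hβ] at e1; push_cast; linear_combination e1
      have := (mul_eq_zero.1 this).resolve_left hqA
      exact_mod_cast this
    · have : q.A * ((g.b + γ * g.c : ℚ) : ℝ) = 0 := by
        rw [hγ] at e2; push_cast; linear_combination e2
      have := (mul_eq_zero.1 this).resolve_left hqA
      exact_mod_cast this
  obtain ⟨a1, a2⟩ := rel g hg
  obtain ⟨b1, b2⟩ := rel g' hg'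
  have hkq : (k.1 : ℚ) ≠ 0 := by exact_mod_cast hk.ne'
  have hfq : (f : ℚ) ≠ 0 := by exact_mod_cast hf.ne'
  have ec : g.c = g'.c := by
    have : (g.c - g'.c) * ((f : ℚ) * k.1) = 0 := by linear_combination h.1 - h'.1
    rcases mul_eq_zero.1 this with h | h
    · linarith
    · exact absurd h (mul_ne_zero hfq hkq)
  have et : g.a + g.d = g'.a + g'.d := by
    have : ((g.a + g.d) - (g'.a + g'.d)) * (k.1 : ℚ) = 0 := by linear_combination h.2 - h'.2
    rcases mul_eq_zero.1 this with h | h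
    · linarith
    · exact absurd h hkq
  rw [← ec] at b1 b2
  ext
  · linarith
  · linarith
  · exact ec
  · linarith

end Pool.Agent.KS6_56.Tri
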